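import Mathlib

/-!
# Dense conjunctions of local linear constraints contain large affine subspaces
-/

namespace Pool.Agent.Helper12.LocAff

open Finset

section

variable (p : ℕ) [Fact p.Prime] {Y : Type} [AddCommGroup Y] [Module (ZMod p) Y]

/-- `φ` depends on `n` linear forms. -/
def Dep (n : ℕ) (φ : Y → Prop) : Prop :=
  ∃ l : Fin n → (Y →ₗ[ZMod p] ZMod p), ∀ z z', (∀ i, l i z = l i z') → (φ z ↔ φ z')

/-- `F` is a conjunction of constraints which depend on `n` linear forms. -/
def Bd (n : ℕ) (F : Y → Prop) : Prop :=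
  ∃ Φ : Set (Y → Prop), (∀ φ ∈ Φ, Dep p n φ) ∧ ∀ z, F z ↔ ∀ φ ∈ Φ, φ z

variable {p}

/-- common kernel -/
def KL (L : List (Y →ₗ[ZMod p] ZMod p)) : Submodule (ZMod p) Y where
  carrier := {z | ∀ f ∈ L, f z = 0}
  add_mem' := by
    intro a b ha hb f hf
    rw [map_add, ha f hf, hb f hf, add_zero]
  zero_mem' := by
    intro f _
    exact map_zero f
  smul_mem' := by
    intro c a ha f hf
    rw [map_smul, ha f hf, smul_zero]

theorem exists_dual {n : ℕ} (L : List (Y →ₗ[ZMod p] ZMod p))
    (l : Fin n → (Y →ₗ[ZMod p] ZMod p))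
    (h : ¬ ∃ c : Fin n → ZMod p, c ≠ 0 ∧ ∀ z, (∀ f ∈ L, f z = 0) → ∑ i, c i * l i z = 0) :
    ∀ i, ∃ w : Y, (∀ f ∈ L, f w = 0) ∧ ∀ j, l j w = if j = i then 1 else 0 := by
  classical
  let Λ : KL L →ₗ[ZMod p] (Fin n → ZMod p) := (LinearMap.pi l).comp (KL L).subtype
  have hs : LinearMap.range Λ = ⊤ := by
    by_contra hne
    obtain ⟨f, hf0, hf⟩ := Submodule.exists_le_ker_of_lt_top _ (lt_top_iff_ne_top.2 hne)
    apply h
    refine ⟨fun i => f (fun j => if i = j then 1 else 0), ?_, ?_⟩
    · intro hc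
      apply hf0
      ext i
      have := congrFun hc i
      simp only [Pi.zero_apply] at this
      simp only [LinearMap.coe_comp, Function.comp_apply, LinearMap.coe_single, LinearMap.zero_apply]
      convert this using 2
      funext j
      simp [Pi.single_apply, eq_comm]
    · intro z hz
      have h1 : Λ ⟨z, hz⟩ ∈ LinearMap.range Λ := ⟨_, rfl⟩
      have h2 := hf h1
      rw [LinearMap.mem_ker, LinearMap.pi_apply_eq_sum_univ] at h2
      refine (Finset.sum_congr rfl ?_).trans h2
      intro i _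
      rw [smul_eq_mul, mul_comm]
      rfl
  intro i
  have h1 : (fun j => if j = i then (1 : ZMod p) else 0) ∈ LinearMap.range Λ := by
    rw [hs]; trivial
  obtain ⟨w, hw⟩ := h1
  exact ⟨w.1, w.2, fun j => congrFun hw j⟩

variable (p)

/-- The conjunction of `Φ` is rarely satisfied: many independent constraints. -/
def Good [Fintype Y] (n : ℕ) (Φ : Set (Y → Prop)) (t : ℕ) : Prop :=
  ∃ (A : Finset Y) (L : List (Y →ₗ[ZMod p] ZMod p)),
    (∀ z, (∀ φ ∈ Φ, φ z) → z ∈ A) ∧ (∀ z z', (∀ f ∈ L, f z = f z') → (z ∈ A ↔ z' ∈ A)) ∧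
    L.length ≤ n * t ∧ A.card * (p ^ n) ^ t ≤ (p ^ n - 1) ^ t * Fintype.card Y

/-- All constraints degenerate on the common kernel of few linear forms. -/
def Rel (n : ℕ) (Φ : Set (Y → Prop)) (t : ℕ) : Prop :=
  ∃ L : List (Y →ₗ[ZMod p] ZMod p), L.length ≤ n * t ∧ ∀ φ ∈ Φ, (∀ z, φ z) ∨
    ∃ l : Fin n → (Y →ₗ[ZMod p] ZMod p),
      (∀ z z', (∀ i, l i z = l i z') → (φ z ↔ φ z')) ∧
      ∃ c : Fin n → ZMod p, c ≠ 0 ∧ ∀ z, (∀ f ∈ L, f z = 0) → ∑ i, c i * l i z = 0

theorem good_or_rel [Fintype Y] [DecidableEq Y] (n : ℕ) (Φ : Set (Y → Prop))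
    (hΦ : ∀ φ ∈ Φ, Dep p n φ) (t : ℕ) : Good p n Φ t ∨ Rel p n Φ t := by
  classical
  induction t with
  | zero =>
    left
    refine ⟨Finset.univ, [], fun _ _ => Finset.mem_univ _, fun _ _ _ => by simp, by simp, ?_⟩
    simp
  | succ t ih =>
    rcases ih with ⟨A, L, h1, h2, h3, h4⟩ | ⟨L, h1, h2⟩
    · by_cases hR : ∀ φ ∈ Φ, (∀ z, φ z) ∨
        ∃ l : Fin n → (Y →ₗ[ZMod p] ZMod p),
          (∀ z z', (∀ i, l i z = l i z') → (φ z ↔ φ z')) ∧
          ∃ c : Fin n → ZMod p, c ≠ 0 ∧ ∀ z, (∀ f ∈ L, f z = 0) → ∑ i, c i * l i z = 0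
      · right
        exact ⟨L, h3.trans (Nat.mul_le_mul_left _ (Nat.le_succ t)), hR⟩
      · left
        push Not at hR
        obtain ⟨φ, hφ, ⟨z₀, hz₀⟩, hR⟩ := hR
        obtain ⟨l, hl⟩ := hΦ φ hφ
        have hd := exists_dual L l (by
          rintro ⟨c, hc, hcz⟩
          obtain ⟨z, hz, hz'⟩ := hR l hl c hc
          exact hz' (hcz z hz))
        choose w hw1 hw2 using hd
        -- the change of `z` which violates the constraint
        let mv : Y → Y := fun z => z + ∑ i, (l i z₀ - l i z) • w i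
        have hmv1 : ∀ z, ∀ f ∈ L, f (mv z) = f z := by
          intro z f hf
          show f (z + ∑ i, (l i z₀ - l i z) • w i) = f z
          rw [map_add, map_sum]
          have : ∑ i, f ((l i z₀ - l i z) • w i) = 0 := by
            apply Finset.sum_eq_zero
            intro i _
            rw [map_smul, hw1 i f hf, smul_zero]
          rw [this, add_zero]
        have hmv2 : ∀ z i, l i (mv z) = l i z₀ := by
          intro z i
          show l i (z + ∑ i, (l i z₀ - l i z) • w i) = l i z₀
          rw [map_add, map_sum]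
          have : ∑ j, l i ((l j z₀ - l j z) • w j) = l i z₀ - l i z := by
            rw [Finset.sum_eq_single i]
            · rw [map_smul, hw2 i i, if_pos rfl, smul_eq_mul, mul_one]
            · intro j _ hj
              rw [map_smul, hw2 j i, if_neg (Ne.symm hj), smul_zero]
            · intro h; exact absurd (Finset.mem_univ _) h
          rw [this]
          ring
        refine ⟨A.filter φ, L ++ List.ofFn l, ?_, ?_, ?_, ?_⟩
        · intro z hz
          exact Finset.mem_filter.2 ⟨h1 z hz, hz φ hφ⟩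
        · intro z z' hzz
          rw [Finset.mem_filter, Finset.mem_filter]
          have e1 := h2 z z' fun f hf => hzz f (List.mem_append_left _ hf)
          have e2 := hl z z' fun i => hzz (l i) (List.mem_append_right _ (List.mem_ofFn.2 ⟨i, rfl⟩))
          rw [e1, e2]
        · rw [List.length_append, List.length_ofFn, Nat.mul_succ]
          exact Nat.add_le_add_right h3 n
        · have hcount : A.card ≤ (A.filter fun z => ¬ φ z).card * p ^ n := by
            have e1 : (p : ℕ) ^ n = (Finset.univ : Finset (Fin n → ZMod p)).card := by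
              rw [Finset.card_univ, Fintype.card_fun, ZMod.card, Fintype.card_fin]
            rw [e1, ← Finset.card_product]
            apply Finset.card_le_card_of_injOn (fun z => (mv z, fun i => l i z))
            · intro z hz
              refine Finset.mem_coe.2 (Finset.mem_product.2 ⟨?_, Finset.mem_univ _⟩)
              refine Finset.mem_filter.2 ⟨?_, ?_⟩
              · exact (h2 (mv z) z fun f hf => hmv1 z f hf).2 hz
              · intro hc
                exact hz₀ ((hl (mv z) z₀ fun i => hmv2 z i).1 hc)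
            · intro z _ z' _ hzz
              have e2 : mv z = mv z' := congrArg Prod.fst hzz
              have e3 : (fun i => l i z) = fun i => l i z' := congrArg Prod.snd hzz
              have e4 : ∑ i, (l i z₀ - l i z) • w i = ∑ i, (l i z₀ - l i z') • w i := by
                apply Finset.sum_congr rfl
                intro i _
                rw [show l i z = l i z' from congrFun e3 i]
              have e5 : z + ∑ i, (l i z₀ - l i z) • w i = z' + ∑ i, (l i z₀ - l i z') • w i := e2
              rw [e4] at e5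
              exact add_right_cancel e5
          have hsum : (A.filter φ).card + (A.filter fun z => ¬ φ z).card = A.card :=
            Finset.card_filter_add_card_filter_not _
          have hpos : 1 ≤ p ^ n := Nat.one_le_pow _ _ (Nat.Prime.pos Fact.out)
          obtain ⟨P, hP⟩ : ∃ P, p ^ n = P + 1 := ⟨p ^ n - 1, by omega⟩
          have h5 : (A.filter φ).card * p ^ n ≤ A.card * (p ^ n - 1) := by
            rw [hP] at hcount ⊢
            rw [Nat.add_sub_cancel]
            nlinarith
          calc (A.filter φ).card * (p ^ n) ^ (t + 1) = ((A.filter φ).card * p ^ n) * (p ^ n) ^ t := by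
                ring
            _ ≤ (A.card * (p ^ n - 1)) * (p ^ n) ^ t := Nat.mul_le_mul_right _ h5
            _ = (A.card * (p ^ n) ^ t) * (p ^ n - 1) := by ring
            _ ≤ ((p ^ n - 1) ^ t * Fintype.card Y) * (p ^ n - 1) := Nat.mul_le_mul_right _ h4
            _ = (p ^ n - 1) ^ (t + 1) * Fintype.card Y := by ring
    · right
      exact ⟨L, h1.trans (Nat.mul_le_mul_left _ (Nat.le_succ t)), h2⟩

variable {p}

/-! ### Cosets of the common kernel -/

theorem KL_finrank [Fintype Y] (L : List (Y →ₗ[ZMod p] ZMod p)) :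
    Module.finrank (ZMod p) Y ≤ Module.finrank (ZMod p) (KL L) + L.length := by
  classical
  let Ψ : Y →ₗ[ZMod p] (Fin L.length → ZMod p) := LinearMap.pi fun q => L.get q
  have h1 : LinearMap.ker Ψ = KL L := by
    ext x
    rw [LinearMap.mem_ker]
    constructor
    · intro h f hf
      obtain ⟨i, rfl⟩ := List.mem_iff_get.1 hf
      exact congrFun h i
    · intro h
      funext q
      exact h _ (List.get_mem _ _)
  have h2 := LinearMap.finrank_range_add_finrank_ker Ψ
  have h3 : Module.finrank (ZMod p) (LinearMap.range Ψ) ≤ L.length := by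
    refine (Submodule.finrank_le _).trans (le_of_eq ?_)
    rw [Module.finrank_fintype_fun_eq_card, Fintype.card_fin]
  rw [h1] at h2
  omega

theorem reduce {n : ℕ} {Φ : Set (Y → Prop)}
    (L : List (Y →ₗ[ZMod p] ZMod p))
    (hL : ∀ φ ∈ Φ, (∀ z, φ z) ∨
      ∃ l : Fin (n + 1) → (Y →ₗ[ZMod p] ZMod p),
        (∀ z z', (∀ i, l i z = l i z') → (φ z ↔ φ z')) ∧
        ∃ c : Fin (n + 1) → ZMod p, c ≠ 0 ∧ ∀ z, (∀ f ∈ L, f z = 0) → ∑ i, c i * l i z = 0)
    {F : Y → Prop} (hF : ∀ z, F z ↔ ∀ φ ∈ Φ, φ z) (y : Y) :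
    Bd p n (fun u : KL L => F (y + u)) := by
  refine ⟨{ψ | ∃ φ ∈ Φ, ψ = fun u : KL L => φ (y + u)}, ?_, ?_⟩
  · rintro _ ⟨φ, hφ, rfl⟩
    rcases hL φ hφ with h | ⟨l, hl, c, hc, hcz⟩
    · exact ⟨fun _ => 0, fun z z' _ => ⟨fun _ => h _, fun _ => h _⟩⟩
    · obtain ⟨i₀, hi₀⟩ : ∃ i, c i ≠ 0 := by
        by_contra hcon
        push Not at hcon
        exact hc (funext hcon)
      refine ⟨fun i => (l (i₀.succAbove i)).comp (KL L).subtype, fun z z' h => hl _ _ ?_⟩
      have h1 := hcz _ z.2
      have h2 := hcz _ z'.2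
      rw [Fin.sum_univ_succAbove _ i₀] at h1 h2
      have h3 : ∑ i, c (i₀.succAbove i) * l (i₀.succAbove i) (z : Y) =
          ∑ i, c (i₀.succAbove i) * l (i₀.succAbove i) (z' : Y) := by
        apply Finset.sum_congr rfl
        intro i _
        rw [show l (i₀.succAbove i) (z : Y) = l (i₀.succAbove i) (z' : Y) from h i]
      have h4 : c i₀ * l i₀ (z : Y) = c i₀ * l i₀ (z' : Y) := by
        rw [h3] at h1
        exact add_right_cancel (h1.trans h2.symm)
      intro i
      rw [map_add, map_add]
      congr 1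
      rcases Fin.eq_self_or_eq_succAbove i₀ i with rfl | ⟨j, rfl⟩
      · exact mul_left_cancel₀ hi₀ h4
      · exact h j
  · intro z
    show F (y + z) ↔ _
    rw [hF]
    constructor
    · rintro h _ ⟨φ, hφ, rfl⟩
      exact h φ hφ
    · intro h φ hφ
      exact h _ ⟨φ, hφ, rfl⟩

/-- Some coset of a subspace has at least the average number of elements of `F`. -/
theorem coset [Fintype Y] (V : Submodule (ZMod p) Y) [Fintype V] (F : Y → Prop)
    [DecidablePred F] :
    ∃ y : Y, (Finset.univ.filter F).card * Fintype.card V ≤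
      (Finset.univ.filter fun u : V => F (y + u)).card * Fintype.card Y := by
  classical
  have hsum : ∑ y : Y, (Finset.univ.filter fun u : V => F (y + u)).card =
      (Finset.univ.filter F).card * Fintype.card V := by
    have e1 : ∀ y : Y, (Finset.univ.filter fun u : V => F (y + u)).card =
        ∑ u : V, if F (y + u) then 1 else 0 := fun y => by
      rw [Finset.card_filter]
    rw [Finset.sum_congr rfl fun y _ => e1 y, Finset.sum_comm]
    have e2 : ∀ u : V, (∑ y : Y, if F (y + u) then 1 else 0) = (Finset.univ.filter F).card := by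
      intro u
      rw [Finset.card_filter]
      exact Fintype.sum_equiv (Equiv.addRight (u : Y)) _ _ fun y => rfl
    rw [Finset.sum_congr rfl fun u _ => e2 u, Finset.sum_const, Finset.card_univ, smul_eq_mul,
      mul_comm]
  by_contra hcon
  push Not at hcon
  have h1 : ∑ y : Y, (Finset.univ.filter fun u : V => F (y + u)).card * Fintype.card Y <
      ∑ _y : Y, (Finset.univ.filter F).card * Fintype.card V :=
    Finset.sum_lt_sum_of_nonempty ⟨0, Finset.mem_univ _⟩ fun y _ => hcon y
  rw [← Finset.sum_mul, hsum, Finset.sum_const, Finset.card_univ, smul_eq_mul, mul_comm] at h1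
  exact lt_irrefl _ h1

/-- A conjunction of constraints of width `n` with density larger than `(1 - p ^ (-n)) ^ T` contains an
affine subspace of codimension at most `T n (n + 1) / 2`. -/
theorem dense (n T : ℕ) : ∀ (Y : Type) [AddCommGroup Y] [Module (ZMod p) Y] [Fintype Y]
    (F : Y → Prop) [DecidablePred F], Bd p n F →
    (p ^ n - 1) ^ T * Fintype.card Y < (Finset.univ.filter F).card * (p ^ n) ^ T →
    ∃ (y : Y) (W : Submodule (ZMod p) Y),
      Module.finrank (ZMod p) Y ≤ Module.finrank (ZMod p) W + T * (n * (n + 1) / 2) ∧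
      ∀ w ∈ W, F (y + w) := by
  classical
  induction n with
  | zero =>
    intro Y _ _ _ F _ hF hcard
    obtain ⟨Φ, hΦ, hF⟩ := hF
    have hne : ∃ z, F z := by
      by_contra hcon
      push Not at hcon
      have : (Finset.univ.filter F) = ∅ := Finset.filter_eq_empty_iff.2 fun z _ => hcon z
      rw [this, Finset.card_empty, Nat.zero_mul] at hcard
      omega
    obtain ⟨z, hz⟩ := hne
    refine ⟨z, ⊤, by simp, ?_⟩
    intro w _
    rw [hF] at hz ⊢
    intro φ hφ
    obtain ⟨l, hl⟩ := hΦ φ hφ
    exact (hl z (z + w) fun i => i.elim0).1 (hz φ hφ)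
  | succ n ih =>
    intro Y _ _ _ F _ hF hcard
    obtain ⟨Φ, hΦ, hF⟩ := hF
    rcases good_or_rel p (n + 1) Φ hΦ T with ⟨A, _, h1, _, _, h4⟩ | ⟨L, hlen, hL⟩
    · exfalso
      have h5 : (Finset.univ.filter F).card ≤ A.card :=
        Finset.card_le_card fun z hz => h1 z ((hF z).1 (Finset.mem_filter.1 hz).2)
      have h6 := Nat.mul_le_mul_right ((p ^ (n + 1)) ^ T) h5
      omega
    · let _ : Fintype (KL L) := Fintype.ofFinite _
      obtain ⟨y, hy⟩ := coset (KL L) F
      have hp1 : 1 ≤ p := (Nat.Prime.pos Fact.out)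
      have hbase : (p ^ n - 1) * p ^ (n + 1) ≤ (p ^ (n + 1) - 1) * p ^ n := by
        rw [Nat.sub_mul, Nat.sub_mul, Nat.one_mul, Nat.one_mul, mul_comm (p ^ n) (p ^ (n + 1))]
        apply Nat.sub_le_sub_left
        exact Nat.pow_le_pow_right hp1 (Nat.le_succ n)
      have hT : (p ^ n - 1) ^ T * (p ^ (n + 1)) ^ T ≤ (p ^ (n + 1) - 1) ^ T * (p ^ n) ^ T := by
        rw [← Nat.mul_pow, ← Nat.mul_pow]
        exact Nat.pow_le_pow_left hbase T
      have hYpos : 0 < Fintype.card Y := Fintype.card_pos_iff.2 ⟨0⟩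
      have hVpos : 0 < Fintype.card (KL L) := Fintype.card_pos_iff.2 ⟨0⟩
      have hppos : 0 < (p ^ n) ^ T := Nat.pow_pos (Nat.pow_pos hp1)
      have hppos' : 0 < (p ^ (n + 1)) ^ T := Nat.pow_pos (Nat.pow_pos hp1)
      have hkey : (p ^ n - 1) ^ T * Fintype.card (KL L) <
          (Finset.univ.filter fun u : KL L => F (y + u)).card * (p ^ n) ^ T := by
        refine lt_of_mul_lt_mul_right (a := (p ^ (n + 1)) ^ T * Fintype.card Y) ?_ (Nat.zero_le _)
        calc (p ^ n - 1) ^ T * Fintype.card (KL L) * ((p ^ (n + 1)) ^ T * Fintype.card Y)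
            = ((p ^ n - 1) ^ T * (p ^ (n + 1)) ^ T) * (Fintype.card (KL L) * Fintype.card Y) := by
              ring
          _ ≤ ((p ^ (n + 1) - 1) ^ T * (p ^ n) ^ T) * (Fintype.card (KL L) * Fintype.card Y) :=
              Nat.mul_le_mul_right _ hT
          _ = ((p ^ (n + 1) - 1) ^ T * Fintype.card Y) * ((p ^ n) ^ T * Fintype.card (KL L)) := by
              ring
          _ < ((Finset.univ.filter F).card * (p ^ (n + 1)) ^ T) *
              ((p ^ n) ^ T * Fintype.card (KL L)) :=
              Nat.mul_lt_mul_of_pos_right hcard (Nat.mul_pos hppos hVpos)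
          _ = ((Finset.univ.filter F).card * Fintype.card (KL L)) *
              ((p ^ (n + 1)) ^ T * (p ^ n) ^ T) := by ring
          _ ≤ ((Finset.univ.filter fun u : KL L => F (y + u)).card * Fintype.card Y) *
              ((p ^ (n + 1)) ^ T * (p ^ n) ^ T) := Nat.mul_le_mul_right _ hy
          _ = _ := by ring
      obtain ⟨y', W, hW, hWF⟩ := ih (KL L) (fun u : KL L => F (y + u)) (reduce L hL hF y) hkey
      refine ⟨y + y', W.map (KL L).subtype, ?_, ?_⟩
      · have h1 := KL_finrank L
        have h2 : Module.finrank (ZMod p) (W.map (KL L).subtype) = Module.finrank (ZMod p) W :=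
          Submodule.finrank_map_subtype_eq (KL L) W
        have h3 : (n + 1) * (n + 1 + 1) / 2 = n * (n + 1) / 2 + (n + 1) := by
          have : (n + 1) * (n + 1 + 1) = n * (n + 1) + (n + 1) * 2 := by ring
          rw [this, Nat.add_mul_div_right _ _ (by norm_num)]
        rw [h2, h3, Nat.mul_add, mul_comm T (n + 1)]
        omega
      · rintro w ⟨u, hu, rfl⟩
        have := hWF u hu
        rw [Submodule.coe_add, ← add_assoc] at this
        exact this

end

end Pool.Agent.Helper12.LocAff
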