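import Pool.Agent.Helper12.LocAff

/-!
# Graphs given by few conjunctions of local linear constraints: bicliques and corners
-/

namespace Pool.Agent.Helper12.LocBic

open Finset Pool.Agent.Helper12.LocAff

/-- `log (p ^ k / (p ^ k - 1))` -/
noncomputable def lam (p k : ℕ) : ℝ := Real.log ((p : ℝ) ^ k / ((p : ℝ) ^ k - 1))

/-- The exponent. -/
noncomputable def gam (p k : ℕ) : ℝ := lam p k / ((k * (k + 1) / 2 : ℕ) * Real.log p)

theorem lam_pos {p k : ℕ} (hp : p.Prime) (hk : 1 ≤ k) : 0 < lam p k := by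
  have h2 : (2 : ℝ) ≤ (p : ℝ) ^ k := by
    have h1 : 2 ≤ p ^ k := by
      calc 2 ≤ p := hp.two_le
        _ = p ^ 1 := (pow_one p).symm
        _ ≤ p ^ k := Nat.pow_le_pow_right hp.pos hk
    exact_mod_cast h1
  apply Real.log_pos
  rw [lt_div_iff₀ (by linarith)]
  linarith

theorem tri_pos {k : ℕ} (hk : 1 ≤ k) : 1 ≤ k * (k + 1) / 2 := by
  rw [Nat.le_div_iff_mul_le (by norm_num)]
  nlinarith

theorem gam_pos {p k : ℕ} (hp : p.Prime) (hk : 1 ≤ k) : 0 < gam p k := by
  apply div_pos (lam_pos hp hk)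
  apply mul_pos
  · have := tri_pos hk
    exact_mod_cast this
  · apply Real.log_pos
    exact_mod_cast hp.one_lt

/-- The density bound: `(1 - p ^ (-k)) ^ T ≤ C N ^ (- δ)` for `T = ⌊(m - a) / (b tri)⌋`. -/
theorem dens {p k : ℕ} (hp : p.Prime) (hk : 1 ≤ k) (m a b : ℕ) (hb : 1 ≤ b) :
    (((p : ℝ) ^ k - 1) / (p : ℝ) ^ k) ^ ((m - a) / (b * (k * (k + 1) / 2))) ≤
      Real.exp (lam p k) * ((p : ℝ) ^ a) ^ (gam p k / b) * ((p : ℝ) ^ m) ^ (-(gam p k / b)) := by
  have hp1 : (1 : ℝ) < p := by exact_mod_cast hp.one_lt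
  have hlogp : 0 < Real.log p := Real.log_pos hp1
  have h2 : (2 : ℝ) ≤ (p : ℝ) ^ k := by
    have h1 : 2 ≤ p ^ k := by
      calc 2 ≤ p := hp.two_le
        _ = p ^ 1 := (pow_one p).symm
        _ ≤ p ^ k := Nat.pow_le_pow_right hp.pos hk
    exact_mod_cast h1
  obtain ⟨tri, htri⟩ : ∃ tri, tri = k * (k + 1) / 2 := ⟨_, rfl⟩
  have htri1 : 1 ≤ tri := by rw [htri]; exact tri_pos hk
  obtain ⟨T, hT⟩ : ∃ T, T = (m - a) / (b * (k * (k + 1) / 2)) := ⟨_, rfl⟩
  rw [← hT]
  rw [← htri] at hT
  have hbt : 0 < b * tri := Nat.mul_pos hb htri1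
  have hT1 : m - a < b * tri * (T + 1) := by
    rw [hT]
    exact Nat.lt_mul_div_succ _ hbt
  have hT2 : (m : ℝ) - a ≤ b * tri * (T + 1) := by
    have h3 : m ≤ b * tri * (T + 1) + a := by omega
    have h4 : (m : ℝ) ≤ b * tri * (T + 1) + a := by exact_mod_cast h3
    linarith
  have hbase : ((p : ℝ) ^ k - 1) / (p : ℝ) ^ k = Real.exp (-lam p k) := by
    rw [lam, ← Real.log_inv, inv_div, Real.exp_log]
    apply div_pos <;> linarith
  have hlam := lam_pos hp hk
  have hgam : gam p k * (tri * Real.log p) = lam p k := by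
    rw [gam, ← htri, div_mul_cancel₀]
    apply ne_of_gt
    apply mul_pos _ hlogp
    exact_mod_cast htri1
  have e1 : ∀ n : ℕ, ∀ x : ℝ, ((p : ℝ) ^ n) ^ x = Real.exp (n * Real.log p * x) := by
    intro n x
    rw [Real.rpow_def_of_pos (by positivity), Real.log_pow]
  rw [hbase, ← Real.exp_nat_mul, e1, e1, ← Real.exp_add, ← Real.exp_add]
  apply Real.exp_le_exp.2
  have hb0 : (0 : ℝ) < b := by exact_mod_cast hb
  have e2 : (a : ℝ) * Real.log p * (gam p k / b) + m * Real.log p * (-(gam p k / b)) =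
      - ((m - a) * (lam p k / (b * tri))) := by
    have ht0 : (tri : ℝ) ≠ 0 := by
      have : (0 : ℝ) < tri := by exact_mod_cast htri1
      exact this.ne'
    rw [← hgam]
    field_simp
    ring
  have e3 : (m - a : ℝ) * (lam p k / (b * tri)) ≤ (T + 1) * lam p k := by
    have ht0 : (0 : ℝ) < tri := by exact_mod_cast htri1
    rw [← mul_div_assoc, div_le_iff₀ (by positivity)]
    calc (m - a : ℝ) * lam p k ≤ (b * tri * (T + 1)) * lam p k :=
          mul_le_mul_of_nonneg_right hT2 hlam.le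
      _ = _ := by ring
  have e4 : lam p k + (a : ℝ) * Real.log p * (gam p k / b) + m * Real.log p * (-(gam p k / b)) =
      lam p k - ((m - a) * (lam p k / (b * tri))) := by
    rw [add_assoc, e2]
    ring
  rw [e4]
  linarith

theorem card_real {p k T c N : ℕ} (hp : p.Prime) (h : c * (p ^ k) ^ T ≤ (p ^ k - 1) ^ T * N) :
    (c : ℝ) ≤ (((p : ℝ) ^ k - 1) / (p : ℝ) ^ k) ^ T * N := by
  have hpos : 1 ≤ p ^ k := Nat.one_le_pow _ _ hp.pos
  have h' : (c : ℝ) * ((p : ℝ) ^ k) ^ T ≤ ((p : ℝ) ^ k - 1) ^ T * N := by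
    have := (Nat.cast_le (α := ℝ)).2 h
    push_cast [Nat.cast_sub hpos] at this
    exact this
  have hp0 : (0 : ℝ) < (p : ℝ) ^ k := by
    have : (0 : ℝ) < p := by exact_mod_cast hp.pos
    positivity
  rw [div_pow, div_mul_eq_mul_div, le_div_iff₀ (by positivity)]
  exact h'

/-- Subspaces of the intersection with a subspace given by an injective map. -/
theorem comap_finrank {p : ℕ} [Fact p.Prime] {X Y : Type} [AddCommGroup X] [Module (ZMod p) X]
    [AddCommGroup Y] [Module (ZMod p) Y] [Finite Y] (f : X →ₗ[ZMod p] Y)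
    (hf : Function.Injective f) (W : Submodule (ZMod p) Y) {D : ℕ}
    (hW : Module.finrank (ZMod p) Y ≤ Module.finrank (ZMod p) W + D) :
    Module.finrank (ZMod p) X ≤ Module.finrank (ZMod p) (W.comap f) + D := by
  have : Finite X := Finite.of_injective f hf
  have h1 : Module.finrank (ZMod p) ((W.comap f).map f) = Module.finrank (ZMod p) (W.comap f) :=
    (LinearEquiv.finrank_eq (Submodule.equivMapOfInjective f hf (W.comap f))).symm
  rw [Submodule.map_comap_eq] at h1
  have h2 := Submodule.finrank_sup_add_finrank_inf_eq (LinearMap.range f) W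
  have h3 : Module.finrank (ZMod p) (LinearMap.range f) = Module.finrank (ZMod p) X :=
    LinearMap.finrank_range_of_inj hf
  have h4 := Submodule.finrank_le (LinearMap.range f ⊔ W)
  omega

theorem card_submodule {p : ℕ} [Fact p.Prime] {X : Type} [AddCommGroup X] [Module (ZMod p) X]
    [Finite X] (U : Submodule (ZMod p) X) : Nat.card U = p ^ Module.finrank (ZMod p) U := by
  rw [Module.natCard_eq_pow_finrank (K := ZMod p) (V := U), Nat.card_zmod]

/-- A dense conjunction of local constraints on pairs contains a large product. -/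
theorem biclique {p : ℕ} [Fact p.Prime] {X : Type} [AddCommGroup X] [Module (ZMod p) X] [Fintype X]
    [DecidableEq X]
    (k T s t : ℕ) (F : X × X → Prop) [DecidablePred F] (hF : Bd p k F)
    (hm : s + t ≤ p ^ (Module.finrank (ZMod p) X - T * (k * (k + 1) / 2)))
    (hfree : ¬ ∃ R S : Finset X, R.card = s ∧ S.card = t ∧ Disjoint R S ∧
      ∀ x ∈ R, ∀ y ∈ S, F (x, y)) :
    (Finset.univ.filter F).card * (p ^ k) ^ T ≤ (p ^ k - 1) ^ T * Fintype.card (X × X) := by
  classical
  by_contra hcon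
  push Not at hcon
  obtain ⟨⟨x₀, y₀⟩, W, hW, hWF⟩ := dense k T (X × X) F hF hcon
  obtain ⟨D, hD⟩ : ∃ D, D = T * (k * (k + 1) / 2) := ⟨_, rfl⟩
  rw [← hD] at hW hm
  let U := W.comap (LinearMap.inl (ZMod p) X X)
  let U' := W.comap (LinearMap.inr (ZMod p) X X)
  have hU : Module.finrank (ZMod p) X ≤ Module.finrank (ZMod p) U + D :=
    comap_finrank _ LinearMap.inl_injective W hW
  have hU' : Module.finrank (ZMod p) X ≤ Module.finrank (ZMod p) U' + D :=
    comap_finrank _ LinearMap.inr_injective W hW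
  have hp1 : 0 < p := Nat.Prime.pos Fact.out
  have hcU : s + t ≤ Nat.card U := by
    rw [card_submodule]
    exact hm.trans (Nat.pow_le_pow_right hp1 (by omega))
  have hcU' : s + t ≤ Nat.card U' := by
    rw [card_submodule]
    exact hm.trans (Nat.pow_le_pow_right hp1 (by omega))
  let A : Finset X := (Finset.univ.filter fun x => x ∈ U).image fun u => x₀ + u
  let B : Finset X := (Finset.univ.filter fun x => x ∈ U').image fun u => y₀ + u
  have hA : A.card = Nat.card U := by
    rw [Finset.card_image_of_injective _ (add_right_injective x₀), Nat.card_eq_fintype_card,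
      Fintype.card_subtype]
  have hB : B.card = Nat.card U' := by
    rw [Finset.card_image_of_injective _ (add_right_injective y₀), Nat.card_eq_fintype_card,
      Fintype.card_subtype]
  obtain ⟨R, hR, hRs⟩ := Finset.exists_subset_card_eq (show s ≤ A.card by omega)
  obtain ⟨S, hS, hSt⟩ : ∃ S ⊆ B \ R, S.card = t := by
    refine Finset.exists_subset_card_eq ?_
    have := Finset.le_card_sdiff R B
    omega
  refine hfree ⟨R, S, hRs, hSt, ?_, ?_⟩
  · rw [Finset.disjoint_right]
    intro y hy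
    exact (Finset.mem_sdiff.1 (hS hy)).2
  · intro x hx y hy
    obtain ⟨u, hu, rfl⟩ := Finset.mem_image.1 (hR hx)
    obtain ⟨v, hv, rfl⟩ := Finset.mem_image.1 (Finset.mem_sdiff.1 (hS hy)).1
    have h1 : ((u, 0) : X × X) ∈ W := (Finset.mem_filter.1 hu).2
    have h2 : ((0, v) : X × X) ∈ W := (Finset.mem_filter.1 hv).2
    have h3 := hWF _ (W.add_mem h1 h2)
    simpa using h3

end Pool.Agent.Helper12.LocBic
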