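import Mathlib

/-!
# Colourings given by conjunctions of constraints which depend on few linear forms
-/

namespace Pool.Agent.Helper12.LocCon

open Finset

section

variable (p : ℕ) [Fact p.Prime] {r : ℕ} {X : Type} [AddCommGroup X] [Module (ZMod p) X]

/-- `φ` depends on `n` linear forms. -/
def Dep (n : ℕ) (φ : (Fin r → X) → Prop) : Prop :=
  ∃ l : Fin n → ((Fin r → X) →ₗ[ZMod p] ZMod p), ∀ z z', (∀ i, l i z = l i z') → (φ z ↔ φ z')

/-- `F` is a conjunction of constraints which depend on `n` linear forms. -/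
def Bd (n : ℕ) (F : (Fin r → X) → Prop) : Prop :=
  ∃ Φ : Set ((Fin r → X) → Prop), (∀ φ ∈ Φ, Dep p n φ) ∧ ∀ z, F z ↔ ∀ φ ∈ Φ, φ z

variable {p}

/-- common kernel -/
def KL (L : List ((Fin r → X) →ₗ[ZMod p] ZMod p)) : Submodule (ZMod p) (Fin r → X) where
  carrier := {z | ∀ f ∈ L, f z = 0}
  add_mem' := by
    intro a b ha hb f hf
    rw [map_add, ha f hf, hb f hf, add_zero]
  zero_mem' := by
    intro f _
    exact map_zero f
  smul_mem' := by
    intro c a ha f hf
    rw [map_smul, ha f hf, smul_zero]

theorem exists_dual {n : ℕ} (L : List ((Fin r → X) →ₗ[ZMod p] ZMod p))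
    (l : Fin n → ((Fin r → X) →ₗ[ZMod p] ZMod p))
    (h : ¬ ∃ c : Fin n → ZMod p, c ≠ 0 ∧ ∀ z, (∀ f ∈ L, f z = 0) → ∑ i, c i * l i z = 0) :
    ∀ i, ∃ w : Fin r → X, (∀ f ∈ L, f w = 0) ∧ ∀ j, l j w = if j = i then 1 else 0 := by
  classical
  let Λ : KL L →ₗ[ZMod p] (Fin n → ZMod p) := (LinearMap.pi l).comp (KL L).subtype
  have hs : LinearMap.range Λ = ⊤ := by
    by_contra hne
    obtain ⟨f, hf0, hf⟩ := Submodule.exists_le_ker_of_lt_top _ (lt_top_iff_ne_top.2 hne)
    apply h
    refine ⟨fun i => f (fun j => if i = j then 1 else 0), ?_, ?_⟩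
    · intro hc
      apply hf0
      ext i
      have := congrFun hc i
      simp only [Pi.zero_apply] at this
      simp only [LinearMap.coe_comp, Function.comp_apply, LinearMap.coe_single, LinearMap.zero_apply]
      convert this using 2
      funext j
      simp [Pi.single_apply, eq_comm]
    · intro z hz
      have h1 : Λ ⟨z, hz⟩ ∈ LinearMap.range Λ := ⟨_, rfl⟩
      have h2 := hf h1
      rw [LinearMap.mem_ker, LinearMap.pi_apply_eq_sum_univ] at h2
      refine (Finset.sum_congr rfl ?_).trans h2
      intro i _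
      rw [smul_eq_mul, mul_comm]
      rfl
  intro i
  have h1 : (fun j => if j = i then (1 : ZMod p) else 0) ∈ LinearMap.range Λ := by
    rw [hs]; trivial
  obtain ⟨w, hw⟩ := h1
  exact ⟨w.1, w.2, fun j => congrFun hw j⟩

variable (p)

/-- The conjunction of `Φ` is rarely satisfied: many independent constraints. -/
def Good [Fintype X] (n : ℕ) (Φ : Set ((Fin r → X) → Prop)) (t : ℕ) : Prop :=
  ∃ (A : Finset (Fin r → X)) (L : List ((Fin r → X) →ₗ[ZMod p] ZMod p)),
    (∀ z, (∀ φ ∈ Φ, φ z) → z ∈ A) ∧ (∀ z z', (∀ f ∈ L, f z = f z') → (z ∈ A ↔ z' ∈ A)) ∧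
    L.length ≤ n * t ∧ A.card * (p ^ n) ^ t ≤ (p ^ n - 1) ^ t * Fintype.card X ^ r

/-- All constraints degenerate on the common kernel of few linear forms. -/
def Rel (n : ℕ) (Φ : Set ((Fin r → X) → Prop)) (t : ℕ) : Prop :=
  ∃ L : List ((Fin r → X) →ₗ[ZMod p] ZMod p), L.length ≤ n * t ∧ ∀ φ ∈ Φ, (∀ z, φ z) ∨
    ∃ l : Fin n → ((Fin r → X) →ₗ[ZMod p] ZMod p),
      (∀ z z', (∀ i, l i z = l i z') → (φ z ↔ φ z')) ∧
      ∃ c : Fin n → ZMod p, c ≠ 0 ∧ ∀ z, (∀ f ∈ L, f z = 0) → ∑ i, c i * l i z = 0

theorem good_or_rel [Fintype X] [DecidableEq X] (n : ℕ) (Φ : Set ((Fin r → X) → Prop))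
    (hΦ : ∀ φ ∈ Φ, Dep p n φ) (t : ℕ) : Good p n Φ t ∨ Rel p n Φ t := by
  classical
  induction t with
  | zero =>
    left
    refine ⟨Finset.univ, [], fun _ _ => Finset.mem_univ _, fun _ _ _ => by simp, by simp, ?_⟩
    simp
  | succ t ih =>
    rcases ih with ⟨A, L, h1, h2, h3, h4⟩ | ⟨L, h1, h2⟩
    · by_cases hR : ∀ φ ∈ Φ, (∀ z, φ z) ∨
        ∃ l : Fin n → ((Fin r → X) →ₗ[ZMod p] ZMod p),
          (∀ z z', (∀ i, l i z = l i z') → (φ z ↔ φ z')) ∧
          ∃ c : Fin n → ZMod p, c ≠ 0 ∧ ∀ z, (∀ f ∈ L, f z = 0) → ∑ i, c i * l i z = 0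
      · right
        exact ⟨L, h3.trans (Nat.mul_le_mul_left _ (Nat.le_succ t)), hR⟩
      · left
        push Not at hR
        obtain ⟨φ, hφ, ⟨z₀, hz₀⟩, hR⟩ := hR
        obtain ⟨l, hl⟩ := hΦ φ hφ
        have hd := exists_dual L l (by
          rintro ⟨c, hc, hcz⟩
          obtain ⟨z, hz, hz'⟩ := hR l hl c hc
          exact hz' (hcz z hz))
        choose w hw1 hw2 using hd
        -- the change of `z` which violates the constraint
        let mv : (Fin r → X) → (Fin r → X) := fun z => z + ∑ i, (l i z₀ - l i z) • w i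
        have hmv1 : ∀ z, ∀ f ∈ L, f (mv z) = f z := by
          intro z f hf
          show f (z + ∑ i, (l i z₀ - l i z) • w i) = f z
          rw [map_add, map_sum]
          have : ∑ i, f ((l i z₀ - l i z) • w i) = 0 := by
            apply Finset.sum_eq_zero
            intro i _
            rw [map_smul, hw1 i f hf, smul_zero]
          rw [this, add_zero]
        have hmv2 : ∀ z i, l i (mv z) = l i z₀ := by
          intro z i
          show l i (z + ∑ i, (l i z₀ - l i z) • w i) = l i z₀
          rw [map_add, map_sum]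
          have : ∑ j, l i ((l j z₀ - l j z) • w j) = l i z₀ - l i z := by
            rw [Finset.sum_eq_single i]
            · rw [map_smul, hw2 i i, if_pos rfl, smul_eq_mul, mul_one]
            · intro j _ hj
              rw [map_smul, hw2 j i, if_neg (Ne.symm hj), smul_zero]
            · intro h; exact absurd (Finset.mem_univ _) h
          rw [this]
          ring
        refine ⟨A.filter φ, L ++ List.ofFn l, ?_, ?_, ?_, ?_⟩
        · intro z hz
          exact Finset.mem_filter.2 ⟨h1 z hz, hz φ hφ⟩
        · intro z z' hzz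
          rw [Finset.mem_filter, Finset.mem_filter]
          have e1 := h2 z z' fun f hf => hzz f (List.mem_append_left _ hf)
          have e2 := hl z z' fun i => hzz (l i) (List.mem_append_right _ (List.mem_ofFn.2 ⟨i, rfl⟩))
          rw [e1, e2]
        · rw [List.length_append, List.length_ofFn, Nat.mul_succ]
          exact Nat.add_le_add_right h3 n
        · have hcount : A.card ≤ (A.filter fun z => ¬ φ z).card * p ^ n := by
            have e1 : (p : ℕ) ^ n = (Finset.univ : Finset (Fin n → ZMod p)).card := by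
              rw [Finset.card_univ, Fintype.card_fun, ZMod.card, Fintype.card_fin]
            rw [e1, ← Finset.card_product]
            apply Finset.card_le_card_of_injOn (fun z => (mv z, fun i => l i z))
            · intro z hz
              refine Finset.mem_coe.2 (Finset.mem_product.2 ⟨?_, Finset.mem_univ _⟩)
              refine Finset.mem_filter.2 ⟨?_, ?_⟩
              · exact (h2 (mv z) z fun f hf => hmv1 z f hf).2 hz
              · intro hc
                exact hz₀ ((hl (mv z) z₀ fun i => hmv2 z i).1 hc)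
            · intro z _ z' _ hzz
              have e2 : mv z = mv z' := congrArg Prod.fst hzz
              have e3 : (fun i => l i z) = fun i => l i z' := congrArg Prod.snd hzz
              have e4 : ∑ i, (l i z₀ - l i z) • w i = ∑ i, (l i z₀ - l i z') • w i := by
                apply Finset.sum_congr rfl
                intro i _
                rw [show l i z = l i z' from congrFun e3 i]
              have e5 : z + ∑ i, (l i z₀ - l i z) • w i = z' + ∑ i, (l i z₀ - l i z') • w i := e2
              rw [e4] at e5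
              exact add_right_cancel e5
          have hsum : (A.filter φ).card + (A.filter fun z => ¬ φ z).card = A.card :=
            Finset.card_filter_add_card_filter_not _
          have hpos : 1 ≤ p ^ n := Nat.one_le_pow _ _ (Nat.Prime.pos Fact.out)
          obtain ⟨P, hP⟩ : ∃ P, p ^ n = P + 1 := ⟨p ^ n - 1, by omega⟩
          have h5 : (A.filter φ).card * p ^ n ≤ A.card * (p ^ n - 1) := by
            rw [hP] at hcount ⊢
            rw [Nat.add_sub_cancel]
            nlinarith
          calc (A.filter φ).card * (p ^ n) ^ (t + 1) = ((A.filter φ).card * p ^ n) * (p ^ n) ^ t := by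
                ring
            _ ≤ (A.card * (p ^ n - 1)) * (p ^ n) ^ t := Nat.mul_le_mul_right _ h5
            _ = (A.card * (p ^ n) ^ t) * (p ^ n - 1) := by ring
            _ ≤ ((p ^ n - 1) ^ t * Fintype.card X ^ r) * (p ^ n - 1) := Nat.mul_le_mul_right _ h4
            _ = (p ^ n - 1) ^ (t + 1) * Fintype.card X ^ r := by ring
    · right
      exact ⟨L, h1.trans (Nat.mul_le_mul_left _ (Nat.le_succ t)), h2⟩

variable {p}

/-! ### Restriction to a subspace -/

/-- The vertices all of whose components are killed by the linear forms of `L`. -/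
def US (L : List ((Fin r → X) →ₗ[ZMod p] ZMod p)) : Submodule (ZMod p) X where
  carrier := {x | ∀ f ∈ L, ∀ j : Fin r, f (Pi.single j x) = 0}
  add_mem' := by
    intro a b ha hb f hf j
    rw [Pi.single_add, map_add, ha f hf j, hb f hf j, add_zero]
  zero_mem' := by
    intro f _ j
    rw [Pi.single_zero, map_zero]
  smul_mem' := by
    intro c a ha f hf j
    rw [Pi.single_smul, map_smul, ha f hf j, smul_zero]

theorem US_finrank [Fintype X] (L : List ((Fin r → X) →ₗ[ZMod p] ZMod p)) :
    Module.finrank (ZMod p) X ≤ Module.finrank (ZMod p) (US L) + r * L.length := by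
  classical
  let Ψ : X →ₗ[ZMod p] (Fin r × Fin L.length → ZMod p) :=
    LinearMap.pi fun q => (L.get q.2).comp (LinearMap.single (ZMod p) (fun _ => X) q.1)
  have h1 : LinearMap.ker Ψ = US L := by
    ext x
    rw [LinearMap.mem_ker]
    constructor
    · intro h f hf j
      obtain ⟨i, rfl⟩ := List.mem_iff_get.1 hf
      exact congrFun h (j, i)
    · intro h
      funext q
      exact h _ (List.get_mem _ _) q.1
  have h2 := LinearMap.finrank_range_add_finrank_ker Ψ
  have h3 : Module.finrank (ZMod p) (LinearMap.range Ψ) ≤ r * L.length := by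
    refine (Submodule.finrank_le _).trans (le_of_eq ?_)
    rw [Module.finrank_fintype_fun_eq_card, Fintype.card_prod, Fintype.card_fin, Fintype.card_fin]
  rw [h1] at h2
  omega

def incl (V : Submodule (ZMod p) X) : (Fin r → V) →ₗ[ZMod p] (Fin r → X) :=
  V.subtype.compLeft (Fin r)

theorem incl_US (L : List ((Fin r → X) →ₗ[ZMod p] ZMod p)) (z : Fin r → US L) :
    ∀ f ∈ L, f (incl (US L) z) = 0 := by
  intro f hf
  have h1 : incl (US L) z = ∑ j, Pi.single j ((z j : US L) : X) := by
    rw [Finset.univ_sum_single]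
    rfl
  rw [h1, map_sum]
  exact Finset.sum_eq_zero fun j _ => (z j).2 f hf j

theorem Bd.restrict {n : ℕ} {F : (Fin r → X) → Prop} (hF : Bd p n F)
    (V : Submodule (ZMod p) X) : Bd p n (fun z : Fin r → V => F (incl V z)) := by
  obtain ⟨Φ, hΦ, hF⟩ := hF
  refine ⟨{ψ | ∃ φ ∈ Φ, ψ = fun z : Fin r → V => φ (incl V z)}, ?_, ?_⟩
  · rintro _ ⟨φ, hφ, rfl⟩
    obtain ⟨l, hl⟩ := hΦ φ hφ
    exact ⟨fun i => (l i).comp (incl V), fun z z' h => hl _ _ h⟩
  · intro z
    show F (incl V z) ↔ _
    rw [hF]
    constructor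
    · rintro h _ ⟨φ, hφ, rfl⟩
      exact h φ hφ
    · intro h φ hφ
      exact h _ ⟨φ, hφ, rfl⟩

theorem reduce {n : ℕ} {Φ : Set ((Fin r → X) → Prop)}
    (L : List ((Fin r → X) →ₗ[ZMod p] ZMod p))
    (hL : ∀ φ ∈ Φ, (∀ z, φ z) ∨
      ∃ l : Fin (n + 1) → ((Fin r → X) →ₗ[ZMod p] ZMod p),
        (∀ z z', (∀ i, l i z = l i z') → (φ z ↔ φ z')) ∧
        ∃ c : Fin (n + 1) → ZMod p, c ≠ 0 ∧ ∀ z, (∀ f ∈ L, f z = 0) → ∑ i, c i * l i z = 0)
    {F : (Fin r → X) → Prop} (hF : ∀ z, F z ↔ ∀ φ ∈ Φ, φ z) :
    Bd p n (fun z : Fin r → US L => F (incl (US L) z)) := by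
  refine ⟨{ψ | ∃ φ ∈ Φ, ψ = fun z : Fin r → US L => φ (incl (US L) z)}, ?_, ?_⟩
  · rintro _ ⟨φ, hφ, rfl⟩
    rcases hL φ hφ with h | ⟨l, hl, c, hc, hcz⟩
    · exact ⟨fun _ => 0, fun z z' _ => ⟨fun _ => h _, fun _ => h _⟩⟩
    · obtain ⟨i₀, hi₀⟩ : ∃ i, c i ≠ 0 := by
        by_contra hcon
        push Not at hcon
        exact hc (funext hcon)
      refine ⟨fun i => (l (i₀.succAbove i)).comp (incl (US L)), fun z z' h => hl _ _ ?_⟩
      have h1 := hcz _ (incl_US L z)
      have h2 := hcz _ (incl_US L z')
      rw [Fin.sum_univ_succAbove _ i₀] at h1 h2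
      have h3 : ∑ i, c (i₀.succAbove i) * l (i₀.succAbove i) (incl (US L) z) =
          ∑ i, c (i₀.succAbove i) * l (i₀.succAbove i) (incl (US L) z') := by
        apply Finset.sum_congr rfl
        intro i _
        rw [show l (i₀.succAbove i) (incl (US L) z) = l (i₀.succAbove i) (incl (US L) z') from h i]
      have h4 : c i₀ * l i₀ (incl (US L) z) = c i₀ * l i₀ (incl (US L) z') := by
        rw [h3] at h1
        exact add_right_cancel (h1.trans h2.symm)
      intro i
      rcases Fin.eq_self_or_eq_succAbove i₀ i with rfl | ⟨j, rfl⟩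
      · exact mul_left_cancel₀ hi₀ h4
      · exact h j
  · intro z
    show F (incl (US L) z) ↔ _
    rw [hF]
    constructor
    · rintro h _ ⟨φ, hφ, rfl⟩
      exact h φ hφ
    · intro h φ hφ
      exact h _ ⟨φ, hφ, rfl⟩

end

/-! ### Selection of vertices -/

theorem count_comp {X : Type} [AddCommGroup X] [Fintype X] [DecidableEq X] {r L : ℕ}
    (g : Fin r → Fin L) (hg : Function.Injective g) (B : Finset (Fin r → X)) :
    (Finset.univ.filter fun f : Fin L → X => f ∘ g ∈ B).card * Fintype.card X ^ r =
      B.card * Fintype.card X ^ L := by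
  classical
  let Θ : (Fin L → X) →+ (Fin r → X) :=
    { toFun := fun f => f ∘ g, map_zero' := rfl, map_add' := fun _ _ => rfl }
  have hsurj : ∀ b : Fin r → X, b ∈ Set.range Θ := by
    intro b
    refine ⟨Function.extend g b 0, ?_⟩
    funext i
    exact hg.extend_apply b 0 i
  set κ := (Finset.univ.filter fun f : Fin L → X => Θ f = 0).card with hκ
  have hfib : ∀ b : Fin r → X, (Finset.univ.filter fun f : Fin L → X => Θ f = b).card = κ :=
    fun b => AddMonoidHom.card_fiber_eq_of_mem_range Θ (hsurj b) (hsurj 0)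
  have hB : ∀ B : Finset (Fin r → X),
      (Finset.univ.filter fun f : Fin L → X => f ∘ g ∈ B).card = B.card * κ := by
    intro B
    rw [Finset.card_eq_sum_card_fiberwise (f := fun f : Fin L → X => f ∘ g) (t := B)]
    · rw [← smul_eq_mul, ← Finset.sum_const]
      apply Finset.sum_congr rfl
      intro b hb
      rw [← hfib b]
      congr 1
      ext f
      simp only [Finset.mem_filter, Finset.mem_univ, true_and]
      constructor
      · rintro ⟨_, h⟩; exact h
      · intro h
        have h' : f ∘ g = b := h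
        exact ⟨by rw [h']; exact hb, h⟩
    · intro f hf
      exact (Finset.mem_filter.1 hf).2
  have hall := hB Finset.univ
  have e1 : (Finset.univ.filter fun f : Fin L → X => f ∘ g ∈ (Finset.univ : Finset (Fin r → X))).card
      = Fintype.card X ^ L := by
    simp
  rw [e1, Finset.card_univ, Fintype.card_fun, Fintype.card_fin] at hall
  rw [hB B, hall]
  ring

theorem select {X : Type} [AddCommGroup X] [Fintype X] [DecidableEq X] {r L s : ℕ}
    (A : Fin s → Finset (Fin r → X)) (q : ℝ)
    (hA : ∀ i, ((A i).card : ℝ) ≤ q * (Fintype.card X : ℝ) ^ r)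
    (h : s * (L : ℝ) ^ r * q + (L : ℝ) ^ 2 / Fintype.card X < 1) :
    ∃ f : Fin L → X, Function.Injective f ∧ ∀ g : Fin r → Fin L, Function.Injective g →
      ∀ i, f ∘ g ∉ A i := by
  classical
  by_contra hcon
  push Not at hcon
  obtain ⟨N, hN⟩ : ∃ N : ℝ, N = (Fintype.card X : ℝ) := ⟨_, rfl⟩
  rw [← hN] at h
  simp only [← hN] at hA
  have hNpos : 0 < N := by
    have : 0 < Fintype.card X := Fintype.card_pos_iff.2 ⟨0⟩
    rw [hN]; exact_mod_cast this
  have hcov : (Finset.univ : Finset (Fin L → X)) ⊆
      ((Finset.univ : Finset (Fin s × (Fin r → Fin L))).biUnion fun ig =>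
        if Function.Injective ig.2 then Finset.univ.filter fun f : Fin L → X => f ∘ ig.2 ∈ A ig.1
        else ∅) ∪
      ((Finset.univ : Finset (Fin L × Fin L)).biUnion fun ab =>
        if ab.1 ≠ ab.2 then Finset.univ.filter fun f : Fin L → X => f ab.1 = f ab.2 else ∅) := by
    intro f _
    by_cases hf : Function.Injective f
    · obtain ⟨g, hg, i, hi⟩ := hcon f hf
      apply Finset.mem_union_left
      refine Finset.mem_biUnion.2 ⟨(i, g), Finset.mem_univ _, ?_⟩
      rw [if_pos hg]
      exact Finset.mem_filter.2 ⟨Finset.mem_univ _, hi⟩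
    · apply Finset.mem_union_right
      have : ∃ a b, f a = f b ∧ a ≠ b := by
        by_contra hc
        push Not at hc
        exact hf fun a b hab => hc a b hab
      obtain ⟨a, b, hab, hne⟩ := this
      refine Finset.mem_biUnion.2 ⟨(a, b), Finset.mem_univ _, ?_⟩
      rw [if_pos hne]
      exact Finset.mem_filter.2 ⟨Finset.mem_univ _, hab⟩
  have hcard := (Finset.card_le_card hcov).trans (Finset.card_union_le _ _)
  rw [Finset.card_univ, Fintype.card_fun, Fintype.card_fin] at hcard
  have hcardR : N ^ L ≤ (∑ ig : Fin s × (Fin r → Fin L), q * N ^ L) +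
      ∑ ab : Fin L × Fin L, N ^ L / N := by
    have e1 : ((((Finset.univ : Finset (Fin s × (Fin r → Fin L))).biUnion fun ig =>
        if Function.Injective ig.2 then Finset.univ.filter fun f : Fin L → X => f ∘ ig.2 ∈ A ig.1
        else ∅).card : ℕ) : ℝ) ≤ ∑ ig : Fin s × (Fin r → Fin L), q * N ^ L := by
      refine (Nat.cast_le.2 Finset.card_biUnion_le).trans ?_
      rw [Nat.cast_sum]
      apply Finset.sum_le_sum
      rintro ⟨i, g⟩ _
      have hq : 0 ≤ q * N ^ r := (Nat.cast_nonneg _).trans (hA i)
      have hq' : 0 ≤ q := by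
        by_contra hneg
        push Not at hneg
        have : q * N ^ r < 0 := mul_neg_of_neg_of_pos hneg (by positivity)
        linarith
      by_cases hg : Function.Injective g
      · simp only [if_pos hg]
        have h1 := count_comp g hg (A i)
        have h2 : ((Finset.univ.filter fun f : Fin L → X => f ∘ g ∈ A i).card : ℝ) * N ^ r =
            (A i).card * N ^ L := by rw [hN]; exact_mod_cast h1
        have h3 : ((A i).card : ℝ) * N ^ L ≤ (q * N ^ r) * N ^ L :=
          mul_le_mul_of_nonneg_right (hA i) (by positivity)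
        have h4 : ((Finset.univ.filter fun f : Fin L → X => f ∘ g ∈ A i).card : ℝ) * N ^ r ≤
            (q * N ^ L) * N ^ r := by rw [h2]; linarith
        exact le_of_mul_le_mul_right h4 (by positivity)
      · simp only [if_neg hg, Finset.card_empty, Nat.cast_zero]
        positivity
    have e2 : ((((Finset.univ : Finset (Fin L × Fin L)).biUnion fun ab =>
        if ab.1 ≠ ab.2 then Finset.univ.filter fun f : Fin L → X => f ab.1 = f ab.2
        else ∅).card : ℕ) : ℝ) ≤ ∑ ab : Fin L × Fin L, N ^ L / N := by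
      refine (Nat.cast_le.2 Finset.card_biUnion_le).trans ?_
      rw [Nat.cast_sum]
      apply Finset.sum_le_sum
      rintro ⟨a, b⟩ _
      by_cases hab : a ≠ b
      · simp only [if_pos hab]
        have hg : Function.Injective (![a, b] : Fin 2 → Fin L) := by
          intro i j hij
          fin_cases i <;> fin_cases j
          · rfl
          · exact absurd hij hab
          · exact absurd hij.symm hab
          · rfl
        have h1 := count_comp (X := X) ![a, b] hg (Finset.univ.filter fun v : Fin 2 → X => v 0 = v 1)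
        have h2 : (Finset.univ.filter fun f : Fin L → X =>
            f ∘ ![a, b] ∈ (Finset.univ.filter fun v : Fin 2 → X => v 0 = v 1)) =
            Finset.univ.filter fun f : Fin L → X => f a = f b := by
          ext f
          simp
        have h3 : (Finset.univ.filter fun v : Fin 2 → X => v 0 = v 1).card = Fintype.card X := by
          rw [← Finset.card_univ]
          symm
          apply Finset.card_bij (fun x _ => ![x, x])
          · intro x _
            simp
          · intro x _ y _ hxy
            exact congrFun hxy 0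
          · intro v hv
            refine ⟨v 0, Finset.mem_univ _, ?_⟩
            have := (Finset.mem_filter.1 hv).2
            funext i
            fin_cases i
            · rfl
            · exact this
        rw [h2, h3] at h1
        have h4 : ((Finset.univ.filter fun f : Fin L → X => f a = f b).card : ℝ) * N ^ 2 =
            N * N ^ L := by rw [hN]; exact_mod_cast h1
        rw [le_div_iff₀ hNpos]
        have h5 : ((Finset.univ.filter fun f : Fin L → X => f a = f b).card : ℝ) * N * N =
            N ^ L * N := by rw [mul_assoc, ← sq, h4]; ring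
        exact (mul_right_cancel₀ hNpos.ne' h5).le
      · simp only [if_neg hab, Finset.card_empty, Nat.cast_zero]
        positivity
    have e3 : (N ^ L : ℝ) = ((Fintype.card X ^ L : ℕ) : ℝ) := by rw [hN]; push_cast; rfl
    calc (N ^ L : ℝ) = ((Fintype.card X ^ L : ℕ) : ℝ) := e3
      _ ≤ _ := Nat.cast_le.2 hcard
      _ ≤ _ := by
        rw [Nat.cast_add]
        exact add_le_add e1 e2
  rw [Finset.sum_const, Finset.sum_const, Finset.card_univ, Finset.card_univ, Fintype.card_prod,
    Fintype.card_prod, Fintype.card_fun, Fintype.card_fin, Fintype.card_fin, Fintype.card_fin,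
    nsmul_eq_mul, nsmul_eq_mul] at hcardR
  push_cast at hcardR
  have hNL : (0 : ℝ) < N ^ L := by positivity
  have h6 : (s : ℝ) * (L : ℝ) ^ r * (q * N ^ L) + (L : ℝ) * (L : ℝ) * (N ^ L / N) =
      (s * (L : ℝ) ^ r * q + (L : ℝ) ^ 2 / N) * N ^ L := by
    field_simp
  rw [h6] at hcardR
  nlinarith

end Pool.Agent.Helper12.LocCon
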