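import Mathlib

/-!
# Colourings given by few formulas of width one without large homogeneous sets
-/

namespace Pool.Agent.Helper12.LocConLower

/-- The vertices: vectors with `m` digits in `F_p`. -/
abbrev Vert (p m : ℕ) : Type := Fin m → ZMod p

def IsConstraint (p k r m : ℕ) (φ : (Fin r → Vert p m) → Prop) : Prop :=
  ∃ l : Fin k → ((Fin r → Vert p m) →ₗ[ZMod p] ZMod p),
    ∀ z z', (∀ i, l i z = l i z') → (φ z ↔ φ z')

def IsConj (p k r m : ℕ) (F : (Fin r → Vert p m) → Prop) : Prop :=
  ∃ Φ : Set ((Fin r → Vert p m) → Prop), (∀ φ ∈ Φ, IsConstraint p k r m φ) ∧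
    ∀ z, F z ↔ ∀ φ ∈ Φ, φ z

def ComputedBy {Col : Type} {p m r s : ℕ} (ord : Vert p m → ℕ) (χ : Finset (Vert p m) → Col)
    (F : Fin s → (Fin r → Vert p m) → Prop) : Prop :=
  ∃ g : (Fin s → Prop) → Col, ∀ z : Fin r → Vert p m, StrictMono (fun j => ord (z j)) →
    χ (Finset.univ.image z) = g (fun i => F i z)

def Homogeneous {Col V : Type} (r : ℕ) (χ : Finset V → Col) (S : Finset V) : Prop :=
  ∀ A ⊆ S, ∀ B ⊆ S, A.card = r → B.card = r → χ A = χ B

theorem down_closed {s : ℕ} (P : Fin s → Prop) [DecidablePred P]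
    (hP : ∀ i j, i ≤ j → P j → P i) (i : Fin s) :
    P i ↔ (i : ℕ) < (Finset.univ.filter P).card := by
  constructor
  · intro hi
    have h1 : Finset.Iic i ⊆ Finset.univ.filter P := by
      intro j hj
      exact Finset.mem_filter.2 ⟨Finset.mem_univ _, hP j i (Finset.mem_Iic.1 hj) hi⟩
    have h2 := Finset.card_le_card h1
    rw [Fin.card_Iic] at h2
    omega
  · intro hi
    by_contra hn
    have h1 : Finset.univ.filter P ⊆ Finset.Iio i := by
      intro j hj
      rw [Finset.mem_Iio]
      by_contra hc
      exact hn (hP i j (not_lt.1 hc) (Finset.mem_filter.1 hj).2)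
    have h2 := Finset.card_le_card h1
    rw [Fin.card_Iio] at h2
    omega

theorem lower (p r s t : ℕ) [Fact p.Prime] (hr : 2 ≤ r) (ord : Vert p ((s + 1) * t) → ℕ)
    (hord : Function.Injective ord) :
    ∃ (F : Fin s → (Fin r → Vert p ((s + 1) * t)) → Prop)
      (χ : Finset (Vert p ((s + 1) * t)) → Fin (s + 1)),
      (∀ i, IsConj p 1 r ((s + 1) * t) (F i)) ∧ ComputedBy ord χ F ∧
      ∀ S : Finset (Vert p ((s + 1) * t)), Homogeneous r χ S → S.card ≤ p ^ t + (r - 2) := by
  classical
  obtain ⟨m, hm⟩ : ∃ m, m = (s + 1) * t := ⟨_, rfl⟩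
  revert ord hord
  rw [← hm]
  intro ord hord
  let a : Fin r := ⟨0, by omega⟩
  let b : Fin r := ⟨1, by omega⟩
  let F : Fin s → (Fin r → Vert p m) → Prop := fun i z =>
    ∀ j : Fin m, (j : ℕ) < (i + 1) * t → z a j = z b j
  let g : (Fin s → Prop) → Fin (s + 1) := fun P =>
    ⟨(Finset.univ.filter P).card, by
      have := Finset.card_le_univ (Finset.univ.filter P)
      rw [Fintype.card_fin] at this
      omega⟩
  let χ : Finset (Vert p m) → Fin (s + 1) := fun A =>
    if h : ∃ z : Fin r → Vert p m, StrictMono (fun j => ord (z j)) ∧ Finset.univ.image z = A then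
      g (fun i => F i h.choose) else 0
  have hχ : ∀ z : Fin r → Vert p m, StrictMono (fun j => ord (z j)) →
      χ (Finset.univ.image z) = g (fun i => F i z) := by
    intro z hz
    have h : ∃ z' : Fin r → Vert p m, StrictMono (fun j => ord (z' j)) ∧
        Finset.univ.image z' = Finset.univ.image z := ⟨z, hz, rfl⟩
    have e : χ (Finset.univ.image z) = g (fun i => F i h.choose) := dif_pos h
    have hs := h.choose_spec
    have e2 : h.choose = z := by
      have h1 : Set.range (fun j => ord (h.choose j)) = Set.range (fun j => ord (z j)) := by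
        have h2 : Set.range h.choose = Set.range z := by
          have := congrArg (fun A : Finset (Vert p m) => (A : Set (Vert p m))) hs.2
          simpa using this
        have h3 := congrArg (fun A => ord '' A) h2
        simp only [← Set.range_comp] at h3
        exact h3
      have h4 := (StrictMono.range_inj hs.1 hz).1 h1
      funext j
      exact hord (congrFun h4 j)
    rw [e, e2]
  refine ⟨F, χ, ?_, ⟨g, hχ⟩, ?_⟩
  · intro i
    refine ⟨{φ | ∃ j : Fin m, (j : ℕ) < (i + 1) * t ∧ φ = fun z => z a j = z b j}, ?_, ?_⟩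
    · rintro _ ⟨j, _, rfl⟩
      refine ⟨fun _ => (LinearMap.proj (R := ZMod p) (φ := fun _ : Fin m => ZMod p) j).comp
          (LinearMap.proj (R := ZMod p) (φ := fun _ : Fin r => Vert p m) a) -
        (LinearMap.proj (R := ZMod p) (φ := fun _ : Fin m => ZMod p) j).comp
          (LinearMap.proj (R := ZMod p) (φ := fun _ : Fin r => Vert p m) b), ?_⟩
      intro z z' h
      have h0 : z a j - z b j = z' a j - z' b j := h 0
      show z a j = z b j ↔ z' a j = z' b j
      rw [← sub_eq_zero, h0, sub_eq_zero]
    · intro z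
      constructor
      · rintro h _ ⟨j, hj, rfl⟩
        exact h j hj
      · intro h j hj
        exact h _ ⟨j, hj, rfl⟩
  · intro S hS
    by_contra hcon
    push Not at hcon
    have hc : (S.image ord).card = S.card := Finset.card_image_of_injective _ hord
    have hm' : ∀ j : Fin S.card, ∃ x ∈ S, ord x = (S.image ord).orderEmbOfFin hc j := fun j =>
      Finset.mem_image.1 (Finset.orderEmbOfFin_mem _ hc j)
    choose e he1 he2 using hm'
    have he : StrictMono (fun j => ord (e j)) := by
      intro x y hxy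
      show ord (e x) < ord (e y)
      rw [he2, he2]
      exact ((S.image ord).orderEmbOfFin hc).strictMono hxy
    have hei : Function.Injective e := fun x y hxy => he.injective (congrArg ord hxy)
    have hpt : 1 ≤ p ^ t := Nat.one_le_pow _ _ (Nat.Prime.pos Fact.out)
    obtain ⟨Q, hQ⟩ : ∃ Q, Q = p ^ t := ⟨_, rfl⟩
    rw [← hQ] at hcon hpt
    -- the tuples
    let idx : ℕ → ℕ → ℕ → ℕ := fun i j k => if k = 0 then i else if k = 1 then j else Q + k - 1
    have hidx : ∀ i j, i < j → j ≤ Q → ∀ k : Fin r, idx i j k < S.card := by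
      intro i j hij hj k
      have := k.2
      simp only [idx]
      split_ifs <;> omega
    let w : ∀ i j, i < j → j ≤ Q → (Fin r → Vert p m) := fun i j hij hj k =>
      e ⟨idx i j k, hidx i j hij hj k⟩
    have hw : ∀ i j hij hj, StrictMono (fun k => ord (w i j hij hj k)) := by
      intro i j hij hj x y hxy
      apply he
      show idx i j x < idx i j y
      have hxy' : (x : ℕ) < y := hxy
      simp only [idx]
      split_ifs <;> omega
    have hwS : ∀ i j hij hj, Finset.univ.image (w i j hij hj) ⊆ S := by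
      intro i j hij hj x hx
      obtain ⟨k, _, rfl⟩ := Finset.mem_image.1 hx
      exact he1 _
    have hwr : ∀ i j hij hj, (Finset.univ.image (w i j hij hj)).card = r := by
      intro i j hij hj
      have hi : Function.Injective (w i j hij hj) :=
        fun x y hxy => (hw i j hij hj).injective (congrArg ord hxy)
      rw [Finset.card_image_of_injective _ hi, Finset.card_univ, Fintype.card_fin]
    have h01 : (0 : ℕ) < 1 := Nat.zero_lt_one
    obtain ⟨c, hcdef⟩ : ∃ c : Fin (s + 1), c = g (fun i => F i (w 0 1 h01 hpt)) := ⟨_, rfl⟩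
    have hall : ∀ i j hij hj, g (fun l => F l (w i j hij hj)) = c := by
      intro i j hij hj
      rw [hcdef, ← hχ _ (hw i j hij hj), ← hχ _ (hw 0 1 h01 hpt)]
      exact hS _ (hwS i j hij hj) _ (hwS 0 1 h01 hpt) (hwr i j hij hj) (hwr 0 1 h01 hpt)
    have hg' : ∀ P : Fin s → Prop, (∀ i j, i ≤ j → P j → P i) → ∀ i, (P i ↔ (i : ℕ) < (g P : ℕ)) := by
      intro P hP i
      simp only [g]
      convert down_closed P hP i
    have hcount : ∀ i j hij hj, ∀ l : Fin s, F l (w i j hij hj) ↔ (l : ℕ) < (c : ℕ) := by
      intro i j hij hj l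
      rw [← hall i j hij hj]
      apply hg' (fun l => F l (w i j hij hj))
      intro x y hxy hy d hd
      apply hy d
      refine lt_of_lt_of_le hd (Nat.mul_le_mul_right _ ?_)
      exact Nat.add_le_add_right hxy 1
    have hcs : (c : ℕ) ≤ s := by have := c.2; omega
    -- pigeonhole
    have hlt : ∀ j : Fin t, (c : ℕ) * t + j < m := by
      intro j
      have := j.2
      rw [hm]
      have h1 : (c : ℕ) * t ≤ s * t := Nat.mul_le_mul_right _ hcs
      rw [Nat.succ_mul]
      omega
    have hQS : ∀ i : Fin (Q + 1), (i : ℕ) < S.card := by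
      intro i
      have := i.2
      omega
    let h : Fin (Q + 1) → (Fin t → ZMod p) := fun i j => e ⟨i, hQS i⟩ ⟨(c : ℕ) * t + j, hlt j⟩
    have hcardlt : Fintype.card (Fin t → ZMod p) < Fintype.card (Fin (Q + 1)) := by
      rw [Fintype.card_fun, ZMod.card, Fintype.card_fin, Fintype.card_fin, ← hQ]
      omega
    obtain ⟨i₀, j₀, hne, hij₀⟩ := Fintype.exists_ne_map_eq_of_card_lt h hcardlt
    have main : ∀ i j : Fin (Q + 1), i < j → h i = h j → False := by
      intro i j hij heq
      have hjQ : (j : ℕ) ≤ Q := by have := j.2; omega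
      have hij' : (i : ℕ) < (j : ℕ) := hij
      have hwa : w i j hij' hjQ a = e ⟨i, hQS i⟩ := by
        show e _ = e _
        congr 1
      have hwb : w i j hij' hjQ b = e ⟨j, hQS j⟩ := by
        show e _ = e _
        congr 1
      -- agreement on the first `c t` digits
      have hag1 : ∀ d : Fin m, (d : ℕ) < c * t → e ⟨i, hQS i⟩ d = e ⟨j, hQS j⟩ d := by
        intro d hd
        have hc1 : 1 ≤ (c : ℕ) := by
          by_contra hc0
          have : (c : ℕ) = 0 := by omega
          rw [this] at hd
          omega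
        have hcs' : (c : ℕ) - 1 < s := by omega
        have hF := (hcount i j hij' hjQ ⟨(c : ℕ) - 1, hcs'⟩).2 (by
          show (c : ℕ) - 1 < c
          omega)
        have := hF d (by
          show (d : ℕ) < ((c : ℕ) - 1 + 1) * t
          rw [Nat.sub_add_cancel hc1]
          exact hd)
        rw [hwa, hwb] at this
        exact this
      have hag2 : ∀ d : Fin m, (d : ℕ) < (c + 1) * t → e ⟨i, hQS i⟩ d = e ⟨j, hQS j⟩ d := by
        intro d hd
        rcases lt_or_ge (d : ℕ) (c * t) with h1 | h1
        · exact hag1 d h1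
        · have hd' : (d : ℕ) - c * t < t := by
            rw [Nat.succ_mul] at hd
            omega
          have := congrFun heq ⟨(d : ℕ) - c * t, hd'⟩
          have hdd : (⟨(c : ℕ) * t + ((d : ℕ) - c * t), hlt ⟨_, hd'⟩⟩ : Fin m) = d := by
            apply Fin.ext
            show (c : ℕ) * t + ((d : ℕ) - c * t) = d
            omega
          have h2 : e ⟨i, hQS i⟩ ⟨(c : ℕ) * t + ((d : ℕ) - c * t), hlt ⟨_, hd'⟩⟩ =
            e ⟨j, hQS j⟩ ⟨(c : ℕ) * t + ((d : ℕ) - c * t), hlt ⟨_, hd'⟩⟩ := this
          rw [hdd] at h2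
          exact h2
      rcases Nat.lt_or_ge (c : ℕ) s with hlt' | hge
      · have hF : F ⟨c, hlt'⟩ (w i j hij' hjQ) := by
          intro d hd
          rw [hwa, hwb]
          exact hag2 d hd
        have := (hcount i j hij' hjQ ⟨c, hlt'⟩).1 hF
        exact absurd this (lt_irrefl _)
      · have hcs2 : (c : ℕ) = s := le_antisymm hcs hge
        have hee : e ⟨i, hQS i⟩ = e ⟨j, hQS j⟩ := by
          funext d
          apply hag2
          rw [hcs2, ← hm]
          exact d.2
        have := hei hee
        have h3 : (i : ℕ) = j := Fin.mk.inj_iff.1 this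
        omega
    rcases lt_or_gt_of_ne hne with h1 | h1
    · exact main i₀ j₀ h1 hij₀
    · exact main j₀ i₀ h1 hij₀.symm

end Pool.Agent.Helper12.LocConLower
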