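import Pool.Agent.Helper12.LocCon

/-!
# Main induction for conjunctions of local linear constraints
-/

namespace Pool.Agent.Helper12.LocCon

open Finset

theorem q_le {P D T a : ℕ} (hP : 1 ≤ P) (hPD : P ≤ D) (haD : a * D ≤ T) :
    ((1 : ℝ) - 1 / P) ^ T ≤ (1 / 2) ^ a := by
  have hP' : (1 : ℝ) ≤ P := by exact_mod_cast hP
  have h1 : (1 : ℝ) - 1 / P ≤ Real.exp (-(1 / P)) := by
    have := Real.add_one_le_exp (-(1 / P : ℝ))
    linarith
  have h0 : (0 : ℝ) ≤ 1 - 1 / P := by
    rw [sub_nonneg, div_le_one (by linarith)]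
    exact hP'
  calc ((1 : ℝ) - 1 / P) ^ T ≤ (Real.exp (-(1 / P))) ^ T := pow_le_pow_left₀ h0 h1 T
    _ = Real.exp (-(T / P)) := by
      rw [← Real.exp_nat_mul]
      congr 1
      ring
    _ ≤ Real.exp (-a) := by
      apply Real.exp_le_exp.2
      apply neg_le_neg
      rw [le_div_iff₀ (by linarith)]
      calc (a : ℝ) * P ≤ a * D := by
            apply mul_le_mul_of_nonneg_left _ (Nat.cast_nonneg a)
            exact_mod_cast hPD
        _ ≤ T := by exact_mod_cast haD
    _ = (Real.exp (-1)) ^ a := by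
      rw [← Real.exp_nat_mul]
      congr 1
      ring
    _ ≤ (1 / 2) ^ a := by
      apply pow_le_pow_left₀ (Real.exp_pos _).le
      rw [Real.exp_neg, inv_eq_one_div]
      apply one_div_le_one_div_of_le (by norm_num)
      have := Real.add_one_le_exp (1 : ℝ)
      linarith

theorem good_real {p : ℕ} [Fact p.Prime] {N r n T c : ℕ}
    (h : c * (p ^ n) ^ T ≤ (p ^ n - 1) ^ T * N ^ r) :
    (c : ℝ) ≤ (1 - 1 / ((p ^ n : ℕ) : ℝ)) ^ T * (N : ℝ) ^ r := by
  have hpos : 1 ≤ p ^ n := Nat.one_le_pow _ _ (Nat.Prime.pos Fact.out)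
  obtain ⟨P, hP⟩ : ∃ P, p ^ n = P + 1 := ⟨p ^ n - 1, by omega⟩
  rw [hP] at h ⊢
  rw [Nat.add_sub_cancel] at h
  have h' : (c : ℝ) * ((P : ℝ) + 1) ^ T ≤ (P : ℝ) ^ T * (N : ℝ) ^ r := by exact_mod_cast h
  have hP0 : (0 : ℝ) < (P : ℝ) + 1 := by positivity
  have e : (1 : ℝ) - 1 / ((P + 1 : ℕ) : ℝ) = P / (P + 1) := by
    push_cast
    field_simp
    ring
  rw [e, div_pow, div_mul_eq_mul_div, le_div_iff₀ (by positivity)]
  exact h'

/-- The exponent. -/
def C0 (p r k s : ℕ) : ℕ := 2 * p * r * k * p ^ k * (r + s + 1)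

theorem caseA (p : ℕ) [Fact p.Prime] (r k s : ℕ) (hr : 1 ≤ r) (hk : 1 ≤ k)
    (X : Type) [AddCommGroup X] [Module (ZMod p) X] [Fintype X]
    (κ : Fin s → ℕ) (hκ : ∀ i, κ i ≤ k) (F : Fin s → (Fin r → X) → Prop)
    (Φ : Fin s → Set ((Fin r → X) → Prop)) (hΦ : ∀ i, ∀ φ ∈ Φ i, Dep p (κ i) φ)
    (hF : ∀ i z, F i z ↔ ∀ φ ∈ Φ i, φ z)
    (hgood : ∀ i, κ i ≠ 0 → Good p (κ i) (Φ i) (Module.finrank (ZMod p) X / (2 * r * k))) :
    ∃ S : Finset X, 1 ≤ S.card ∧ Fintype.card X ≤ (2 * S.card) ^ C0 p r k s ∧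
      ∀ i, ∀ z z' : Fin r → X, (∀ j, z j ∈ S) → (∀ j, z' j ∈ S) → Function.Injective z →
        Function.Injective z' → (F i z ↔ F i z') := by
  classical
  have hp2 : 2 ≤ p := Nat.Prime.two_le Fact.out
  obtain ⟨m, hm⟩ : ∃ m, m = Module.finrank (ZMod p) X := ⟨_, rfl⟩
  rw [← hm] at hgood
  obtain ⟨T, hT⟩ : ∃ T, T = m / (2 * r * k) := ⟨_, rfl⟩
  rw [← hT] at hgood
  obtain ⟨D, hD⟩ : ∃ D, D = p ^ k := ⟨_, rfl⟩
  obtain ⟨a, ha⟩ : ∃ a, a = T / D := ⟨_, rfl⟩
  obtain ⟨b, hb⟩ : ∃ b, b = (a - (s + 1)) / r := ⟨_, rfl⟩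
  have hX : Fintype.card X = p ^ m := by
    rw [Module.card_eq_pow_finrank (K := ZMod p) (V := X), ZMod.card, hm]
  have hD2 : 2 ≤ D := by
    rw [hD]
    calc 2 ≤ p := hp2
      _ = p ^ 1 := (pow_one p).symm
      _ ≤ p ^ k := Nat.pow_le_pow_right (by omega) hk
  have haD : a * D ≤ T := by rw [ha]; exact Nat.div_mul_le_self _ _
  have hTm : T ≤ m := by rw [hT]; exact Nat.div_le_self _ _
  have hbound : Fintype.card X ≤ (2 * 2 ^ b) ^ C0 p r k s := by
    have h1 : m < 2 * r * k * (T + 1) := by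
      rw [hT]
      exact Nat.lt_mul_div_succ m (by positivity)
    have h2 : T < D * (a + 1) := by
      rw [ha]
      exact Nat.lt_mul_div_succ T (by omega)
    have h3 : a - (s + 1) < r * (b + 1) := by
      rw [hb]
      exact Nat.lt_mul_div_succ _ (by omega)
    have h4 : a + 1 ≤ (r + s + 1) * (b + 1) := by
      have : a + 1 ≤ s + 1 + r * (b + 1) := by omega
      nlinarith
    have h5 : m ≤ 2 * r * k * (D * ((r + s + 1) * (b + 1))) :=
      h1.le.trans (Nat.mul_le_mul_left _ (h2.trans_le (le_refl _) |>.trans_le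
        (Nat.mul_le_mul_left _ h4)))
    have h6 : p ^ m ≤ 2 ^ (p * m) := by
      rw [pow_mul]
      exact Nat.pow_le_pow_left (Nat.lt_two_pow_self).le m
    rw [hX]
    refine h6.trans ?_
    have e : (2 * 2 ^ b) ^ C0 p r k s = 2 ^ ((b + 1) * C0 p r k s) := by
      rw [← pow_succ', ← pow_mul]
    rw [e]
    apply Nat.pow_le_pow_right (by omega)
    calc p * m ≤ p * (2 * r * k * (D * ((r + s + 1) * (b + 1)))) := Nat.mul_le_mul_left _ h5
      _ = (b + 1) * C0 p r k s := by
        rw [C0, hD]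
        ring
  -- constant formulas
  have hconst : ∀ i, κ i = 0 → ∀ z z', (F i z ↔ F i z') := by
    intro i hi z z'
    rw [hF, hF]
    refine forall₂_congr fun φ hφ => ?_
    obtain ⟨l, hl⟩ := hΦ i φ hφ
    exact hl z z' fun j => absurd j.2 (by omega)
  rcases Nat.eq_zero_or_pos b with hb0 | hbpos
  · refine ⟨{0}, by simp, ?_, ?_⟩
    · rw [hb0] at hbound
      simpa using hbound
    · intro i z z' hz hz' _ _
      have : z = z' := by
        funext j
        rw [Finset.mem_singleton.1 (hz j), Finset.mem_singleton.1 (hz' j)]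
      rw [this]
  · -- the exceptional sets
    have hA : ∀ i, ∃ A : Finset (Fin r → X), (κ i ≠ 0 → ∀ z, F i z → z ∈ A) ∧
        (A.card : ℝ) ≤ (1 / 2) ^ a * (Fintype.card X : ℝ) ^ r := by
      intro i
      by_cases hi : κ i = 0
      · exact ⟨∅, fun h => absurd hi h, by
          rw [Finset.card_empty, Nat.cast_zero]
          positivity⟩
      · obtain ⟨A, _, h1, _, _, h4⟩ := hgood i hi
        refine ⟨A, fun _ z hz => h1 z ((hF i z).1 hz), (good_real h4).trans ?_⟩
        apply mul_le_mul_of_nonneg_right _ (by positivity)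
        apply q_le (D := D)
        · exact Nat.one_le_pow _ _ (by omega)
        · rw [hD]
          exact Nat.pow_le_pow_right (by omega) (hκ i)
        · exact haD
    choose A hA1 hA2 using hA
    have hrb : r * b ≤ a - (s + 1) := by
      rw [hb]
      exact Nat.mul_div_le _ _
    have hrb1 : 1 ≤ r * b := Nat.mul_pos hr hbpos
    have ha1 : r * b + s + 1 ≤ a := by omega
    have hbr : b ≤ r * b := Nat.le_mul_of_pos_left b hr
    have h2a : 2 * a ≤ m := by nlinarith
    obtain ⟨f, hf, hfA⟩ := select (L := 2 ^ b) A ((1 / 2 : ℝ) ^ a) hA2 (by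
      have h1 : (s : ℝ) * ((2 ^ b : ℕ) : ℝ) ^ r * (1 / 2) ^ a < 1 / 2 := by
        have e1 : (s : ℝ) * ((2 ^ b : ℕ) : ℝ) ^ r * (1 / 2) ^ a =
            s * 2 ^ (r * b) / 2 ^ a := by
          push_cast
          rw [← pow_mul, mul_comm b r, one_div, inv_pow]
          rfl
        rw [e1, div_lt_iff₀ (by positivity)]
        have e2 : (s : ℝ) < 2 ^ s := by exact_mod_cast Nat.lt_two_pow_self
        have e3 : (2 : ℝ) ^ (r * b + s + 1) ≤ 2 ^ a := pow_le_pow_right₀ (by norm_num) ha1
        have e4 : (s : ℝ) * 2 ^ (r * b) < 2 ^ s * 2 ^ (r * b) :=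
          mul_lt_mul_of_pos_right e2 (by positivity)
        have e5 : (2 : ℝ) ^ (r * b + s + 1) = 2 * (2 ^ s * 2 ^ (r * b)) := by ring
        linarith
      have h2 : ((2 ^ b : ℕ) : ℝ) ^ 2 / (Fintype.card X : ℝ) ≤ 1 / 2 := by
        have hXpos : (0 : ℝ) < (Fintype.card X : ℝ) := by
          rw [hX]
          have : 0 < p ^ m := Nat.pow_pos (by omega)
          exact_mod_cast this
        rw [div_le_iff₀ hXpos]
        have e1 : (2 : ℕ) ^ (2 * b + 1) ≤ p ^ m :=
          (Nat.pow_le_pow_right (by omega) (by omega)).trans (Nat.pow_le_pow_left hp2 m)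
        have e2 : (2 : ℝ) ^ (2 * b + 1) ≤ (Fintype.card X : ℝ) := by
          rw [hX]
          exact_mod_cast e1
        have e3 : (2 : ℝ) ^ (2 * b + 1) = 2 * ((2 ^ b : ℕ) : ℝ) ^ 2 := by
          push_cast
          ring
        linarith
      linarith)
    refine ⟨Finset.univ.image f, ?_, ?_, ?_⟩
    · rw [Finset.card_image_of_injective _ hf, Finset.card_univ, Fintype.card_fin]
      exact Nat.one_le_two_pow
    · rw [Finset.card_image_of_injective _ hf, Finset.card_univ, Fintype.card_fin]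
      exact hbound
    · intro i z z' hz hz' hzi hzi'
      by_cases hi : κ i = 0
      · exact hconst i hi z z'
      · have key : ∀ z : Fin r → X, (∀ j, z j ∈ Finset.univ.image f) → Function.Injective z →
            ¬ F i z := by
          intro z hz hzi hFz
          have : ∀ j, ∃ x, f x = z j := fun j => by
            obtain ⟨x, _, hx⟩ := Finset.mem_image.1 (hz j)
            exact ⟨x, hx⟩
          choose g hg using this
          have hzg : z = f ∘ g := funext fun j => (hg j).symm
          have hgi : Function.Injective g := by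
            intro x y hxy
            apply hzi
            rw [← hg x, ← hg y, hxy]
          apply hfA g hgi i
          rw [← hzg]
          exact hA1 i hi z hFz
        exact ⟨fun h => absurd h (key z hz hzi), fun h => absurd h (key z' hz' hzi')⟩

theorem step {p : ℕ} [Fact p.Prime] {r : ℕ} {X : Type} [AddCommGroup X] [Module (ZMod p) X]
    {n : ℕ} (hn : n ≠ 0) {Φ : Set ((Fin r → X) → Prop)}
    (L : List ((Fin r → X) →ₗ[ZMod p] ZMod p))
    (hL : ∀ φ ∈ Φ, (∀ z, φ z) ∨
      ∃ l : Fin n → ((Fin r → X) →ₗ[ZMod p] ZMod p),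
        (∀ z z', (∀ i, l i z = l i z') → (φ z ↔ φ z')) ∧
        ∃ c : Fin n → ZMod p, c ≠ 0 ∧ ∀ z, (∀ f ∈ L, f z = 0) → ∑ i, c i * l i z = 0)
    {F : (Fin r → X) → Prop} (hF : ∀ z, F z ↔ ∀ φ ∈ Φ, φ z) :
    Bd p (n - 1) (fun z : Fin r → US L => F (incl (US L) z)) := by
  obtain ⟨n, rfl⟩ := Nat.exists_eq_succ_of_ne_zero hn
  exact reduce L hL hF

theorem main_ind (p : ℕ) [Fact p.Prime] (r k s : ℕ) (hr : 1 ≤ r) (hk : 1 ≤ k) (K : ℕ) :
    ∀ (X : Type) [AddCommGroup X] [Module (ZMod p) X] [Fintype X]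
    (κ : Fin s → ℕ) (_ : ∀ i, κ i ≤ k) (_ : ∑ i, κ i = K) (F : Fin s → (Fin r → X) → Prop)
    (_ : ∀ i, Bd p (κ i) (F i)),
    ∃ S : Finset X, 1 ≤ S.card ∧ Fintype.card X ≤ (2 * S.card) ^ (C0 p r k s * 2 ^ K) ∧
      ∀ i, ∀ z z' : Fin r → X, (∀ j, z j ∈ S) → (∀ j, z' j ∈ S) → Function.Injective z →
        Function.Injective z' → (F i z ↔ F i z') := by
  classical
  induction K with
  | zero =>
    intro X _ _ _ κ hκ hK F hF
    choose Φ hΦ hFΦ using hF
    have h0 : ∀ i, κ i = 0 := fun i => by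
      have := Finset.single_le_sum (f := κ) (fun _ _ => Nat.zero_le _) (Finset.mem_univ i)
      omega
    have := caseA p r k s hr hk X κ hκ F Φ hΦ hFΦ (fun i hi => absurd (h0 i) hi)
    simpa using this
  | succ K ih =>
    intro X _ _ _ κ hκ hK F hF
    choose Φ hΦ hFΦ using hF
    by_cases hg : ∀ i, κ i ≠ 0 → Good p (κ i) (Φ i) (Module.finrank (ZMod p) X / (2 * r * k))
    · obtain ⟨S, h1, h2, h3⟩ := caseA p r k s hr hk X κ hκ F Φ hΦ hFΦ hg
      refine ⟨S, h1, h2.trans ?_, h3⟩
      apply Nat.pow_le_pow_right (by omega)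
      exact Nat.le_mul_of_pos_right _ (by positivity)
    · push Not at hg
      obtain ⟨i, hi, hng⟩ := hg
      obtain ⟨L, hLlen, hL⟩ := (good_or_rel p (κ i) (Φ i) (hΦ i) _).resolve_left hng
      let _ : Fintype (US L) := Fintype.ofFinite _
      have hsum : ∑ j, Function.update κ i (κ i - 1) j = K := by
        have e1 := Finset.sum_update_of_mem (Finset.mem_univ i) κ (κ i - 1)
        have e2 := Finset.sum_update_of_mem (Finset.mem_univ i) κ (κ i)
        rw [Function.update_eq_self] at e2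
        omega
      obtain ⟨S, h1, h2, h3⟩ := ih (US L) (Function.update κ i (κ i - 1)) (by
          intro j
          by_cases hj : j = i
          · subst hj
            rw [Function.update_self]
            have := hκ j
            omega
          · rw [Function.update_of_ne hj]
            exact hκ j) hsum (fun j z => F j (incl (US L) z)) (by
          intro j
          by_cases hj : j = i
          · subst hj
            rw [Function.update_self]
            exact step hi L hL (hFΦ j)
          · rw [Function.update_of_ne hj]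
            exact Bd.restrict ⟨Φ j, hΦ j, hFΦ j⟩ (US L))
      refine ⟨S.map ⟨Subtype.val, Subtype.val_injective⟩, ?_, ?_, ?_⟩
      · rw [Finset.card_map]; exact h1
      · rw [Finset.card_map]
        have hdim : Module.finrank (ZMod p) X ≤ 2 * Module.finrank (ZMod p) (US L) := by
          have e1 := US_finrank L
          have e2 : r * L.length * 2 ≤ Module.finrank (ZMod p) X := by
            calc r * L.length * 2
                ≤ r * (κ i * (Module.finrank (ZMod p) X / (2 * r * k))) * 2 :=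
                  Nat.mul_le_mul_right _ (Nat.mul_le_mul_left _ hLlen)
              _ ≤ r * (k * (Module.finrank (ZMod p) X / (2 * r * k))) * 2 :=
                  Nat.mul_le_mul_right _ (Nat.mul_le_mul_left _ (Nat.mul_le_mul_right _ (hκ i)))
              _ = (Module.finrank (ZMod p) X / (2 * r * k)) * (2 * r * k) := by ring
              _ ≤ _ := Nat.div_mul_le_self _ _
          omega
        have hX : Fintype.card X = p ^ Module.finrank (ZMod p) X := by
          rw [Module.card_eq_pow_finrank (K := ZMod p) (V := X), ZMod.card]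
        have hV : Fintype.card (US L) = p ^ Module.finrank (ZMod p) (US L) := by
          rw [Module.card_eq_pow_finrank (K := ZMod p) (V := US L), ZMod.card]
        calc Fintype.card X = p ^ Module.finrank (ZMod p) X := hX
          _ ≤ p ^ (2 * Module.finrank (ZMod p) (US L)) :=
            Nat.pow_le_pow_right (Nat.Prime.pos Fact.out) hdim
          _ = (Fintype.card (US L)) ^ 2 := by rw [hV, ← pow_mul, mul_comm]
          _ ≤ ((2 * S.card) ^ (C0 p r k s * 2 ^ K)) ^ 2 := Nat.pow_le_pow_left h2 2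
          _ = (2 * S.card) ^ (C0 p r k s * 2 ^ (K + 1)) := by
            rw [← pow_mul]
            congr 1
            ring
      · intro j z z' hz hz' hzi hzi'
        have lift : ∀ z : Fin r → X, (∀ j, z j ∈ S.map ⟨Subtype.val, Subtype.val_injective⟩) →
            ∃ w : Fin r → US L, (∀ j, w j ∈ S) ∧ incl (US L) w = z := by
          intro z hz
          have : ∀ j, ∃ w : US L, w ∈ S ∧ (w : X) = z j := fun j => by
            obtain ⟨w, hw, hwz⟩ := Finset.mem_map.1 (hz j)
            exact ⟨w, hw, hwz⟩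
          choose w hw1 hw2 using this
          exact ⟨w, hw1, funext hw2⟩
        obtain ⟨w, hw, rfl⟩ := lift z hz
        obtain ⟨w', hw', rfl⟩ := lift z' hz'
        refine h3 j w w' hw hw' ?_ ?_
        · intro x y hxy
          apply hzi
          show ((w x : US L) : X) = (w y : X)
          rw [hxy]
        · intro x y hxy
          apply hzi'
          show ((w' x : US L) : X) = (w' y : X)
          rw [hxy]

end Pool.Agent.Helper12.LocCon
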