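import Pool.Agent.Helper12.LocBic

/-!
# Graphs without bicliques and sets without corners given by conjunctions of local constraints
-/

namespace Pool.Agent.Helper12.LocBic

open Finset Pool.Agent.Helper12.LocAff

theorem union_card {X : Type} [Fintype X] {M : ℕ} (E : Finset X) (F : Fin M → X → Prop)
    [∀ i, DecidablePred (F i)] (hE : ∀ q ∈ E, ∃ i, F i q) (b : ℝ)
    (hb : ∀ i, ((Finset.univ.filter (F i)).card : ℝ) ≤ b) : (E.card : ℝ) ≤ M * b := by
  classical
  have h1 : E ⊆ (Finset.univ : Finset (Fin M)).biUnion fun i => Finset.univ.filter (F i) := by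
    intro q hq
    obtain ⟨i, hi⟩ := hE q hq
    exact Finset.mem_biUnion.2 ⟨i, Finset.mem_univ _, Finset.mem_filter.2 ⟨Finset.mem_univ _, hi⟩⟩
  have h2 : E.card ≤ ∑ i : Fin M, (Finset.univ.filter (F i)).card :=
    (Finset.card_le_card h1).trans Finset.card_biUnion_le
  calc (E.card : ℝ) ≤ ((∑ i : Fin M, (Finset.univ.filter (F i)).card : ℕ) : ℝ) := by
        exact_mod_cast h2
    _ = ∑ i : Fin M, ((Finset.univ.filter (F i)).card : ℝ) := by push_cast; rfl
    _ ≤ ∑ _i : Fin M, b := Finset.sum_le_sum fun i _ => hb i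
    _ = M * b := by rw [Finset.sum_const, Finset.card_univ, Fintype.card_fin, nsmul_eq_mul]

theorem base_one {p k : ℕ} (hp : p.Prime) :
    (((p : ℝ) ^ k - 1) / (p : ℝ) ^ k) ≤ 1 := by
  have hp0 : (0 : ℝ) < (p : ℝ) ^ k := by
    have : (0 : ℝ) < p := by exact_mod_cast hp.pos
    positivity
  rw [div_le_one hp0]
  linarith

theorem final_bound {p k m a b : ℕ} (hp : p.Prime) (hk : 1 ≤ k) (hb : 1 ≤ b) {c : ℝ}
    (h : c ≤ (((p : ℝ) ^ k - 1) / (p : ℝ) ^ k) ^ ((m - a) / (b * (k * (k + 1) / 2))) *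
      ((p : ℝ) ^ m * (p : ℝ) ^ m)) :
    c ≤ (Real.exp (lam p k) * ((p : ℝ) ^ a) ^ (gam p k / b)) *
      ((p : ℝ) ^ m) ^ (2 - gam p k / b) := by
  have hp0 : (0 : ℝ) < (p : ℝ) ^ m := by
    have : (0 : ℝ) < p := by exact_mod_cast hp.pos
    positivity
  refine h.trans ((mul_le_mul_of_nonneg_right (dens hp hk m a b hb) (by positivity)).trans
    (le_of_eq ?_))
  rw [show (2 : ℝ) - gam p k / b = -(gam p k / b) + 2 by ring, Real.rpow_add hp0,
    show ((p : ℝ) ^ m) ^ (2 : ℝ) = (p : ℝ) ^ m * (p : ℝ) ^ m by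
      rw [Real.rpow_two, sq]]
  ring

/-- Graphs without `K_{s,t}` which are unions of `M` conjunctions of local constraints. -/
theorem graph_bound {p k s t m M : ℕ} [Fact p.Prime] (hk : 1 ≤ k)
    (G : SimpleGraph (Fin m → ZMod p))
    (F : Fin M → (Fin m → ZMod p) × (Fin m → ZMod p) → Prop) (hF : ∀ i, Bd p k (F i))
    (hG : ∀ x y, x ≠ y → (G.Adj x y ↔ ∃ i, F i (x, y)))
    (hfree : ¬ ∃ R S : Finset (Fin m → ZMod p), R.card = s ∧ S.card = t ∧
      ∀ x ∈ R, ∀ y ∈ S, G.Adj x y) :
    (Nat.card G.edgeSet : ℝ) ≤ M * ((Real.exp (lam p k) * ((p : ℝ) ^ (s + t)) ^ gam p k) *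
      ((p : ℝ) ^ m) ^ (2 - gam p k)) := by
  classical
  have hp : p.Prime := Fact.out
  have hfin : Module.finrank (ZMod p) (Fin m → ZMod p) = m := by
    rw [Module.finrank_fintype_fun_eq_card, Fintype.card_fin]
  have hcX : (Fintype.card ((Fin m → ZMod p) × (Fin m → ZMod p)) : ℝ) =
      (p : ℝ) ^ m * (p : ℝ) ^ m := by
    rw [Fintype.card_prod, Fintype.card_fun, ZMod.card, Fintype.card_fin]
    push_cast
    rfl
  -- each formula
  have hone : ∀ i, ((Finset.univ.filter (F i)).card : ℝ) ≤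
      (Real.exp (lam p k) * ((p : ℝ) ^ (s + t)) ^ gam p k) * ((p : ℝ) ^ m) ^ (2 - gam p k) := by
    intro i
    have key := final_bound (m := m) (a := s + t) (b := 1) hp hk le_rfl
      (c := ((Finset.univ.filter (F i)).card : ℝ)) ?_
    · simpa using key
    · obtain ⟨T, hT⟩ : ∃ T, T = (m - (s + t)) / (1 * (k * (k + 1) / 2)) := ⟨_, rfl⟩
      rw [← hT]
      rcases Nat.eq_zero_or_pos T with h0 | hpos
      · rw [h0, pow_zero, one_mul, ← hcX]
        exact_mod_cast Finset.card_le_univ _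
      · rw [← hcX]
        apply card_real hp
        apply biclique (X := Fin m → ZMod p) k T s t (F i) (hF i)
        · rw [hfin]
          have h1 : T * (k * (k + 1) / 2) ≤ m - (s + t) := by
            rw [hT, Nat.one_mul]
            exact Nat.div_mul_le_self _ _
          have h2 : s + t ≤ m := by
            by_contra hlt
            have : m - (s + t) = 0 := by omega
            rw [this, Nat.zero_div] at hT
            omega
          calc s + t ≤ p ^ (s + t) := (Nat.lt_pow_self hp.one_lt).le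
            _ ≤ p ^ (m - T * (k * (k + 1) / 2)) := Nat.pow_le_pow_right hp.pos (by omega)
        · rintro ⟨R, S, hR, hS, hdis, hRS⟩
          refine hfree ⟨R, S, hR, hS, fun x hx y hy => ?_⟩
          have hne : x ≠ y := by
            rintro rfl
            exact Finset.disjoint_left.1 hdis hx hy
          exact (hG x y hne).2 ⟨i, hRS x hx y hy⟩
  let E : Finset ((Fin m → ZMod p) × (Fin m → ZMod p)) :=
    Finset.univ.filter fun q => G.Adj q.1 q.2
  have hE1 : Nat.card G.edgeSet ≤ E.card := by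
    have h1 : G.edgeFinset ⊆ E.image fun q => s(q.1, q.2) := by
      intro e he
      induction e with
      | h x y =>
        rw [SimpleGraph.mem_edgeFinset, SimpleGraph.mem_edgeSet] at he
        exact Finset.mem_image.2 ⟨(x, y), Finset.mem_filter.2 ⟨Finset.mem_univ _, he⟩, rfl⟩
    have h2 := (Finset.card_le_card h1).trans Finset.card_image_le
    rwa [SimpleGraph.edgeFinset_card, ← Nat.card_eq_fintype_card] at h2
  have hE2 : (E.card : ℝ) ≤ M * ((Real.exp (lam p k) * ((p : ℝ) ^ (s + t)) ^ gam p k) *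
      ((p : ℝ) ^ m) ^ (2 - gam p k)) := by
    apply union_card E F _ _ hone
    intro q hq
    have hadj : G.Adj q.1 q.2 := (Finset.mem_filter.1 hq).2
    exact (hG q.1 q.2 hadj.ne).1 hadj
  have hE1' : (Nat.card G.edgeSet : ℝ) ≤ E.card := by exact_mod_cast hE1
  exact hE1'.trans hE2

/-- A dense conjunction of local constraints on pairs contains a corner. -/
theorem corner {p : ℕ} [Fact p.Prime] {X : Type} [AddCommGroup X] [Module (ZMod p) X] [Fintype X]
    [DecidableEq X]
    (k T : ℕ) (F : X × X → Prop) [DecidablePred F] (hF : Bd p k F)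
    (hm : 2 * (T * (k * (k + 1) / 2)) < Module.finrank (ZMod p) X)
    (hfree : ¬ ∃ x y z : X, z ≠ 0 ∧ F (x, y) ∧ F (x, y + z) ∧ F (x + z, y)) :
    (Finset.univ.filter F).card * (p ^ k) ^ T ≤ (p ^ k - 1) ^ T * Fintype.card (X × X) := by
  classical
  by_contra hcon
  push Not at hcon
  obtain ⟨⟨x₀, y₀⟩, W, hW, hWF⟩ := dense k T (X × X) F hF hcon
  obtain ⟨D, hD⟩ : ∃ D, D = T * (k * (k + 1) / 2) := ⟨_, rfl⟩
  rw [← hD] at hW hm
  let U := W.comap (LinearMap.inl (ZMod p) X X)
  let U' := W.comap (LinearMap.inr (ZMod p) X X)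
  have hU : Module.finrank (ZMod p) X ≤ Module.finrank (ZMod p) U + D :=
    comap_finrank _ LinearMap.inl_injective W hW
  have hU' : Module.finrank (ZMod p) X ≤ Module.finrank (ZMod p) U' + D :=
    comap_finrank _ LinearMap.inr_injective W hW
  have h2 := Submodule.finrank_sup_add_finrank_inf_eq U U'
  have h4 := Submodule.finrank_le (U ⊔ U')
  have h5 : 0 < Module.finrank (ZMod p) (U ⊓ U' : Submodule (ZMod p) X) := by omega
  obtain ⟨⟨z, hz⟩, hz0⟩ := Module.finrank_pos_iff_exists_ne_zero.1 h5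
  have hz1 : z ≠ 0 := fun h => hz0 (Subtype.ext h)
  have hzU : ((z, 0) : X × X) ∈ W := hz.1
  have hzU' : ((0, z) : X × X) ∈ W := hz.2
  refine hfree ⟨x₀, y₀, z, hz1, ?_, ?_, ?_⟩
  · simpa using hWF 0 W.zero_mem
  · simpa using hWF _ hzU'
  · simpa using hWF _ hzU

/-- Corner-free sets which are unions of `M` conjunctions of local constraints. -/
theorem corner_bound {p k m M : ℕ} [Fact p.Prime] (hk : 1 ≤ k)
    (A : Finset ((Fin m → ZMod p) × (Fin m → ZMod p)))
    (F : Fin M → (Fin m → ZMod p) × (Fin m → ZMod p) → Prop) (hF : ∀ i, Bd p k (F i))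
    (hA : ∀ q, q ∈ A ↔ ∃ i, F i q)
    (hfree : ¬ ∃ x y z : Fin m → ZMod p, z ≠ 0 ∧ (x, y) ∈ A ∧ (x, y + z) ∈ A ∧ (x + z, y) ∈ A) :
    (A.card : ℝ) ≤ M * ((Real.exp (lam p k) * ((p : ℝ) ^ 1) ^ (gam p k / 2)) *
      ((p : ℝ) ^ m) ^ (2 - gam p k / 2)) := by
  classical
  have hp : p.Prime := Fact.out
  have hfin : Module.finrank (ZMod p) (Fin m → ZMod p) = m := by
    rw [Module.finrank_fintype_fun_eq_card, Fintype.card_fin]
  have hcX : (Fintype.card ((Fin m → ZMod p) × (Fin m → ZMod p)) : ℝ) =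
      (p : ℝ) ^ m * (p : ℝ) ^ m := by
    rw [Fintype.card_prod, Fintype.card_fun, ZMod.card, Fintype.card_fin]
    push_cast
    rfl
  have hone : ∀ i, ((Finset.univ.filter (F i)).card : ℝ) ≤
      (Real.exp (lam p k) * ((p : ℝ) ^ 1) ^ (gam p k / 2)) *
        ((p : ℝ) ^ m) ^ (2 - gam p k / 2) := by
    intro i
    have key := final_bound (m := m) (a := 1) (b := 2) hp hk (by norm_num)
      (c := ((Finset.univ.filter (F i)).card : ℝ)) ?_
    · exact_mod_cast key
    · obtain ⟨T, hT⟩ : ∃ T, T = (m - 1) / (2 * (k * (k + 1) / 2)) := ⟨_, rfl⟩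
      rw [← hT]
      rcases Nat.eq_zero_or_pos T with h0 | hpos
      · rw [h0, pow_zero, one_mul, ← hcX]
        exact_mod_cast Finset.card_le_univ _
      · rw [← hcX]
        apply card_real hp
        apply corner (X := Fin m → ZMod p) k T (F i) (hF i)
        · rw [hfin]
          have h1 : T * (2 * (k * (k + 1) / 2)) ≤ m - 1 := by
            rw [hT]
            exact Nat.div_mul_le_self _ _
          have h2 : 1 ≤ m := by
            by_contra hlt
            have : m - 1 = 0 := by omega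
            rw [this, Nat.zero_div] at hT
            omega
          have h3 : T * (2 * (k * (k + 1) / 2)) = 2 * (T * (k * (k + 1) / 2)) := by ring
          omega
        · rintro ⟨x, y, z, hz, h1, h2, h3⟩
          exact hfree ⟨x, y, z, hz, (hA _).2 ⟨i, h1⟩, (hA _).2 ⟨i, h2⟩, (hA _).2 ⟨i, h3⟩⟩
  exact union_card A F (fun q hq => (hA q).1 hq) _ hone

end Pool.Agent.Helper12.LocBic
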