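import Pool.Agent.Helper12.LocPat
import Pool.Agent.Y347.CO.Hj

/-!
# The restricted density polynomial Hales-Jewett conjecture and constraints on parities
-/

set_option autoImplicit false

namespace Pool.Agent.Helper12.LocHJ

open Finset Pool.Agent.Helper12.LocAff Pool.Agent.Helper12.LocBic

section
variable {X : Type} [Fintype X] [DecidableEq X]

/-- The characteristic function with values in `F_2`. -/
def chi : Finset X ≃ (X → ZMod 2) where
  toFun A x := if x ∈ A then 1 else 0
  invFun w := univ.filter fun x => w x = 1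
  left_inv A := by
    ext x
    by_cases h : x ∈ A <;> simp [h]
  right_inv w := by
    funext x
    have h : ∀ a : ZMod 2, (if a = 1 then (1 : ZMod 2) else 0) = a := by decide
    simpa using h (w x)

theorem chi_symmDiff (A B : Finset X) : chi (symmDiff A B) = chi A + chi B := by
  funext x
  simp only [chi, Equiv.coe_fn_mk, Pi.add_apply, mem_symmDiff]
  by_cases h1 : x ∈ A <;> by_cases h2 : x ∈ B <;> simp [h1, h2] <;> decide

/-- The linear form given by the parity of `|A ∩ P|`. -/
noncomputable def form (P : Finset X) : (X → ZMod 2) →ₗ[ZMod 2] ZMod 2 :=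
  ∑ x ∈ P, LinearMap.proj x

theorem form_chi (P A : Finset X) : form P (chi A) = ((A ∩ P).card : ZMod 2) := by
  rw [form, LinearMap.sum_apply]
  simp only [LinearMap.proj_apply, chi, Equiv.coe_fn_mk]
  rw [Finset.sum_ite_mem, Finset.sum_const, nsmul_eq_mul, mul_one, Finset.inter_comm]

end

variable {d N : ℕ}

open Pool.Agent.Y347.CO in
/-- A large affine subspace is good. -/
theorem good_of_affine (hd : 1 ≤ d) (S : Finset (Finset (Fin d → Fin N)))
    (y : (Fin d → Fin N) → ZMod 2) (W : Submodule (ZMod 2) ((Fin d → Fin N) → ZMod 2)) (D : ℕ)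
    (hW : Module.finrank (ZMod 2) ((Fin d → Fin N) → ZMod 2) ≤ Module.finrank (ZMod 2) W + D)
    (hD : (d + 1) * D < N) (hall : ∀ w ∈ W, chi.symm (y + w) ∈ S) :
    Pool.Agent.Y347.CO.Good S := by
  classical
  by_contra hS
  let S' : Finset (Finset (Fin d → Fin N)) := univ.filter fun A => chi A - y ∈ W
  have hsub : S' ⊆ S := by
    intro A hA
    have h1 := hall _ (mem_filter.1 hA).2
    rwa [add_sub_cancel, Equiv.symm_apply_apply] at h1
  have hS' : ¬ Pool.Agent.Y347.CO.Good S' := by
    rintro ⟨A, hA, γ, hγ, hdis, hun⟩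
    exact hS ⟨A, hsub hA, γ, hγ, hdis, hsub hun⟩
  have hcl : ∀ A ∈ S', ∀ B ∈ S', ∀ C ∈ S', symmDiff A (symmDiff B C) ∈ S' := by
    intro A hA B hB C hC
    rw [mem_filter] at hA hB hC ⊢
    refine ⟨mem_univ _, ?_⟩
    rw [chi_symmDiff, chi_symmDiff]
    have h2 : y + y = 0 := by
      funext x
      exact CharTwo.add_self_eq_zero (y x)
    have e : chi A + (chi B + chi C) - y = (chi A - y) + (chi B - y) + (chi C - y) := by
      have : (chi A - y) + (chi B - y) + (chi C - y) =
          chi A + (chi B + chi C) - y - (y + y) := by abel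
      rw [this, h2, sub_zero]
    rw [e]
    exact W.add_mem (W.add_mem hA.2 hB.2) hC.2
  have hcard : S'.card = 2 ^ Module.finrank (ZMod 2) W := by
    rw [← card_submodule (p := 2) W, Nat.card_eq_fintype_card]
    symm
    refine Fintype.card_of_bijective (α := W) (β := S') (f := fun w => ⟨chi.symm (y + w.1), ?_⟩) ?_
      |>.trans (Fintype.card_coe S')
    · rw [mem_filter]
      refine ⟨mem_univ _, ?_⟩
      rw [Equiv.apply_symm_apply, add_sub_cancel_left]
      exact w.2
    · constructor
      · intro a b hab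
        have h1 : chi.symm (y + a.1) = chi.symm (y + b.1) := congrArg Subtype.val hab
        exact Subtype.ext (add_left_cancel (chi.symm.injective h1))
      · rintro ⟨A, hA⟩
        refine ⟨⟨chi A - y, (mem_filter.1 hA).2⟩, Subtype.ext ?_⟩
        show chi.symm (y + (chi A - y)) = A
        rw [add_sub_cancel, Equiv.symm_apply_apply]
  have h := hj_aff hd S' hS' hcl
  rw [hcard] at h
  have hfin : Module.finrank (ZMod 2) ((Fin d → Fin N) → ZMod 2) = N ^ d := by
    rw [Module.finrank_fintype_fun_eq_card, Fintype.card_fun, Fintype.card_fin, Fintype.card_fin]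
  rw [hfin] at hW
  push_cast at h
  rw [← Real.rpow_natCast (2 : ℝ)] at h
  have h1 := (Real.rpow_le_rpow_left_iff (by norm_num : (1 : ℝ) < 2)).1 h
  have hW' : (N : ℝ) ^ d ≤ Module.finrank (ZMod 2) W + D := by exact_mod_cast hW
  have hD' : ((d : ℝ) + 1) * D < N := by exact_mod_cast hD
  have hd0 : (0 : ℝ) < (d : ℝ) + 1 := by positivity
  have h3 : (N : ℝ) / (d + 1) ≤ D := by linarith
  rw [div_le_iff₀ hd0] at h3
  linarith

end Pool.Agent.Helper12.LocHJ
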