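import Pool.Agent.Helper12.LocGraph

/-!
# Sets without a pattern which occurs in all large affine subspaces
-/

set_option autoImplicit false

namespace Pool.Agent.Helper12.LocBic

open Finset Pool.Agent.Helper12.LocAff

/-- If a union `A` of `M` conjunctions of constraints on `k` linear forms contains no affine subspace
of codimension `D` with `b D < m` then `A` is small. -/
theorem pattern_bound {p k b m M : ℕ} [Fact p.Prime] (hk : 1 ≤ k) (hb : 1 ≤ b)
    {Y : Type} [AddCommGroup Y] [Module (ZMod p) Y] [Fintype Y]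
    (A : Finset Y) (F : Fin M → Y → Prop) (hF : ∀ i, Bd p k (F i))
    (hA : ∀ q, q ∈ A ↔ ∃ i, F i q)
    (hfree : ∀ (y : Y) (W : Submodule (ZMod p) Y) (D : ℕ),
      Module.finrank (ZMod p) Y ≤ Module.finrank (ZMod p) W + D → b * D < m →
        ¬ ∀ w ∈ W, y + w ∈ A) :
    (A.card : ℝ) ≤ M * ((Real.exp (lam p k) * (p : ℝ) ^ (gam p k / b) *
      ((p : ℝ) ^ m) ^ (-(gam p k / b))) * Fintype.card Y) := by
  classical
  have hp : p.Prime := Fact.out
  have hone : ∀ i, ((Finset.univ.filter (F i)).card : ℝ) ≤
      (Real.exp (lam p k) * (p : ℝ) ^ (gam p k / b) *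
      ((p : ℝ) ^ m) ^ (-(gam p k / b))) * Fintype.card Y := by
    intro i
    obtain ⟨T, hT⟩ : ∃ T, T = (m - 1) / (b * (k * (k + 1) / 2)) := ⟨_, rfl⟩
    have hd := dens hp hk m 1 b hb
    rw [pow_one, ← hT] at hd
    have key : ((Finset.univ.filter (F i)).card : ℝ) ≤
        (((p : ℝ) ^ k - 1) / (p : ℝ) ^ k) ^ T * Fintype.card Y := by
      rcases Nat.eq_zero_or_pos T with h0 | hpos
      · rw [h0, pow_zero, one_mul]
        exact_mod_cast Finset.card_le_univ _
      · apply card_real hp
        by_contra hcon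
        push Not at hcon
        obtain ⟨y, W, hW, hWF⟩ := dense k T Y (F i) (hF i) hcon
        refine hfree y W (T * (k * (k + 1) / 2)) hW ?_ fun w hw => (hA _).2 ⟨i, hWF w hw⟩
        have h1 : T * (b * (k * (k + 1) / 2)) ≤ m - 1 := by
          rw [hT]
          exact Nat.div_mul_le_self _ _
        have h2 : 1 ≤ m := by
          by_contra hlt
          have : m - 1 = 0 := by omega
          rw [this, Nat.zero_div] at hT
          omega
        have h3 : T * (b * (k * (k + 1) / 2)) = b * (T * (k * (k + 1) / 2)) := by ring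
        omega
    exact key.trans (mul_le_mul_of_nonneg_right hd (Nat.cast_nonneg _))
  exact union_card A F (fun q hq => (hA q).1 hq) _ hone

end Pool.Agent.Helper12.LocBic
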