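import Mathlib

/-!
# Covering the non-isomorphic pairs by tractable sets

A set of pairs of graphs on `n` vertices is *tractable* here if it is closed (edge by edge, in both
graphs) under some Boolean operation, of any arity, which is neither a projection nor the negation
of a projection; by Schaefer's theorem these are the closure conditions that make a Boolean
constraint satisfaction problem easy, and Post's lemma (proved below) reduces them to AND, OR,
majority and `x + y + z`, that is to Horn, dual Horn, 2-CNF and linear systems, of any size.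

If the set of all pairs of NON-isomorphic graphs on `n` vertices is a union of `t` tractable sets,
then `t ≥ 2 ^ (⌊(n - 4) / 20⌋ - 1)`.

Idea: pairs of graphs which are unions of four strands; `N` switches may cross the first two
strands, and `N` commutator blocks cross them if `u j * v j = 1`. The pair with parameters
`(x, y, u, v)` is non-isomorphic exactly if `∑ x + ∑ y + u ⬝ v` is odd, which holds for half of the
`16 ^ N` parameters. A set closed under AND or OR contains at most one non-isomorphic pair with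
given `x + y, u, v`; for majority and for `x + y + z` one gets two families of vectors over the
field with two elements that are orthogonal to each other. So a tractable set contains at most
`8 ^ N` of the pairs.
-/

namespace Pool.Agent.Helper12.NonIso

variable {V : Type}

open Classical in
/-- The graph obtained from the graphs `G i` by applying the Boolean operation `f` of arity `k`
to the indicator of each edge. -/
def app {k : ℕ} (f : (Fin k → Bool) → Bool) (G : Fin k → SimpleGraph V) : SimpleGraph V where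
  Adj u v := u ≠ v ∧ f (fun i => decide ((G i).Adj u v)) = true
  symm := ⟨fun u v h => ⟨h.1.symm, by simpa only [SimpleGraph.adj_comm] using h.2⟩⟩
  loopless := ⟨fun _ h => h.1 rfl⟩

/-- The set `S` of pairs of graphs is closed under the operation `f`. -/
def Closed {k : ℕ} (f : (Fin k → Bool) → Bool) (S : Set (SimpleGraph V × SimpleGraph V)) : Prop :=
  ∀ P : Fin k → SimpleGraph V × SimpleGraph V, (∀ i, P i ∈ S) →
    (app f (fun i => (P i).1), app f (fun i => (P i).2)) ∈ S

/-- `S` is closed under some Boolean operation, of any arity, that is neither a projection nor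
the negation of a projection. -/
def Tractable (S : Set (SimpleGraph V × SimpleGraph V)) : Prop :=
  ∃ (k : ℕ) (f : (Fin k → Bool) → Bool), (∀ i, f ≠ fun x => x i) ∧ (∀ i, f ≠ fun x => !x i) ∧
    Closed f S

/-- The set of all pairs of non-isomorphic graphs on `n` vertices is a union of `t` tractable
sets. -/
def NonIsoCover (n t : ℕ) : Prop :=
  ∃ S : Fin t → Set (SimpleGraph (Fin n) × SimpleGraph (Fin n)), (∀ i, Tractable (S i)) ∧
    ∀ G H : SimpleGraph (Fin n), (¬ Nonempty (G ≃g H)) ↔ ∃ i, (G, H) ∈ S i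

/-! ### Post's lemma -/

theorem closed_comp {k m : ℕ} {f : (Fin k → Bool) → Bool} {S : Set (SimpleGraph V × SimpleGraph V)}
    (hf : Closed f S) (h : Fin k → (Fin m → Bool) → Bool) (hh : ∀ j, Closed (h j) S) :
    Closed (fun x => f (fun j => h j x)) S := by
  intro P hP
  have h1 := hf (fun j => (app (h j) (fun i => (P i).1), app (h j) (fun i => (P i).2)))
    (fun j => hh j P hP)
  convert h1 using 2
  · ext u v
    by_cases huv : u = v
    · simp [huv]
    · simp [app, huv]
  · ext u v
    by_cases huv : u = v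
    · simp [huv]
    · simp [app, huv]

theorem closed_proj {k : ℕ} (i : Fin k) (S : Set (SimpleGraph V × SimpleGraph V)) :
    Closed (fun x : Fin k → Bool => x i) S := by
  intro P hP
  convert hP i using 1
  refine Prod.ext ?_ ?_
  · ext u v
    by_cases huv : u = v
    · simp [huv]
    · simp [app, huv]
  · ext u v
    by_cases huv : u = v
    · simp [huv]
    · simp [app, huv]

theorem closed_minor {k m : ℕ} {f : (Fin k → Bool) → Bool} {S : Set (SimpleGraph V × SimpleGraph V)}
    (hf : Closed f S) (σ : Fin k → Fin m) : Closed (fun x => f (fun j => x (σ j))) S :=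
  closed_comp hf (fun j x => x (σ j)) (fun j => closed_proj (σ j) S)

def opAnd (x : Fin 2 → Bool) : Bool := x 0 && x 1
def opOr (x : Fin 2 → Bool) : Bool := x 0 || x 1
def opMaj (x : Fin 3 → Bool) : Bool := (x 0 && x 1) || (x 1 && x 2) || (x 0 && x 2)
def opXor (x : Fin 3 → Bool) : Bool := xor (x 0) (xor (x 1) (x 2))

/-- Pixley operation -/
def opPix (x : Fin 3 → Bool) : Bool := (x 0 && x 2) || ((x 0 || x 2) && !x 1)

theorem ext2 {g h : (Fin 2 → Bool) → Bool} (e : ∀ a b, g ![a, b] = h ![a, b]) : g = h := by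
  funext x
  have : x = ![x 0, x 1] := by
    funext i; fin_cases i <;> rfl
  rw [this]; exact e _ _

theorem ext3 {g h : (Fin 3 → Bool) → Bool} (e : ∀ a b c, g ![a, b, c] = h ![a, b, c]) :
    g = h := by
  funext x
  have : x = ![x 0, x 1, x 2] := by
    funext i; fin_cases i <;> rfl
  rw [this]; exact e _ _ _

theorem maj_of_pix {S : Set (SimpleGraph V × SimpleGraph V)} (h : Closed opPix S) :
    Closed opMaj S := by
  have h1 := closed_comp h (m := 3) ![fun x => x 0, opPix, fun x => x 2] (by
    intro j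
    fin_cases j
    · exact closed_proj 0 S
    · exact h
    · exact closed_proj 2 S)
  convert h1 using 1
  apply ext3
  decide

theorem post {k : ℕ} (f : (Fin k → Bool) → Bool) (h0 : ∀ b, f (fun _ => b) = b)
    (hp : ∀ i, f ≠ fun x => x i) (S : Set (SimpleGraph V × SimpleGraph V)) (hS : Closed f S) :
    Closed opAnd S ∨ Closed opOr S ∨ Closed opMaj S ∨ Closed opXor S := by
  classical
  by_cases h1 : ∃ a, f a = f (fun i => !a i)
  · obtain ⟨a, ha⟩ := h1
    have hg := closed_minor (m := 2) hS (fun i => if a i then 0 else 1)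
    have e10 : (fun i => (![true, false] : Fin 2 → Bool) (if a i then 0 else 1)) = a := by
      funext i; cases a i <;> rfl
    have e01 : (fun i => (![false, true] : Fin 2 → Bool) (if a i then 0 else 1)) =
        fun i => !a i := by
      funext i; cases a i <;> rfl
    have e11 : ∀ b, (fun i => (![b, b] : Fin 2 → Bool) (if a i then 0 else 1)) = fun _ => b := by
      intro b; funext i; cases a i <;> rfl
    cases hfa : f a
    · left
      convert hg using 1
      apply ext2
      rintro (_ | _) (_ | _)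
      · simp only [e11, h0]; rfl
      · simp only [e01, ← ha, hfa]; rfl
      · simp only [e10, hfa]; rfl
      · simp only [e11, h0]; rfl
    · right; left
      convert hg using 1
      apply ext2
      rintro (_ | _) (_ | _)
      · simp only [e11, h0]; rfl
      · simp only [e01, ← ha, hfa]; rfl
      · simp only [e10, hfa]; rfl
      · simp only [e11, h0]; rfl
  · right; right
    have h2 : ∀ a, f (fun i => !a i) = !f a := by
      intro a
      by_contra h
      apply h1
      refine ⟨a, ?_⟩
      revert h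
      cases f a <;> cases f (fun i => !a i) <;> simp
    by_cases h3 : ∃ a b : Fin k → Bool, (∀ i, a i = true → b i = true) ∧ f a = true ∧ f b = false
    · obtain ⟨a, b, hab, ha, hb⟩ := h3
      have hg := closed_minor (m := 3) hS (fun i => if a i then 0 else if b i then 1 else 2)
      have e1 : ∀ c, (fun i => (![c, c, c] : Fin 3 → Bool)
          (if a i then 0 else if b i then 1 else 2)) = fun _ => c := by
        intro c; funext i; cases a i <;> cases b i <;> rfl
      have e2 : (fun i => (![true, false, false] : Fin 3 → Bool)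
          (if a i then 0 else if b i then 1 else 2)) = a := by
        funext i; cases a i <;> cases b i <;> rfl
      have e3 : (fun i => (![false, true, true] : Fin 3 → Bool)
          (if a i then 0 else if b i then 1 else 2)) = fun i => !a i := by
        funext i; cases a i <;> cases b i <;> rfl
      have e4 : (fun i => (![true, true, false] : Fin 3 → Bool)
          (if a i then 0 else if b i then 1 else 2)) = b := by
        funext i
        have := hab i
        revert this
        cases a i <;> cases b i <;> simp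
      have e5 : (fun i => (![false, false, true] : Fin 3 → Bool)
          (if a i then 0 else if b i then 1 else 2)) = fun i => !b i := by
        funext i
        have := hab i
        revert this
        cases a i <;> cases b i <;> simp
      have e6 : (fun i => (![true, false, true] : Fin 3 → Bool)
          (if a i then 0 else if b i then 1 else 2)) = fun i => !((![false, true, false] :
          Fin 3 → Bool) (if a i then 0 else if b i then 1 else 2)) := by
        funext i; cases a i <;> cases b i <;> rfl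
      cases hc : f (fun i => (![false, true, false] : Fin 3 → Bool)
          (if a i then 0 else if b i then 1 else 2))
      · left
        apply maj_of_pix
        convert hg using 1
        apply ext3
        rintro (_ | _) (_ | _) (_ | _)
        · simp only [e1, h0]; rfl
        · simp only [e5, h2, hb]; rfl
        · simp only [hc]; rfl
        · simp only [e3, h2, ha]; rfl
        · simp only [e2, ha]; rfl
        · simp only [e6, h2, hc]; rfl
        · simp only [e4, hb]; rfl
        · simp only [e1, h0]; rfl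
      · right
        convert hg using 1
        apply ext3
        rintro (_ | _) (_ | _) (_ | _)
        · simp only [e1, h0]; rfl
        · simp only [e5, h2, hb]; rfl
        · simp only [hc]; rfl
        · simp only [e3, h2, ha]; rfl
        · simp only [e2, ha]; rfl
        · simp only [e6, h2, hc]; rfl
        · simp only [e4, hb]; rfl
        · simp only [e1, h0]; rfl
    · left
      have h4 : ∀ a b : Fin k → Bool, (∀ i, a i = true → b i = true) → f a = true →
          f b = true := by
        intro a b hab ha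
        by_contra hb
        exact h3 ⟨a, b, hab, ha, by simpa using hb⟩
      by_cases h5 : ∃ a b : Fin k → Bool, f a = true ∧ f b = true ∧ f (fun i => a i && b i) = false
      · obtain ⟨a, b, ha, hb, hc⟩ := h5
        have hg := closed_minor (m := 3) hS (fun i => if a i then (if b i then 0 else 1) else 2)
        have e1 : ∀ c, (fun i => (![c, c, c] : Fin 3 → Bool)
            (if a i then (if b i then 0 else 1) else 2)) = fun _ => c := by
          intro c; funext i; cases a i <;> cases b i <;> rfl
        have e2 : (fun i => (![true, false, false] : Fin 3 → Bool)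
            (if a i then (if b i then 0 else 1) else 2)) = fun i => a i && b i := by
          funext i; cases a i <;> cases b i <;> rfl
        have e3 : (fun i => (![false, true, true] : Fin 3 → Bool)
            (if a i then (if b i then 0 else 1) else 2)) = fun i => !(a i && b i) := by
          funext i; cases a i <;> cases b i <;> rfl
        have e4 : (fun i => (![true, true, false] : Fin 3 → Bool)
            (if a i then (if b i then 0 else 1) else 2)) = a := by
          funext i; cases a i <;> cases b i <;> rfl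
        have e5 : (fun i => (![false, false, true] : Fin 3 → Bool)
            (if a i then (if b i then 0 else 1) else 2)) = fun i => !a i := by
          funext i; cases a i <;> cases b i <;> rfl
        have e6 : f (fun i => (![true, false, true] : Fin 3 → Bool)
            (if a i then (if b i then 0 else 1) else 2)) = true := by
          apply h4 b _ _ hb
          intro i hi
          rw [hi]; cases a i <;> rfl
        have e7 : f (fun i => (![false, true, false] : Fin 3 → Bool)
            (if a i then (if b i then 0 else 1) else 2)) = false := by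
          have : (fun i => (![false, true, false] : Fin 3 → Bool)
            (if a i then (if b i then 0 else 1) else 2)) = fun i =>
            !((![true, false, true] : Fin 3 → Bool)
            (if a i then (if b i then 0 else 1) else 2)) := by
            funext i; cases a i <;> cases b i <;> rfl
          rw [this, h2, e6]; rfl
        convert hg using 1
        apply ext3
        rintro (_ | _) (_ | _) (_ | _)
        · simp only [e1, h0]; rfl
        · simp only [e5, h2, ha]; rfl
        · simp only [e7]; rfl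
        · simp only [e3, h2, hc]; rfl
        · simp only [e2, hc]; rfl
        · simp only [e6]; rfl
        · simp only [e4, ha]; rfl
        · simp only [e1, h0]; rfl
      · exfalso
        push Not at h5
        -- the intersection of all sets of value one
        have h6 : ∀ s : Finset (Fin k → Bool), (∀ a ∈ s, f a = true) →
            f (fun i => decide (∀ a ∈ s, a i = true)) = true := by
          intro s
          induction s using Finset.induction_on with
          | empty => intro _; simpa using h0 true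
          | insert b s hb ih =>
            intro h
            have h7 := h5 b _ (h b (Finset.mem_insert_self _ _))
              (ih fun a ha => h a (Finset.mem_insert_of_mem ha))
            have h8 : (fun i => decide (∀ a ∈ insert b s, a i = true)) =
                fun i => b i && decide (∀ a ∈ s, a i = true) := by
              funext i
              simp
            rw [h8]
            simpa using h7
        have h7 := h6 (Finset.univ.filter fun a => f a = true) (by simp)
        have h8 : ∃ i, ∀ a, f a = true → a i = true := by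
          by_contra hcon
          have : (fun i => decide (∀ a ∈ (Finset.univ.filter fun a => f a = true), a i = true)) =
              fun _ => false := by
            funext i
            push Not at hcon
            obtain ⟨a, ha, hai⟩ := hcon i
            simp only [Finset.mem_filter, Finset.mem_univ, true_and, decide_eq_false_iff_not]
            intro h
            exact hai (h a ha)
          rw [this, h0] at h7
          exact Bool.false_ne_true h7
        obtain ⟨i, hi⟩ := h8
        apply hp i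
        funext x
        cases hx : f x
        · have := hi (fun j => !x j) (by rw [h2, hx]; rfl)
          simpa using this
        · exact (hi x hx).symm

/-! ### Layered graphs -/

section Lay

variable {L : ℕ}

/-- The relation between the vertices of the layered graph: `R i` between the layers `i` and
`i + 1`, and the first two strands are closed up. -/
def eR (R : ℕ → Fin 4 → Fin 4 → Bool) (a b : Fin L × Fin 4) : Bool :=
  if a.1.val + 1 = b.1.val then R a.1.val a.2 b.2
  else if b.1.val + 1 = a.1.val then R b.1.val b.2 a.2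
  else decide (a.2 = b.2 ∧ a.2 < 2 ∧
    ((a.1.val = 0 ∧ b.1.val + 1 = L) ∨ (b.1.val = 0 ∧ a.1.val + 1 = L)))

theorem eR_symm (R : ℕ → Fin 4 → Fin 4 → Bool) (a b : Fin L × Fin 4) : eR R a b = eR R b a := by
  unfold eR
  by_cases h1 : a.1.val + 1 = b.1.val
  · have h2 : ¬ b.1.val + 1 = a.1.val := by omega
    rw [if_pos h1, if_neg h2, if_pos h1]
  · by_cases h2 : b.1.val + 1 = a.1.val
    · rw [if_neg h1, if_pos h2, if_pos h2]
    · rw [if_neg h1, if_neg h2, if_neg h2, if_neg h1]
      rw [decide_eq_decide]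
      constructor
      · rintro ⟨h, h', h''⟩
        exact ⟨h.symm, h ▸ h', h''.symm⟩
      · rintro ⟨h, h', h''⟩
        exact ⟨h.symm, h ▸ h', h''.symm⟩

/-- The layered graph on `V`. -/
def lay (ι : Fin L × Fin 4 ↪ V) (R : ℕ → Fin 4 → Fin 4 → Bool) : SimpleGraph V where
  Adj u v := u ≠ v ∧ ∃ a b, ι a = u ∧ ι b = v ∧ eR R a b = true
  symm := ⟨by
    rintro u v ⟨h, a, b, ha, hb, hab⟩
    exact ⟨h.symm, b, a, hb, ha, by rw [eR_symm]; exact hab⟩⟩
  loopless := ⟨fun _ h => h.1 rfl⟩

theorem lay_adj (ι : Fin L × Fin 4 ↪ V) (R : ℕ → Fin 4 → Fin 4 → Bool) (a b : Fin L × Fin 4) :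
    (lay ι R).Adj (ι a) (ι b) ↔ a ≠ b ∧ eR R a b = true := by
  constructor
  · rintro ⟨h, a', b', ha, hb, hab⟩
    rw [ι.injective.eq_iff] at ha hb
    subst ha; subst hb
    exact ⟨fun h' => h (by rw [h']), hab⟩
  · rintro ⟨h, hab⟩
    exact ⟨fun h' => h (ι.injective h'), a, b, rfl, rfl, hab⟩

theorem eR_form (a b : Fin L × Fin 4) : (∃ i s t, ∀ R, eR R a b = R i s t) ∨
    (∃ c, ∀ R, eR R a b = c) := by
  unfold eR
  by_cases h1 : a.1.val + 1 = b.1.val
  · left
    exact ⟨a.1.val, a.2, b.2, fun R => by rw [if_pos h1]⟩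
  · by_cases h2 : b.1.val + 1 = a.1.val
    · left
      exact ⟨b.1.val, b.2, a.2, fun R => by rw [if_neg h1, if_pos h2]⟩
    · right
      exact ⟨_, fun R => by rw [if_neg h1, if_neg h2]⟩

theorem app_lay {k : ℕ} (f : (Fin k → Bool) → Bool) (h0 : ∀ b, f (fun _ => b) = b)
    (ι : Fin L × Fin 4 ↪ V) (R : Fin k → ℕ → Fin 4 → Fin 4 → Bool)
    (R' : ℕ → Fin 4 → Fin 4 → Bool) (hR : ∀ i s t, f (fun j => R j i s t) = R' i s t) :
    app f (fun j => lay ι (R j)) = lay ι R' := by
  classical
  ext u v
  show (u ≠ v ∧ f (fun i => decide ((lay ι (R i)).Adj u v)) = true) ↔ _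
  by_cases huv : u = v
  · subst huv
    simp
  by_cases hu : ∃ a, ι a = u
  · by_cases hv : ∃ b, ι b = v
    · obtain ⟨a, rfl⟩ := hu
      obtain ⟨b, rfl⟩ := hv
      have hab : a ≠ b := fun h => huv (by rw [h])
      have h1 : (fun i => decide ((lay ι (R i)).Adj (ι a) (ι b))) = fun i => eR (R i) a b := by
        funext i
        rw [Bool.eq_iff_iff, decide_eq_true_iff, lay_adj]
        simp [hab]
      rw [h1, lay_adj]
      rcases eR_form a b with ⟨i, s, t, h2⟩ | ⟨c, h2⟩
      · simp only [h2, hR]
        simp [hab, huv]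
      · simp only [h2, h0]
        simp [hab, huv]
    · have h1 : ∀ R, ¬ (lay ι R).Adj u v := by
        rintro R ⟨_, a, b, _, hb, _⟩
        exact hv ⟨b, hb⟩
      simp [h1, h0]
  · have h1 : ∀ R, ¬ (lay ι R).Adj u v := by
      rintro R ⟨_, a, b, ha, _, _⟩
      exact hu ⟨a, ha⟩
    simp [h1, h0]

/-- Permutations in the Klein group. -/
def K (α β : ZMod 2) : Equiv.Perm (Fin 4) :=
  (if α = 1 then Equiv.swap 0 1 else 1) * (if β = 1 then Equiv.swap 2 3 else 1)

def Pa (u : ZMod 2) : Equiv.Perm (Fin 4) := if u = 1 then Equiv.swap 2 3 else 1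
def Pb (v : ZMod 2) : Equiv.Perm (Fin 4) :=
  if v = 1 then Equiv.swap 0 2 * Equiv.swap 1 3 else 1

theorem lay_iso [Fintype V] [DecidableEq V] (ι : Fin L × Fin 4 ↪ V)
    {R R' : ℕ → Fin 4 → Fin 4 → Bool} (T : ℕ → Equiv.Perm (Fin 4))
    (h0 : T 0 = 1) (β : ZMod 2) (hL : T (L - 1) = K 0 β)
    (hT : ∀ i, i + 1 < L → ∀ s t, R' i (T i s) (T (i + 1) t) = R i s t) :
    Nonempty (lay ι R ≃g lay ι R') := by
  classical
  let φ : Equiv.Perm (Fin L × Fin 4) := Equiv.prodShear (Equiv.refl (Fin L)) (fun i => T i.val)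
  have hφ : ∀ a b, eR R' (φ a) (φ b) = eR R a b := by
    intro a b
    have e1 : (φ a) = (a.1, T a.1.val a.2) := rfl
    have e2 : (φ b) = (b.1, T b.1.val b.2) := rfl
    rw [e1, e2]
    unfold eR
    by_cases h1 : a.1.val + 1 = b.1.val
    · simp only [if_pos h1]
      rw [← h1]
      exact hT _ (by omega) _ _
    · by_cases h2 : b.1.val + 1 = a.1.val
      · simp only [if_neg h1, if_pos h2]
        rw [← h2]
        exact hT _ (by omega) _ _
      · simp only [if_neg h1, if_neg h2]
        rw [decide_eq_decide]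
        have key : ∀ β : ZMod 2, ∀ s t : Fin 4, (s = K 0 β t ∧ s < 2) ↔ (s = t ∧ s < 2) := by
          decide
        have key' : ∀ β : ZMod 2, ∀ s t : Fin 4, (K 0 β s = t ∧ K 0 β s < 2) ↔ (s = t ∧ s < 2) := by
          decide
        have hA : (a.1.val = 0 ∧ b.1.val + 1 = L) →
            ((T a.1.val a.2 = T b.1.val b.2 ∧ T a.1.val a.2 < 2) ↔ (a.2 = b.2 ∧ a.2 < 2)) := by
          rintro ⟨h3, h4⟩
          have h5 : b.1.val = L - 1 := by omega
          rw [h3, h5, h0, hL]
          exact key β a.2 b.2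
        have hB : (b.1.val = 0 ∧ a.1.val + 1 = L) →
            ((T a.1.val a.2 = T b.1.val b.2 ∧ T a.1.val a.2 < 2) ↔ (a.2 = b.2 ∧ a.2 < 2)) := by
          rintro ⟨h3, h4⟩
          have h5 : a.1.val = L - 1 := by omega
          rw [h3, h5, h0, hL]
          exact key' β a.2 b.2
        constructor
        · rintro ⟨h3, h4, h5⟩
          rcases h5 with h5 | h5
          · have := (hA h5).1 ⟨h3, h4⟩
            exact ⟨this.1, this.2, Or.inl h5⟩
          · have := (hB h5).1 ⟨h3, h4⟩
            exact ⟨this.1, this.2, Or.inr h5⟩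
        · rintro ⟨h3, h4, h5⟩
          rcases h5 with h5 | h5
          · have := (hA h5).2 ⟨h3, h4⟩
            exact ⟨this.1, this.2, Or.inl h5⟩
          · have := (hB h5).2 ⟨h3, h4⟩
            exact ⟨this.1, this.2, Or.inr h5⟩
  refine ⟨⟨φ.viaFintypeEmbedding ι, ?_⟩⟩
  intro u v
  show (_ ≠ _ ∧ ∃ a b, _ ∧ _ ∧ _) ↔ (_ ≠ _ ∧ ∃ a b, _ ∧ _ ∧ _)
  constructor
  · rintro ⟨h, a, b, ha, hb, hab⟩
    refine ⟨fun h' => h (by rw [h']), φ.symm a, φ.symm b, ?_, ?_, ?_⟩
    · apply (φ.viaFintypeEmbedding ι).injective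
      rw [Equiv.Perm.viaFintypeEmbedding_apply_image, Equiv.apply_symm_apply]
      exact ha
    · apply (φ.viaFintypeEmbedding ι).injective
      rw [Equiv.Perm.viaFintypeEmbedding_apply_image, Equiv.apply_symm_apply]
      exact hb
    · rw [← hφ]
      simpa using hab
  · rintro ⟨h, a, b, ha, hb, hab⟩
    refine ⟨fun h' => h ((φ.viaFintypeEmbedding ι).injective h'), φ a, φ b, ?_, ?_, ?_⟩
    · rw [← ha]; exact (Equiv.Perm.viaFintypeEmbedding_apply_image _ _ _).symm
    · rw [← hb]; exact (Equiv.Perm.viaFintypeEmbedding_apply_image _ _ _).symm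
    · rw [hφ]; exact hab

/-- `τ` can be reached at layer `i`. -/
inductive Reach (R R' : ℕ → Fin 4 → Fin 4 → Bool) : ℕ → Equiv.Perm (Fin 4) → Prop
  | zero : Reach R R' 0 1
  | step {i : ℕ} {τ τ' : Equiv.Perm (Fin 4)} : Reach R R' i τ →
      (∀ s t, R' i (τ s) (τ' t) = R i s t) → Reach R R' (i + 1) τ'

theorem Reach.exists {R R' : ℕ → Fin 4 → Fin 4 → Bool} {i : ℕ} {τ : Equiv.Perm (Fin 4)}
    (h : Reach R R' i τ) : ∃ T : ℕ → Equiv.Perm (Fin 4), T 0 = 1 ∧ T i = τ ∧
      ∀ k < i, ∀ s t, R' k (T k s) (T (k + 1) t) = R k s t := by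
  induction h with
  | zero => exact ⟨fun _ => 1, rfl, rfl, fun k hk => absurd hk (by omega)⟩
  | @step i τ τ' h1 h2 ih =>
    obtain ⟨T, hT0, hTi, hT⟩ := ih
    refine ⟨Function.update T (i + 1) τ', ?_, ?_, ?_⟩
    · rw [Function.update_of_ne (by omega)]; exact hT0
    · rw [Function.update_self]
    · intro k hk s t
      rcases Nat.lt_succ_iff_lt_or_eq.1 hk with hk | rfl
      · rw [Function.update_of_ne (by omega), Function.update_of_ne (by omega)]
        exact hT k hk s t
      · rw [Function.update_self, Function.update_of_ne (by omega), hTi]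
        exact h2 s t

theorem iso_of_reach [Fintype V] [DecidableEq V] (ι : Fin L × Fin 4 ↪ V)
    {R R' : ℕ → Fin 4 → Fin 4 → Bool} (β : ZMod 2) (h : Reach R R' (L - 1) (K 0 β)) :
    Nonempty (lay ι R ≃g lay ι R') := by
  obtain ⟨T, h0, h1, h2⟩ := h.exists
  exact lay_iso ι T h0 β h1 fun i hi => h2 i (by omega)

end Lay

/-! ### The relations -/

def sw (p c : Bool) (s t : Fin 4) : Bool :=
  if s < 2 ∧ t < 2 then (if s = t then p else c) else decide (s = t)

def gr (σ : Equiv.Perm (Fin 4)) (s t : Fin 4) : Bool := decide (t = σ s)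

/-- `N` switches followed by `N` commutator blocks of four levels. -/
def Rl (N : ℕ) (p c : ℕ → Bool) (u v : ℕ → ZMod 2) (i : ℕ) (s t : Fin 4) : Bool :=
  if i < N then sw (p i) (c i) s t
  else if (i - N) % 2 = 0 then gr (Pa (u ((i - N) / 4))) s t else gr (Pb (v ((i - N) / 4))) s t

theorem Reach.gr {R R' : ℕ → Fin 4 → Fin 4 → Bool} {i : ℕ} {τ : Equiv.Perm (Fin 4)}
    (h : Reach R R' i τ) (σ σ' : Equiv.Perm (Fin 4)) (h1 : R i = gr σ) (h2 : R' i = gr σ') :
    Reach R R' (i + 1) (σ' * τ * σ⁻¹) := by
  refine h.step fun s t => ?_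
  rw [h1, h2]
  unfold NonIso.gr
  rw [decide_eq_decide]
  simp only [Equiv.Perm.mul_apply]
  constructor
  · intro h
    have := τ.injective (σ'.injective h)
    rw [← this]; simp
  · intro h
    rw [h]; simp

theorem blk : ∀ u v u' v' α β : ZMod 2, Pb v' * (Pa u' * (Pb v' * (Pa u' * K α β * (Pa u)⁻¹) *
    (Pb v)⁻¹) * (Pa u)⁻¹) * (Pb v)⁻¹ = K (α + (u * v + u' * v')) (β + (u * v + u' * v')) := by
  decide

theorem reach_blk {N : ℕ} {p c p' c' : ℕ → Bool} {u v u' v' : ℕ → ZMod 2} (j : ℕ) (α β : ZMod 2)
    (h : Reach (Rl N p c u v) (Rl N p' c' u' v') (N + 4 * j) (K α β)) :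
    Reach (Rl N p c u v) (Rl N p' c' u' v') (N + 4 * (j + 1))
      (K (α + (u j * v j + u' j * v' j)) (β + (u j * v j + u' j * v' j))) := by
  have e0 : ∀ (p c : ℕ → Bool) (u v : ℕ → ZMod 2), Rl N p c u v (N + 4 * j) = gr (Pa (u j)) := by
    intro p c u v
    funext s t
    unfold Rl
    rw [if_neg (by omega), if_pos (by omega), show (N + 4 * j - N) / 4 = j by omega]
  have e1 : ∀ (p c : ℕ → Bool) (u v : ℕ → ZMod 2), Rl N p c u v (N + 4 * j + 1) =
      gr (Pb (v j)) := by
    intro p c u v
    funext s t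
    unfold Rl
    rw [if_neg (by omega), if_neg (by omega), show (N + 4 * j + 1 - N) / 4 = j by omega]
  have e2 : ∀ (p c : ℕ → Bool) (u v : ℕ → ZMod 2), Rl N p c u v (N + 4 * j + 1 + 1) =
      gr (Pa (u j)) := by
    intro p c u v
    funext s t
    unfold Rl
    rw [if_neg (by omega), if_pos (by omega), show (N + 4 * j + 1 + 1 - N) / 4 = j by omega]
  have e3 : ∀ (p c : ℕ → Bool) (u v : ℕ → ZMod 2), Rl N p c u v (N + 4 * j + 1 + 1 + 1) =
      gr (Pb (v j)) := by
    intro p c u v
    funext s t
    unfold Rl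
    rw [if_neg (by omega), if_neg (by omega), show (N + 4 * j + 1 + 1 + 1 - N) / 4 = j by omega]
  have h1 := h.gr _ _ (e0 p c u v) (e0 p' c' u' v')
  have h2 := h1.gr _ _ (e1 p c u v) (e1 p' c' u' v')
  have h3 := h2.gr _ _ (e2 p c u v) (e2 p' c' u' v')
  have h4 := h3.gr _ _ (e3 p c u v) (e3 p' c' u' v')
  rw [blk] at h4
  exact h4

theorem reach_blks {N : ℕ} {p c p' c' : ℕ → Bool} {u v u' v' : ℕ → ZMod 2} (α β : ZMod 2)
    (h : Reach (Rl N p c u v) (Rl N p' c' u' v') N (K α β)) (j : ℕ) :
    ∃ β', Reach (Rl N p c u v) (Rl N p' c' u' v') (N + 4 * j)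
      (K (α + ∑ i ∈ Finset.range j, (u i * v i + u' i * v' i)) β') := by
  induction j with
  | zero => exact ⟨β, by simpa using h⟩
  | succ j ih =>
    obtain ⟨β', hβ⟩ := ih
    have := reach_blk j _ _ hβ
    refine ⟨β' + (u j * v j + u' j * v' j), ?_⟩
    rw [Finset.sum_range_succ, ← add_assoc]
    exact this

theorem sw1 : ∀ x x' α β : ZMod 2, ∀ s t : Fin 4,
    sw (decide (x' = 0)) (decide (x' = 1)) (K α β s) (K (α + (x + x')) β t) =
      sw (decide (x = 0)) (decide (x = 1)) s t := by
  decide

theorem sw2 : ∀ w : Bool, ∀ α α' β : ZMod 2, ∀ s t : Fin 4,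
    sw w w (K α β s) (K α' β t) = sw w w s t := by
  decide

theorem Rl_lt {N : ℕ} (p c : ℕ → Bool) (u v : ℕ → ZMod 2) {i : ℕ} (h : i < N) (s t : Fin 4) :
    Rl N p c u v i s t = sw (p i) (c i) s t := by
  unfold Rl
  rw [if_pos h]

theorem reach_sw {N : ℕ} (x x' u v u' v' : ℕ → ZMod 2) (i : ℕ) (hi : i ≤ N) :
    Reach (Rl N (fun i => decide (x i = 0)) (fun i => decide (x i = 1)) u v)
      (Rl N (fun i => decide (x' i = 0)) (fun i => decide (x' i = 1)) u' v') i
      (K (∑ j ∈ Finset.range i, (x j + x' j)) 0) := by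
  induction i with
  | zero => exact Reach.zero
  | succ i ih =>
    refine (ih (by omega)).step fun s t => ?_
    rw [Rl_lt _ _ _ _ (by omega), Rl_lt _ _ _ _ (by omega), Finset.sum_range_succ]
    exact sw1 _ _ _ _ _ _

theorem reach_free {N : ℕ} (p c p' c' : ℕ → Bool) (u v u' v' : ℕ → ZMod 2)
    (h : ∀ i < N, (p i = c i ∧ p' i = c i ∧ c' i = c i) ∨ (∃ x x' : ZMod 2,
      p i = decide (x = 0) ∧ c i = decide (x = 1) ∧ p' i = decide (x' = 0) ∧
      c' i = decide (x' = 1))) (i : ℕ) (hi : i ≤ N) :
    (∃ α, Reach (Rl N p c u v) (Rl N p' c' u' v') i (K α 0)) ∧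
    ((∃ k < i, p k = c k ∧ p' k = c k ∧ c' k = c k) →
      ∀ α, Reach (Rl N p c u v) (Rl N p' c' u' v') i (K α 0)) := by
  induction i with
  | zero =>
    refine ⟨⟨0, Reach.zero⟩, ?_⟩
    rintro ⟨k, hk, _⟩
    omega
  | succ i ih =>
    obtain ⟨⟨α, ih1⟩, ih2⟩ := ih (by omega)
    by_cases hf : p i = c i ∧ p' i = c i ∧ c' i = c i
    · have key : ∀ α', Reach (Rl N p c u v) (Rl N p' c' u' v') (i + 1) (K α' 0) := by
        intro α'
        refine ih1.step fun s t => ?_
        rw [Rl_lt _ _ _ _ (by omega), Rl_lt _ _ _ _ (by omega), hf.1, hf.2.1, hf.2.2]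
        exact sw2 _ _ _ _ _ _
      exact ⟨⟨0, key 0⟩, fun _ => key⟩
    · obtain ⟨x, x', h1, h2, h3, h4⟩ := (h i (by omega)).resolve_left hf
      have key : ∀ α', Reach (Rl N p c u v) (Rl N p' c' u' v') i (K α' 0) →
          Reach (Rl N p c u v) (Rl N p' c' u' v') (i + 1) (K (α' + (x + x')) 0) := by
        intro α' ih1
        refine ih1.step fun s t => ?_
        rw [Rl_lt _ _ _ _ (by omega), Rl_lt _ _ _ _ (by omega), h1, h2, h3, h4]
        exact sw1 _ _ _ _ _ _
      refine ⟨⟨_, key α ih1⟩, ?_⟩
      rintro ⟨k, hk, hk'⟩ α'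
      rcases Nat.lt_succ_iff_lt_or_eq.1 hk with hk | rfl
      · have := key (α' + (x + x')) (ih2 ⟨k, hk, hk'⟩ _)
        have e : α' + (x + x') + (x + x') = α' := by
          rw [add_assoc, CharTwo.add_self_eq_zero, add_zero]
        rwa [e] at this
      · exact absurd hk' hf

/-- The graph with parameters `x`, `u`, `v`. -/
def Gr {N : ℕ} (ι : Fin (5 * N + 1) × Fin 4 ↪ V) (x u v : ℕ → ZMod 2) : SimpleGraph V :=
  lay ι (Rl N (fun i => decide (x i = 0)) (fun i => decide (x i = 1)) u v)

theorem Gr_iso [Fintype V] [DecidableEq V] {N : ℕ} (ι : Fin (5 * N + 1) × Fin 4 ↪ V)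
    (x u v x' u' v' : ℕ → ZMod 2)
    (h : ∑ i ∈ Finset.range N, (x i + x' i) + ∑ i ∈ Finset.range N, (u i * v i + u' i * v' i) = 0) :
    Nonempty (Gr ι x u v ≃g Gr ι x' u' v') := by
  obtain ⟨β, hβ⟩ := reach_blks _ _ (reach_sw x x' u v u' v' N le_rfl) N
  rw [h, show N + 4 * N = 5 * N + 1 - 1 by omega] at hβ
  exact iso_of_reach ι β hβ

theorem free_iso [Fintype V] [DecidableEq V] {N : ℕ} (ι : Fin (5 * N + 1) × Fin 4 ↪ V)
    (p c p' c' : ℕ → Bool) (u v u' v' : ℕ → ZMod 2)
    (h : ∀ i < N, (p i = c i ∧ p' i = c i ∧ c' i = c i) ∨ (∃ x x' : ZMod 2,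
      p i = decide (x = 0) ∧ c i = decide (x = 1) ∧ p' i = decide (x' = 0) ∧
      c' i = decide (x' = 1))) (h' : ∃ k < N, p k = c k ∧ p' k = c k ∧ c' k = c k) :
    Nonempty (lay ι (Rl N p c u v) ≃g lay ι (Rl N p' c' u' v')) := by
  have h1 := (reach_free p c p' c' u v u' v' h N le_rfl).2 h'
  obtain ⟨β, hβ⟩ := reach_blks _ _
    (h1 (∑ i ∈ Finset.range N, (u i * v i + u' i * v' i))) N
  rw [CharTwo.add_self_eq_zero, show N + 4 * N = 5 * N + 1 - 1 by omega] at hβ
  exact iso_of_reach ι β hβ


/-! ### Pairs of different parity are not isomorphic -/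

/-- The functions which are constant on the connected components. -/
def LC (G : SimpleGraph V) : Set (V → Bool) := {g | ∀ u v, G.Adj u v → g u = g v}

theorem LC_ncard_le [Fintype V] {G H : SimpleGraph V} (φ : G ≃g H) :
    (LC G).ncard ≤ (LC H).ncard := by
  classical
  apply Set.ncard_le_ncard_of_injOn (fun g => g ∘ φ.symm)
  · intro g hg u v huv
    exact hg _ _ (φ.symm.map_adj_iff.2 huv)
  · intro g _ g' _ h
    funext u
    have := congrFun h (φ u)
    simpa using this

/-- the first unit vector -/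
def e1 : ℕ → ZMod 2 := fun i => if i = 0 then 1 else 0

theorem Gr_adj {N : ℕ} (ι : Fin (5 * N + 1) × Fin 4 ↪ V) (x : ℕ → ZMod 2) (i : ℕ)
    (hi : i < 5 * N) (s t : Fin 4) (hst : t = if i < N then (if x i = 0 then s else
      Equiv.swap 0 1 s) else s) :
    (Gr ι x 0 0).Adj (ι (⟨i, by omega⟩, s)) (ι (⟨i + 1, by omega⟩, t)) := by
  unfold Gr
  rw [lay_adj]
  refine ⟨?_, ?_⟩
  · intro h
    have := congrArg (fun a : Fin (5 * N + 1) × Fin 4 => a.1.val) h
    simp at this
  · unfold eR
    rw [if_pos rfl]
    subst hst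
    by_cases h1 : i < N
    · rw [if_pos h1, Rl_lt _ _ _ _ h1]
      have key : ∀ x : ZMod 2, ∀ s : Fin 4, sw (decide (x = 0)) (decide (x = 1)) s
          (if x = 0 then s else Equiv.swap 0 1 s) = true := by decide
      exact key _ _
    · rw [if_neg h1]
      unfold Rl
      have ka : Pa 0 = 1 := by decide
      have kb : Pb 0 = 1 := by decide
      simp only [if_neg h1, Pi.zero_apply, ka, kb, ite_self]
      simp [gr]

theorem Gr_adj_close {N : ℕ} (hN : 1 ≤ N) (ι : Fin (5 * N + 1) × Fin 4 ↪ V)
    (x u v : ℕ → ZMod 2) (s : Fin 4) (hs : s < 2) :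
    (Gr ι x u v).Adj (ι (⟨0, by omega⟩, s)) (ι (⟨5 * N, by omega⟩, s)) := by
  unfold Gr
  rw [lay_adj]
  refine ⟨?_, ?_⟩
  · intro h
    have := congrArg (fun a : Fin (5 * N + 1) × Fin 4 => a.1.val) h
    simp at this
    omega
  · unfold eR
    have h1 : ¬ (0 + 1 = 5 * N) := by omega
    have h2 : ¬ (5 * N + 1 = 0) := by omega
    simp only [if_neg h1, if_neg h2]
    simp [hs]

theorem Gr_zero_adj {N : ℕ} (ι : Fin (5 * N + 1) × Fin 4 ↪ V) {w z : V}
    (h : (Gr ι 0 0 0).Adj w z) : ∃ a b, ι a = w ∧ ι b = z ∧ a.2 = b.2 := by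
  obtain ⟨_, a, b, ha, hb, hab⟩ := h
  refine ⟨a, b, ha, hb, ?_⟩
  have key : ∀ (i : ℕ) (s t : Fin 4), Rl N (fun i => decide ((0 : ℕ → ZMod 2) i = 0))
      (fun i => decide ((0 : ℕ → ZMod 2) i = 1)) 0 0 i s t = true → s = t := by
    intro i s t
    unfold Rl
    have ka : Pa 0 = 1 := by decide
    have kb : Pb 0 = 1 := by decide
    simp only [Pi.zero_apply, ka, kb, ite_self]
    have k0 : ∀ z : ZMod 2, z = 0 → ∀ s t : Fin 4,
        sw (decide (z = 0)) (decide (z = 1)) s t = true → s = t := by decide
    split_ifs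
    · exact k0 0 rfl s t
    · intro h
      exact (of_decide_eq_true h).symm
  unfold eR at hab
  split_ifs at hab with h1 h2
  · exact key _ _ _ hab
  · exact (key _ _ _ hab).symm
  · simp only [decide_eq_true_eq] at hab
    exact hab.1

theorem LC_ssubset {N : ℕ} (hN : 1 ≤ N) (ι : Fin (5 * N + 1) × Fin 4 ↪ V) :
    LC (Gr ι e1 0 0) ⊂ LC (Gr ι 0 0 0) := by
  classical
  refine ⟨?_, ?_⟩
  · intro g hg w z hwz
    -- the function is constant along the strands
    have h1 : ∀ s : Fin 4, ∀ i, (hi : i + 1 < 5 * N + 1) →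
        g (ι (⟨i + 1, hi⟩, s)) = g (ι (⟨0, by omega⟩, Equiv.swap 0 1 s)) := by
      intro s i
      induction i with
      | zero =>
        intro hi
        refine (hg _ _ (Gr_adj ι e1 0 (by omega) (Equiv.swap 0 1 s) s ?_)).symm
        rw [if_pos (by omega), if_neg (by simp [e1])]
        simp
      | succ i ih =>
        intro hi
        rw [← ih (by omega)]
        refine (hg _ _ (Gr_adj ι e1 (i + 1) (by omega) s s ?_)).symm
        have : e1 (i + 1) = 0 := by simp [e1]
        rw [this]
        simp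
    have h2 : g (ι (⟨0, by omega⟩, 0)) = g (ι (⟨0, by omega⟩, 1)) := by
      have h3 := hg _ _ (Gr_adj_close hN ι e1 0 0 0 (by decide))
      have h4 := h1 0 (5 * N - 1) (by omega)
      have h5 : (⟨5 * N - 1 + 1, by omega⟩ : Fin (5 * N + 1)) = ⟨5 * N, by omega⟩ := by
        apply Fin.ext
        show 5 * N - 1 + 1 = 5 * N
        omega
      rw [h5] at h4
      rw [h3, h4]
      rfl
    have h3 : ∀ a : Fin (5 * N + 1) × Fin 4, g (ι a) = g (ι (⟨0, by omega⟩, a.2)) := by
      rintro ⟨⟨i, hi⟩, s⟩
      rcases i with _ | i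
      · rfl
      · rw [h1 s i hi]
        have : ∀ s : Fin 4, Equiv.swap 0 1 s = s ∨ (s = 0 ∧ Equiv.swap 0 1 s = 1) ∨
            (s = 1 ∧ Equiv.swap 0 1 s = 0) := by decide
        rcases this s with h4 | ⟨h4, h5⟩ | ⟨h4, h5⟩
        · rw [h4]
        · rw [h5, h4]; exact h2.symm
        · rw [h5, h4]; exact h2
    obtain ⟨a, b, rfl, rfl, hab⟩ := Gr_zero_adj ι hwz
    rw [h3 a, h3 b, hab]
  · intro hsub
    let g : V → Bool := fun w => decide (∃ i, ι (i, 0) = w)
    have hgι : ∀ a, g (ι a) = decide (a.2 = 0) := by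
      intro a
      show decide _ = decide _
      rw [decide_eq_decide]
      constructor
      · rintro ⟨i, hi⟩
        have := ι.injective hi
        rw [← this]
      · intro h
        exact ⟨a.1, by rw [← h]⟩
    have h1 : g ∈ LC (Gr ι 0 0 0) := by
      intro w z hwz
      obtain ⟨a, b, rfl, rfl, hab⟩ := Gr_zero_adj ι hwz
      rw [hgι, hgι, hab]
    have h2 := hsub h1 _ _ (Gr_adj ι e1 0 (by omega) 0 1 (by
      rw [if_pos (by omega), if_neg (by simp [e1])]; rfl))
    rw [hgι, hgι] at h2
    simp at h2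

/-- parity -/
def par (N : ℕ) (x u v : ℕ → ZMod 2) : ZMod 2 :=
  ∑ i ∈ Finset.range N, (x i + u i * v i)

theorem zmod2 : ∀ a : ZMod 2, a = 0 ∨ a = 1 := by decide

theorem Gr_iso_iff [Fintype V] [DecidableEq V] {N : ℕ} (hN : 1 ≤ N)
    (ι : Fin (5 * N + 1) × Fin 4 ↪ V) (x u v x' u' v' : ℕ → ZMod 2) :
    Nonempty (Gr ι x u v ≃g Gr ι x' u' v') ↔ par N x u v = par N x' u' v' := by
  have key : ∀ x u v x' u' v' : ℕ → ZMod 2, par N x u v = par N x' u' v' →
      Nonempty (Gr ι x u v ≃g Gr ι x' u' v') := by
    intro x u v x' u' v' h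
    apply Gr_iso
    have h1 : ∑ i ∈ Finset.range N, (x i + x' i) +
        ∑ i ∈ Finset.range N, (u i * v i + u' i * v' i) = par N x u v + par N x' u' v' := by
      unfold par
      rw [← Finset.sum_add_distrib, ← Finset.sum_add_distrib]
      apply Finset.sum_congr rfl
      intro i _
      ring
    rw [h1, h, CharTwo.add_self_eq_zero]
  refine ⟨?_, key _ _ _ _ _ _⟩
  have p0 : par N 0 0 0 = 0 := by simp [par]
  have p1 : par N e1 0 0 = 1 := by
    unfold par
    rw [Finset.sum_eq_single 0]
    · simp [e1]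
    · intro i _ hi
      simp [e1, hi]
    · intro h
      exact absurd (Finset.mem_range.2 (by omega)) h
  have hn : ¬ Nonempty (Gr ι 0 0 0 ≃g Gr ι e1 0 0) := by
    rintro ⟨φ⟩
    have h1 := LC_ncard_le φ
    have h2 := Set.ncard_lt_ncard (LC_ssubset hN ι) (Set.toFinite _)
    omega
  rintro ⟨φ⟩
  rcases zmod2 (par N x u v) with h | h <;> rcases zmod2 (par N x' u' v') with h' | h'
  · rw [h, h']
  · exfalso
    obtain ⟨ψ⟩ := key 0 0 0 x u v (by rw [p0, h])
    obtain ⟨ψ'⟩ := key x' u' v' e1 0 0 (by rw [p1, h'])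
    exact hn ⟨(ψ.trans φ).trans ψ'⟩
  · exfalso
    obtain ⟨ψ⟩ := key e1 0 0 x u v (by rw [p1, h])
    obtain ⟨ψ'⟩ := key x' u' v' 0 0 0 (by rw [p0, h'])
    exact hn ⟨((ψ.trans φ).trans ψ').symm⟩
  · rw [h, h']

/-! ### Counting -/

theorem lindsey {J : Type} [Fintype J] [DecidableEq J] (A B : Finset (J → ZMod 2))
    (h : ∀ a ∈ A, ∀ b ∈ B, a ⬝ᵥ b = 0) : A.card * B.card ≤ 2 ^ Fintype.card J := by
  classical
  have : Fact (Nat.Prime 2) := ⟨Nat.prime_two⟩
  let Φ := dotProductEquiv (ZMod 2) J
  let W : Subspace (ZMod 2) (J → ZMod 2) := Submodule.span (ZMod 2) (A : Set (J → ZMod 2))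
  have h1 : A.card ≤ 2 ^ Module.finrank (ZMod 2) W := by
    have e1 : Fintype.card W = 2 ^ Module.finrank (ZMod 2) W := by
      rw [Module.card_eq_pow_finrank (K := ZMod 2) (V := W), ZMod.card]
    rw [← e1, ← Fintype.card_coe]
    exact Fintype.card_le_of_injective
      (fun a : A => (⟨a.1, Submodule.subset_span a.2⟩ : W))
      (fun a b hab => Subtype.ext (congrArg (fun w : W => w.1) hab))
  have h2 : B.card ≤ 2 ^ Module.finrank (ZMod 2) W.dualAnnihilator := by
    have : Finite W.dualAnnihilator := Module.finite_of_finite (ZMod 2)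
    let : Fintype W.dualAnnihilator := Fintype.ofFinite _
    have e1 : Fintype.card W.dualAnnihilator =
        2 ^ Module.finrank (ZMod 2) W.dualAnnihilator := by
      rw [Module.card_eq_pow_finrank (K := ZMod 2) (V := W.dualAnnihilator), ZMod.card]
    rw [← e1, ← Fintype.card_coe]
    refine Fintype.card_le_of_injective
      (fun b : B => (⟨Φ b.1, ?_⟩ : W.dualAnnihilator))
      (fun a b hab => Subtype.ext (Φ.injective (congrArg (fun w : W.dualAnnihilator => w.1) hab)))
    rw [Submodule.mem_dualAnnihilator]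
    intro w hw
    refine Submodule.span_induction ?_ ?_ ?_ ?_ hw
    · intro a ha
      show b.1 ⬝ᵥ a = 0
      rw [dotProduct_comm]
      exact h a ha b.1 b.2
    · exact map_zero _
    · intro a a' _ _ ha ha'
      rw [map_add, ha, ha', add_zero]
    · intro c a _ ha
      rw [map_smul, ha, smul_zero]
  have h3 := Subspace.finrank_add_finrank_dualAnnihilator_eq W
  rw [Module.finrank_fintype_fun_eq_card] at h3
  calc A.card * B.card ≤ 2 ^ Module.finrank (ZMod 2) W *
        2 ^ Module.finrank (ZMod 2) W.dualAnnihilator := Nat.mul_le_mul h1 h2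
    _ = 2 ^ Fintype.card J := by rw [← pow_add, h3]

theorem card_le_of_dot {N : ℕ} {P J : Type} [Fintype J] [DecidableEq J]
    (hJ : Fintype.card J = 2 * N) (C : Finset P) (z w : P → J → ZMod 2)
    (hz : Set.InjOn z C) (hw : Set.InjOn w C)
    (h : ∀ p ∈ C, ∀ q ∈ C, z p ⬝ᵥ w q = 0) : C.card ≤ 2 ^ N := by
  classical
  have h1 := lindsey (C.image z) (C.image w) (by
    intro a ha b hb
    obtain ⟨p, hp, rfl⟩ := Finset.mem_image.1 ha
    obtain ⟨q, hq, rfl⟩ := Finset.mem_image.1 hb
    exact h p hp q hq)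
  rw [Finset.card_image_of_injOn hz, Finset.card_image_of_injOn hw, hJ, two_mul, pow_add] at h1
  exact Nat.mul_self_le_mul_self_iff.1 h1


/-- Parameters of the pairs. -/
abbrev Par (N : ℕ) : Type :=
  (Fin N → ZMod 2) × (Fin N → ZMod 2) × (Fin N → ZMod 2) × (Fin N → ZMod 2)

def ex {N : ℕ} (x : Fin N → ZMod 2) : ℕ → ZMod 2 := fun i => if h : i < N then x ⟨i, h⟩ else 0

theorem ex_val {N : ℕ} (x : Fin N → ZMod 2) (i : Fin N) : ex x i.val = x i := by
  unfold ex
  rw [dif_pos i.2]

theorem ex_map {N : ℕ} (m : ZMod 2 → ZMod 2 → ZMod 2 → ZMod 2) (hm : m 0 0 0 = 0)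
    (x y z : Fin N → ZMod 2) :
    (fun i => m (ex x i) (ex y i) (ex z i)) = ex (fun i => m (x i) (y i) (z i)) := by
  funext i
  unfold ex
  by_cases h : i < N
  · simp only [dif_pos h]
  · simp only [dif_neg h, hm]

/-- The pair of graphs with given parameters. -/
def enc {N : ℕ} (ι : Fin (5 * N + 1) × Fin 4 ↪ V) (p : Par N) : SimpleGraph V × SimpleGraph V :=
  (Gr ι (ex p.1) (ex p.2.2.1) (ex p.2.2.2), Gr ι (ex p.2.1) 0 0)

def par4 {N : ℕ} (p : Par N) : ZMod 2 := ∑ i, (p.1 i + p.2.1 i + p.2.2.1 i * p.2.2.2 i)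

theorem zne : ∀ a : ZMod 2, a ≠ 0 ↔ a = 1 := by decide

theorem enc_iso [Fintype V] [DecidableEq V] {N : ℕ} (hN : 1 ≤ N)
    (ι : Fin (5 * N + 1) × Fin 4 ↪ V) (p : Par N) :
    (¬ Nonempty ((enc ι p).1 ≃g (enc ι p).2)) ↔ par4 p = 1 := by
  unfold enc
  rw [Gr_iso_iff hN]
  have h1 : par N (ex p.1) (ex p.2.2.1) (ex p.2.2.2) = ∑ i, (p.1 i + p.2.2.1 i * p.2.2.2 i) := by
    unfold par
    rw [← Fin.sum_univ_eq_sum_range (fun i => ex p.1 i + ex p.2.2.1 i * ex p.2.2.2 i)]
    exact Finset.sum_congr rfl fun i _ => by rw [ex_val, ex_val, ex_val]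
  have h2 : par N (ex p.2.1) 0 0 = ∑ i, p.2.1 i := by
    unfold par
    rw [← Fin.sum_univ_eq_sum_range (fun i => ex p.2.1 i + (0 : ℕ → ZMod 2) i * (0 : ℕ → ZMod 2) i)]
    exact Finset.sum_congr rfl fun i _ => by rw [ex_val]; simp
  have h3 : par4 p = ∑ i, (p.1 i + p.2.2.1 i * p.2.2.2 i) - ∑ i, p.2.1 i := by
    unfold par4
    rw [← Finset.sum_sub_distrib]
    apply Finset.sum_congr rfl
    intro i _
    rw [CharTwo.sub_eq_add]
    ring
  rw [h1, h2, ← sub_eq_zero, ← h3]
  exact zne _

theorem app_Gr {N : ℕ} (ι : Fin (5 * N + 1) × Fin 4 ↪ V) (f : (Fin 3 → Bool) → Bool)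
    (h0 : ∀ b, f (fun _ => b) = b) (m : ZMod 2 → ZMod 2 → ZMod 2 → ZMod 2)
    (H1 : ∀ a : Fin 3 → ZMod 2, ∀ s t, f (fun j => sw (decide (a j = 0)) (decide (a j = 1)) s t) =
      sw (decide (m (a 0) (a 1) (a 2) = 0)) (decide (m (a 0) (a 1) (a 2) = 1)) s t)
    (H2 : ∀ a : Fin 3 → ZMod 2, ∀ s t, f (fun j => gr (Pa (a j)) s t) =
      gr (Pa (m (a 0) (a 1) (a 2))) s t)
    (H3 : ∀ a : Fin 3 → ZMod 2, ∀ s t, f (fun j => gr (Pb (a j)) s t) =
      gr (Pb (m (a 0) (a 1) (a 2))) s t)
    (x u v : Fin 3 → ℕ → ZMod 2) :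
    app f (fun j => Gr ι (x j) (u j) (v j)) = Gr ι (fun i => m (x 0 i) (x 1 i) (x 2 i))
      (fun i => m (u 0 i) (u 1 i) (u 2 i)) (fun i => m (v 0 i) (v 1 i) (v 2 i)) := by
  apply app_lay f h0
  intro i s t
  unfold Rl
  by_cases h1 : i < N
  · simp only [if_pos h1]
    exact H1 (fun j => x j i) s t
  · by_cases h2 : (i - N) % 2 = 0
    · simp only [if_neg h1, if_pos h2]
      exact H2 (fun j => u j _) s t
    · simp only [if_neg h1, if_neg h2]
      exact H3 (fun j => v j _) s t

/-- The operation on the parameters. -/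
def opP {N : ℕ} (m : ZMod 2 → ZMod 2 → ZMod 2 → ZMod 2) (p q r : Par N) : Par N :=
  (fun i => m (p.1 i) (q.1 i) (r.1 i), fun i => m (p.2.1 i) (q.2.1 i) (r.2.1 i),
    fun i => m (p.2.2.1 i) (q.2.2.1 i) (r.2.2.1 i), fun i => m (p.2.2.2 i) (q.2.2.2 i) (r.2.2.2 i))

theorem closed3 {N : ℕ} (ι : Fin (5 * N + 1) × Fin 4 ↪ V) (f : (Fin 3 → Bool) → Bool)
    (h0 : ∀ b, f (fun _ => b) = b) (m : ZMod 2 → ZMod 2 → ZMod 2 → ZMod 2) (hm : m 0 0 0 = 0)
    (H1 : ∀ a : Fin 3 → ZMod 2, ∀ s t, f (fun j => sw (decide (a j = 0)) (decide (a j = 1)) s t) =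
      sw (decide (m (a 0) (a 1) (a 2) = 0)) (decide (m (a 0) (a 1) (a 2) = 1)) s t)
    (H2 : ∀ a : Fin 3 → ZMod 2, ∀ s t, f (fun j => gr (Pa (a j)) s t) =
      gr (Pa (m (a 0) (a 1) (a 2))) s t)
    (H3 : ∀ a : Fin 3 → ZMod 2, ∀ s t, f (fun j => gr (Pb (a j)) s t) =
      gr (Pb (m (a 0) (a 1) (a 2))) s t)
    (S : Set (SimpleGraph V × SimpleGraph V)) (hS : Closed f S) (p q r : Par N)
    (hp : enc ι p ∈ S) (hq : enc ι q ∈ S) (hr : enc ι r ∈ S) : enc ι (opP m p q r) ∈ S := by
  have h1 := hS (fun j => enc ι (![p, q, r] j)) (by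
    intro j
    fin_cases j
    · exact hp
    · exact hq
    · exact hr)
  have h2 := app_Gr ι f h0 m H1 H2 H3 (fun j => ex (![p, q, r] j).1)
    (fun j => ex (![p, q, r] j).2.2.1) (fun j => ex (![p, q, r] j).2.2.2)
  have h3 := app_Gr ι f h0 m H1 H2 H3 (fun j => ex (![p, q, r] j).2.1) (fun _ => 0) (fun _ => 0)
  have h4 : (app f (fun i => (enc ι (![p, q, r] i)).1), app f (fun i => (enc ι (![p, q, r] i)).2)) =
      enc ι (opP m p q r) := by
    refine Prod.ext ?_ ?_
    · refine h2.trans ?_
      show Gr ι _ _ _ = Gr ι _ _ _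
      congr 1
      · exact ex_map m hm _ _ _
      · exact ex_map m hm _ _ _
      · exact ex_map m hm _ _ _
    · refine h3.trans ?_
      show Gr ι _ _ _ = Gr ι _ _ _
      congr 1
      · exact ex_map m hm _ _ _
      · funext i; exact hm
      · funext i; exact hm
  rw [h4] at h1
  exact h1

def mMaj (a b c : ZMod 2) : ZMod 2 := a * b + b * c + a * c
def mXor (a b c : ZMod 2) : ZMod 2 := a + b + c

theorem closed_maj {N : ℕ} (ι : Fin (5 * N + 1) × Fin 4 ↪ V)
    (S : Set (SimpleGraph V × SimpleGraph V)) (hS : Closed opMaj S) (p q r : Par N)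
    (hp : enc ι p ∈ S) (hq : enc ι q ∈ S) (hr : enc ι r ∈ S) : enc ι (opP mMaj p q r) ∈ S :=
  closed3 ι opMaj (by decide) mMaj (by decide) (by decide) (by decide) (by decide) S hS p q r
    hp hq hr

theorem closed_xor {N : ℕ} (ι : Fin (5 * N + 1) × Fin 4 ↪ V)
    (S : Set (SimpleGraph V × SimpleGraph V)) (hS : Closed opXor S) (p q r : Par N)
    (hp : enc ι p ∈ S) (hq : enc ι q ∈ S) (hr : enc ι r ∈ S) : enc ι (opP mXor p q r) ∈ S :=
  closed3 ι opXor (by decide) mXor (by decide) (by decide) (by decide) (by decide) S hS p q r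
    hp hq hr

/-- Conjunction and disjunction. -/
theorem closed2 [Fintype V] [DecidableEq V] {N : ℕ} (ι : Fin (5 * N + 1) × Fin 4 ↪ V)
    (f : (Fin 2 → Bool) → Bool) (h0 : ∀ b, f (fun _ => b) = b)
    (hf : ∃ w, ∀ a : ZMod 2, f ![decide (a = 0), decide (a + 1 = 0)] = w ∧
      f ![decide (a = 1), decide (a + 1 = 1)] = w)
    (S : Set (SimpleGraph V × SimpleGraph V)) (hS : Closed f S)
    (hni : ∀ P ∈ S, ¬ Nonempty (P.1 ≃g P.2)) (p q : Par N)
    (hp : enc ι p ∈ S) (hq : enc ι q ∈ S) (h1 : p.1 + p.2.1 = q.1 + q.2.1)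
    (h2 : p.2.2 = q.2.2) : p = q := by
  by_contra hpq
  obtain ⟨w, hw⟩ := hf
  have h3 := hS (fun j => enc ι (![p, q] j)) (by
    intro j
    fin_cases j
    · exact hp
    · exact hq)
  -- the two graphs of the result
  let pp : (Fin 2 → ℕ → ZMod 2) → ℕ → Bool := fun x i => f (fun j => decide (x j i = 0))
  let cc : (Fin 2 → ℕ → ZMod 2) → ℕ → Bool := fun x i => f (fun j => decide (x j i = 1))
  have h4 : ∀ (x : Fin 2 → ℕ → ZMod 2) (u v : ℕ → ZMod 2),
      app f (fun j => Gr ι (x j) u v) = lay ι (Rl N (pp x) (cc x) u v) := by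
    intro x u v
    apply app_lay f h0
    intro i s t
    unfold Rl
    by_cases h5 : i < N
    · simp only [if_pos h5]
      show _ = sw (f _) (f _) s t
      unfold sw
      by_cases h6 : s < 2 ∧ t < 2
      · simp only [if_pos h6]
        by_cases h7 : s = t
        · simp only [if_pos h7]
        · simp only [if_neg h7]
      · simp only [if_neg h6]
        exact h0 _
    · simp only [if_neg h5]
      exact h0 _
  have e1 : (fun j => (enc ι (![p, q] j)).1) =
      fun j => Gr ι (![ex p.1, ex q.1] j) (ex p.2.2.1) (ex p.2.2.2) := by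
    funext j
    fin_cases j
    · rfl
    · show Gr ι (ex q.1) (ex q.2.2.1) (ex q.2.2.2) = Gr ι (ex q.1) (ex p.2.2.1) (ex p.2.2.2)
      rw [h2]
  have e2 : (fun j => (enc ι (![p, q] j)).2) =
      fun j => Gr ι (![ex p.2.1, ex q.2.1] j) 0 0 := by
    funext j
    fin_cases j <;> rfl
  apply hni _ h3
  show Nonempty (app f (fun j => (enc ι (![p, q] j)).1) ≃g app f (fun j => (enc ι (![p, q] j)).2))
  rw [e1, e2, h4, h4]
  have key : ∀ (a b : ZMod 2), a ≠ b → b = a + 1 := by decide
  have h10 : ∀ i : Fin N, p.1 i + p.2.1 i = q.1 i + q.2.1 i := fun i => congrFun h1 i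
  have ne : ∀ i : Fin N, p.1 i ≠ q.1 i → p.2.1 i ≠ q.2.1 i := by
    intro i h h'
    apply h
    have := h10 i
    rw [h'] at this
    exact add_right_cancel this
  have eq : ∀ i : Fin N, p.1 i = q.1 i → p.2.1 i = q.2.1 i := by
    intro i h
    have := h10 i
    rw [h] at this
    exact add_left_cancel this
  have hfree : ∀ (i : Fin N) (x y : Fin N → ZMod 2), x i ≠ y i →
      pp ![ex x, ex y] i.val = w ∧ cc ![ex x, ex y] i.val = w := by
    intro i x y hxy
    have h5 := key _ _ hxy
    have a1 : (fun j => decide ((![ex x, ex y] : Fin 2 → ℕ → ZMod 2) j i.val = 0)) =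
        ![decide (x i = 0), decide (x i + 1 = 0)] := by
      funext j
      fin_cases j
      · show decide (ex x i.val = 0) = decide (x i = 0)
        rw [ex_val]
      · show decide (ex y i.val = 0) = decide (x i + 1 = 0)
        rw [ex_val, h5]
    have a2 : (fun j => decide ((![ex x, ex y] : Fin 2 → ℕ → ZMod 2) j i.val = 1)) =
        ![decide (x i = 1), decide (x i + 1 = 1)] := by
      funext j
      fin_cases j
      · show decide (ex x i.val = 1) = decide (x i = 1)
        rw [ex_val]
      · show decide (ex y i.val = 1) = decide (x i + 1 = 1)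
        rw [ex_val, h5]
    refine ⟨?_, ?_⟩
    · show f (fun j => decide ((![ex x, ex y] : Fin 2 → ℕ → ZMod 2) j i.val = 0)) = w
      rw [a1]
      exact (hw _).1
    · show f (fun j => decide ((![ex x, ex y] : Fin 2 → ℕ → ZMod 2) j i.val = 1)) = w
      rw [a2]
      exact (hw _).2
  have hfix : ∀ (i : Fin N) (x y : Fin N → ZMod 2), x i = y i →
      pp ![ex x, ex y] i.val = decide (x i = 0) ∧ cc ![ex x, ex y] i.val = decide (x i = 1) := by
    intro i x y hxy
    have a1 : (fun j => decide ((![ex x, ex y] : Fin 2 → ℕ → ZMod 2) j i.val = 0)) =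
        fun _ => decide (x i = 0) := by
      funext j
      fin_cases j
      · show decide (ex x i.val = 0) = decide (x i = 0)
        rw [ex_val]
      · show decide (ex y i.val = 0) = decide (x i = 0)
        rw [ex_val, hxy]
    have a2 : (fun j => decide ((![ex x, ex y] : Fin 2 → ℕ → ZMod 2) j i.val = 1)) =
        fun _ => decide (x i = 1) := by
      funext j
      fin_cases j
      · show decide (ex x i.val = 1) = decide (x i = 1)
        rw [ex_val]
      · show decide (ex y i.val = 1) = decide (x i = 1)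
        rw [ex_val, hxy]
    refine ⟨?_, ?_⟩
    · show f (fun j => decide ((![ex x, ex y] : Fin 2 → ℕ → ZMod 2) j i.val = 0)) = _
      rw [a1]
      exact h0 _
    · show f (fun j => decide ((![ex x, ex y] : Fin 2 → ℕ → ZMod 2) j i.val = 1)) = _
      rw [a2]
      exact h0 _
  apply free_iso
  · intro i hi
    by_cases h5 : p.1 ⟨i, hi⟩ = q.1 ⟨i, hi⟩
    · right
      have b1 := hfix ⟨i, hi⟩ _ _ h5
      have b2 := hfix ⟨i, hi⟩ _ _ (eq _ h5)
      exact ⟨_, _, b1.1, b1.2, b2.1, b2.2⟩
    · left
      have b1 := hfree ⟨i, hi⟩ _ _ h5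
      have b2 := hfree ⟨i, hi⟩ _ _ (ne _ h5)
      exact ⟨b1.1.trans b1.2.symm, b2.1.trans b1.2.symm, b2.2.trans b1.2.symm⟩
  · by_contra hcon
    apply hpq
    have h5 : ∀ i : Fin N, p.1 i = q.1 i := by
      intro i
      by_contra h5
      apply hcon
      have b1 := hfree i _ _ h5
      have b2 := hfree i _ _ (ne _ h5)
      exact ⟨i.val, i.2, b1.1.trans b1.2.symm, b2.1.trans b1.2.symm, b2.2.trans b1.2.symm⟩
    have h6 : p.1 = q.1 := funext h5
    have h7 : p.2.1 = q.2.1 := funext fun i => eq i (h5 i)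
    exact Prod.ext h6 (Prod.ext h7 h2)

theorem card_X (N : ℕ) : Fintype.card (Fin N → ZMod 2) = 2 ^ N := by
  rw [Fintype.card_fun, ZMod.card, Fintype.card_fin]

theorem main_bound [Fintype V] [DecidableEq V] {N : ℕ} (hN : 1 ≤ N)
    (ι : Fin (5 * N + 1) × Fin 4 ↪ V)
    (S : Set (SimpleGraph V × SimpleGraph V)) (hni : ∀ P ∈ S, ¬ Nonempty (P.1 ≃g P.2))
    (hS : Closed opAnd S ∨ Closed opOr S ∨ Closed opMaj S ∨ Closed opXor S)
    (C : Finset (Par N)) (hC : ∀ p, p ∈ C ↔ enc ι p ∈ S) : C.card ≤ 2 ^ N * (2 ^ N * 2 ^ N) := by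
  classical
  have hpar : ∀ p ∈ C, par4 p = 1 := fun p hp =>
    (enc_iso hN ι p).1 (hni _ ((hC p).1 hp))
  have key2 : ∀ f : (Fin 2 → Bool) → Bool, (∀ b, f (fun _ => b) = b) →
      (∃ w, ∀ a : ZMod 2, f ![decide (a = 0), decide (a + 1 = 0)] = w ∧
      f ![decide (a = 1), decide (a + 1 = 1)] = w) → Closed f S →
      C.card ≤ 2 ^ N * (2 ^ N * 2 ^ N) := by
    intro f h0 hf hSf
    have h1 : C.card ≤ (Finset.univ : Finset ((Fin N → ZMod 2) × (Fin N → ZMod 2) ×
        (Fin N → ZMod 2))).card := by
      apply Finset.card_le_card_of_injOn (fun p => (p.1 + p.2.1, p.2.2))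
      · intro p _
        exact Finset.mem_coe.2 (Finset.mem_univ _)
      · intro p hp q hq hpq
        exact closed2 ι f h0 hf S hSf hni p q ((hC p).1 hp) ((hC q).1 hq)
          (congrArg (fun z => z.1) hpq) (congrArg (fun z => z.2) hpq)
    rwa [Finset.card_univ, Fintype.card_prod, Fintype.card_prod, card_X] at h1
  rcases hS with hS | hS | hS | hS
  · exact key2 opAnd (by decide) ⟨false, by decide⟩ hS
  · exact key2 opOr (by decide) ⟨true, by decide⟩ hS
  · have h1 := Finset.card_le_mul_card_image (f := fun p : Par N => p.2.2) C (2 ^ N) (by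
      intro b _
      rcases (C.filter fun a => a.2.2 = b).eq_empty_or_nonempty with h | ⟨p0, hp0⟩
      · rw [h]; simp
      · have hb0 := (Finset.mem_filter.1 hp0).2
        apply card_le_of_dot (J := Fin N ⊕ Fin N) (N := N) (by simp [two_mul]) _
          (fun p => Sum.elim (p.1 - p0.1) (p.2.1 - p0.2.1))
          (fun p => Sum.elim (p.1 - p0.1) (p.2.1 - p0.2.1))
        · intro p hp q hq hpq
          have hp2 := (Finset.mem_filter.1 (Finset.mem_coe.1 hp)).2
          have hq2 := (Finset.mem_filter.1 (Finset.mem_coe.1 hq)).2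
          have e1 : p.1 = q.1 := by
            have := congrArg (fun z : Fin N ⊕ Fin N → ZMod 2 => z ∘ Sum.inl) hpq
            simpa using this
          have e2 : p.2.1 = q.2.1 := by
            have := congrArg (fun z : Fin N ⊕ Fin N → ZMod 2 => z ∘ Sum.inr) hpq
            simpa using this
          exact Prod.ext e1 (Prod.ext e2 (hp2.trans hq2.symm))
        · intro p hp q hq hpq
          have hp2 := (Finset.mem_filter.1 (Finset.mem_coe.1 hp)).2
          have hq2 := (Finset.mem_filter.1 (Finset.mem_coe.1 hq)).2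
          have e1 : p.1 = q.1 := by
            have := congrArg (fun z : Fin N ⊕ Fin N → ZMod 2 => z ∘ Sum.inl) hpq
            simpa using this
          have e2 : p.2.1 = q.2.1 := by
            have := congrArg (fun z : Fin N ⊕ Fin N → ZMod 2 => z ∘ Sum.inr) hpq
            simpa using this
          exact Prod.ext e1 (Prod.ext e2 (hp2.trans hq2.symm))
        · intro p hp q hq
          obtain ⟨hp1, hp2⟩ := Finset.mem_filter.1 hp
          obtain ⟨hq1, hq2⟩ := Finset.mem_filter.1 hq
          have hp01 := (Finset.mem_filter.1 hp0).1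
          have h2 : opP mMaj p0 p q ∈ C := (hC _).2
            (closed_maj ι S hS p0 p q ((hC _).1 hp01) ((hC _).1 hp1) ((hC _).1 hq1))
          have h3 := hpar _ h2
          have h4 := hpar _ hp01
          have h5 : par4 (opP mMaj p0 p q) + par4 p0 = 0 := by
            rw [h3, h4]; decide
          rw [← h5]
          unfold par4
          rw [← Finset.sum_add_distrib]
          show ∑ j, _ = _
          rw [Fintype.sum_sum_type, ← Finset.sum_add_distrib]
          apply Finset.sum_congr rfl
          intro i _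
          simp only [Sum.elim_inl, Sum.elim_inr, Pi.sub_apply, opP]
          have e1 : p.2.2 = p0.2.2 := hp2.trans hb0.symm
          have e2 : q.2.2 = p0.2.2 := hq2.trans hb0.symm
          rw [e1, e2]
          generalize p0.2.2.1 i = u
          generalize p0.2.2.2 i = v
          generalize p.1 i = x
          generalize q.1 i = x'
          generalize p0.1 i = x0
          generalize p.2.1 i = y
          generalize q.2.1 i = y'
          generalize p0.2.1 i = y0
          have hmaj : ∀ a b c : ZMod 2, mMaj a b c = a + (b - a) * (c - a) := by decide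
          have hmaj' : ∀ a : ZMod 2, mMaj a a a = a := by decide
          have htwo : ∀ a : ZMod 2, a + a = 0 := by decide
          rw [hmaj, hmaj, hmaj', hmaj']
          have : x0 + (x - x0) * (x' - x0) + (y0 + (y - y0) * (y' - y0)) + u * v +
              (x0 + y0 + u * v) = (x - x0) * (x' - x0) + (y - y0) * (y' - y0) +
              ((x0 + y0 + u * v) + (x0 + y0 + u * v)) := by ring
          rw [this, htwo, add_zero])
    refine h1.trans (Nat.mul_le_mul_left _ ?_)
    have h2 := Finset.card_le_univ (C.image fun p : Par N => p.2.2)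
    rwa [Fintype.card_prod, card_X] at h2
  · have h1 := Finset.card_le_mul_card_image (f := fun p : Par N => (p.1, p.2.1)) C (2 ^ N) (by
      intro b _
      rcases (C.filter fun a => (a.1, a.2.1) = b).eq_empty_or_nonempty with h | ⟨p0, hp0⟩
      · rw [h]; simp
      · have hb0 := (Finset.mem_filter.1 hp0).2
        apply card_le_of_dot (J := Fin N ⊕ Fin N) (N := N) (by simp [two_mul]) _
          (fun p => Sum.elim (p.2.2.1 - p0.2.2.1) (p.2.2.2 - p0.2.2.2))
          (fun p => Sum.elim (p.2.2.2 - p0.2.2.2) (p.2.2.1 - p0.2.2.1))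
        · intro p hp q hq hpq
          have hp2 := (Finset.mem_filter.1 (Finset.mem_coe.1 hp)).2
          have hq2 := (Finset.mem_filter.1 (Finset.mem_coe.1 hq)).2
          have e0 := hp2.trans hq2.symm
          have e1 : p.2.2.1 = q.2.2.1 := by
            have := congrArg (fun z : Fin N ⊕ Fin N → ZMod 2 => z ∘ Sum.inl) hpq
            simpa using this
          have e2 : p.2.2.2 = q.2.2.2 := by
            have := congrArg (fun z : Fin N ⊕ Fin N → ZMod 2 => z ∘ Sum.inr) hpq
            simpa using this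
          exact Prod.ext (congrArg (fun z => z.1) e0) (Prod.ext (congrArg (fun z => z.2) e0)
            (Prod.ext e1 e2))
        · intro p hp q hq hpq
          have hp2 := (Finset.mem_filter.1 (Finset.mem_coe.1 hp)).2
          have hq2 := (Finset.mem_filter.1 (Finset.mem_coe.1 hq)).2
          have e0 := hp2.trans hq2.symm
          have e1 : p.2.2.1 = q.2.2.1 := by
            have := congrArg (fun z : Fin N ⊕ Fin N → ZMod 2 => z ∘ Sum.inr) hpq
            simpa using this
          have e2 : p.2.2.2 = q.2.2.2 := by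
            have := congrArg (fun z : Fin N ⊕ Fin N → ZMod 2 => z ∘ Sum.inl) hpq
            simpa using this
          exact Prod.ext (congrArg (fun z => z.1) e0) (Prod.ext (congrArg (fun z => z.2) e0)
            (Prod.ext e1 e2))
        · intro p hp q hq
          obtain ⟨hp1, hp2⟩ := Finset.mem_filter.1 hp
          obtain ⟨hq1, hq2⟩ := Finset.mem_filter.1 hq
          have hp01 := (Finset.mem_filter.1 hp0).1
          have h2 : opP mXor p0 p q ∈ C := (hC _).2
            (closed_xor ι S hS p0 p q ((hC _).1 hp01) ((hC _).1 hp1) ((hC _).1 hq1))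
          have h3 := hpar _ h2
          have h4 := hpar _ hp01
          have h5 : (par4 (opP mXor p0 p q) + par4 p0) + (par4 p + par4 q) = 0 := by
            rw [h3, h4, hpar _ hp1, hpar _ hq1]; decide
          rw [← h5]
          unfold par4
          rw [← Finset.sum_add_distrib, ← Finset.sum_add_distrib, ← Finset.sum_add_distrib]
          show ∑ j, _ = _
          rw [Fintype.sum_sum_type, ← Finset.sum_add_distrib]
          apply Finset.sum_congr rfl
          intro i _
          simp only [Sum.elim_inl, Sum.elim_inr, Pi.sub_apply, opP]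
          have e1 : (p.1, p.2.1) = (p0.1, p0.2.1) := hp2.trans hb0.symm
          have e2 : (q.1, q.2.1) = (p0.1, p0.2.1) := hq2.trans hb0.symm
          have e3 : p.1 = p0.1 := congrArg (fun z => z.1) e1
          have e4 : p.2.1 = p0.2.1 := congrArg (fun z => z.2) e1
          have e5 : q.1 = p0.1 := congrArg (fun z => z.1) e2
          have e6 : q.2.1 = p0.2.1 := congrArg (fun z => z.2) e2
          rw [e3, e4, e5, e6]
          generalize p0.2.2.1 i = u0
          generalize p0.2.2.2 i = v0
          generalize p.2.2.1 i = u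
          generalize p.2.2.2 i = v
          generalize q.2.2.1 i = u'
          generalize q.2.2.2 i = v'
          generalize p0.1 i = x
          generalize p0.2.1 i = y
          have hx : ∀ a : ZMod 2, mXor a a a = a := by decide
          have hq : ∀ u0 v0 u v u' v' : ZMod 2, (u - u0) * (v' - v0) + (v - v0) * (u' - u0) =
              mXor u0 u u' * mXor v0 v v' + u0 * v0 + (u * v + u' * v') := by decide
          have htwo : ∀ a : ZMod 2, a + a = 0 := by decide
          rw [hx, hx, hq]
          have : x + y + mXor u0 u u' * mXor v0 v v' + (x + y + u0 * v0) +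
              (x + y + u * v + (x + y + u' * v')) = mXor u0 u u' * mXor v0 v v' + u0 * v0 +
              (u * v + u' * v') + ((x + y) + (x + y) + ((x + y) + (x + y))) := by ring
          rw [this, htwo, add_zero])
    refine h1.trans (Nat.mul_le_mul_left _ ?_)
    have h2 := Finset.card_le_univ (C.image fun p : Par N => (p.1, p.2.1))
    rwa [Fintype.card_prod, card_X] at h2

theorem card_odd {N : ℕ} (hN : 1 ≤ N) :
    2 * (Finset.univ.filter fun p : Par N => par4 p = 1).card = 2 ^ N * (2 ^ N * (2 ^ N * 2 ^ N)) := by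
  classical
  let σ : Par N → Par N := fun p => (p.1 + Pi.single (⟨0, hN⟩ : Fin N) 1, p.2)
  have hσ : ∀ p, par4 (σ p) = par4 p + 1 := by
    intro p
    have h1 : (∑ i, (Pi.single (⟨0, hN⟩ : Fin N) (1 : ZMod 2) : Fin N → ZMod 2) i) = 1 :=
      by simp
    rw [← h1]
    unfold par4
    rw [← Finset.sum_add_distrib]
    apply Finset.sum_congr rfl
    intro i _
    show (p.1 i + (Pi.single (⟨0, hN⟩ : Fin N) (1 : ZMod 2) : Fin N → ZMod 2) i) + p.2.1 i +
      p.2.2.1 i * p.2.2.2 i = _
    ring
  have hσσ : ∀ p, σ (σ p) = p := by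
    intro p
    have htwo : ∀ a : ZMod 2, a + a = 0 := by decide
    refine Prod.ext ?_ rfl
    show p.1 + Pi.single (⟨0, hN⟩ : Fin N) 1 + Pi.single (⟨0, hN⟩ : Fin N) 1 = p.1
    funext i
    rw [Pi.add_apply, Pi.add_apply, add_assoc, htwo, add_zero]
  have h1 : (Finset.univ.filter fun p : Par N => par4 p = 1).card =
      (Finset.univ.filter fun p : Par N => ¬ par4 p = 1).card := by
    apply Finset.card_bij' (fun p _ => σ p) (fun p _ => σ p)
    · intro p hp
      rw [Finset.mem_filter] at hp ⊢
      refine ⟨Finset.mem_univ _, ?_⟩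
      rw [hσ, hp.2]
      decide
    · intro p hp
      rw [Finset.mem_filter] at hp ⊢
      refine ⟨Finset.mem_univ _, ?_⟩
      rw [hσ]
      have := hp.2
      revert this
      generalize par4 p = a
      revert a
      decide
    · intro p _
      exact hσσ p
    · intro p _
      exact hσσ p
  have h2 := Finset.card_filter_add_card_filter_not (s := (Finset.univ : Finset (Par N)))
    (fun p => par4 p = 1)
  rw [← h1, Finset.card_univ, Fintype.card_prod, Fintype.card_prod, Fintype.card_prod, card_X] at h2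
  omega

theorem tract {S : Set (SimpleGraph V × SimpleGraph V)} (hni : ∀ P ∈ S, ¬ Nonempty (P.1 ≃g P.2))
    (h : Tractable S) : Closed opAnd S ∨ Closed opOr S ∨ Closed opMaj S ∨ Closed opXor S := by
  classical
  obtain ⟨k, f, h1, h2, h3⟩ := h
  by_cases hc : f (fun _ => false) = f (fun _ => true)
  · left
    intro P hP
    exfalso
    apply hni _ (h3 (fun _ => P 0) fun _ => hP 0)
    have : app f (fun _ => (P 0).1) = app f (fun _ => (P 0).2) := by
      ext u v
      show (u ≠ v ∧ f (fun _ => decide ((P 0).1.Adj u v)) = true) ↔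
        (u ≠ v ∧ f (fun _ => decide ((P 0).2.Adj u v)) = true)
      have h4 : ∀ b b' : Bool, f (fun _ => b) = f (fun _ => b') := by
        intro b b'
        cases b <;> cases b' <;> simp [hc]
      rw [h4 (decide ((P 0).1.Adj u v)) (decide ((P 0).2.Adj u v))]
    show Nonempty (app f (fun _ => (P 0).1) ≃g app f (fun _ => (P 0).2))
    rw [this]
    exact ⟨SimpleGraph.Iso.refl⟩
  · cases h4 : f (fun _ => false)
    · have h5 : f (fun _ => true) = true := by
        rw [h4] at hc
        revert hc
        cases f (fun _ => true) <;> simp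
      exact post f (by intro b; cases b <;> assumption) h1 S h3
    · have h5 : f (fun _ => true) = false := by
        rw [h4] at hc
        revert hc
        cases f (fun _ => true) <;> simp
      have h6 : ∀ b, f (fun _ => b) = !b := by
        intro b; cases b
        · exact h4
        · exact h5
      apply post (fun x => f (fun _ => f x)) _ _ S (closed_comp h3 (fun _ => f) fun _ => h3)
      · intro b
        rw [h6, h6, Bool.not_not]
      · intro i hi
        apply h2 i
        funext x
        have := congrFun hi x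
        rw [h6] at this
        rw [← this, Bool.not_not]

theorem bound (N n t : ℕ) (hN : 1 ≤ N) (hn : 20 * N + 4 ≤ n) (h : NonIsoCover n t) :
    2 ^ N ≤ 2 * t := by
  classical
  obtain ⟨S, hS, hcov⟩ := h
  have hcard : Fintype.card (Fin (5 * N + 1) × Fin 4) ≤ Fintype.card (Fin n) := by
    rw [Fintype.card_prod, Fintype.card_fin, Fintype.card_fin, Fintype.card_fin]
    omega
  obtain ⟨ι⟩ := Function.Embedding.nonempty_of_card_le hcard
  have hni : ∀ i, ∀ P ∈ S i, ¬ Nonempty (P.1 ≃g P.2) := fun i P hP =>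
    (hcov P.1 P.2).2 ⟨i, hP⟩
  have h1 : (Finset.univ.filter fun p : Par N => par4 p = 1) ⊆
      Finset.univ.biUnion fun i => Finset.univ.filter fun p => enc ι p ∈ S i := by
    intro p hp
    have h2 := (enc_iso hN ι p).2 (Finset.mem_filter.1 hp).2
    obtain ⟨i, hi⟩ := (hcov _ _).1 h2
    exact Finset.mem_biUnion.2 ⟨i, Finset.mem_univ _, Finset.mem_filter.2 ⟨Finset.mem_univ _, hi⟩⟩
  have h2 : (Finset.univ.filter fun p : Par N => par4 p = 1).card ≤
      t * (2 ^ N * (2 ^ N * 2 ^ N)) := by
    refine (Finset.card_le_card h1).trans (Finset.card_biUnion_le.trans ?_)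
    refine (Finset.sum_le_sum fun i _ => main_bound hN ι (S i) (hni i) (tract (hni i) (hS i)) _
      fun p => by simp).trans ?_
    rw [Finset.sum_const, Finset.card_univ, Fintype.card_fin, smul_eq_mul]
  have h3 := card_odd hN
  have h4 : 2 ^ N * (2 ^ N * (2 ^ N * 2 ^ N)) ≤ (2 * t) * (2 ^ N * (2 ^ N * 2 ^ N)) := by
    rw [← h3]
    calc _ ≤ 2 * (t * (2 ^ N * (2 ^ N * 2 ^ N))) := Nat.mul_le_mul_left _ h2
      _ = _ := by ring
  exact Nat.le_of_mul_le_mul_right h4 (by positivity)

theorem main (n t : ℕ) (hn : 24 ≤ n) (h : NonIsoCover n t) : 2 ^ ((n - 4) / 20) ≤ 2 * t :=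
  bound _ n t (by omega) (by omega) h

end Pool.Agent.Helper12.NonIso
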