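import Pool.Agent.Helper12.LrMain

/-!
# XOR functions given by formulas of depth three with parities: the bound in terms of the rank
-/

set_option autoImplicit false

namespace Pool.Agent.Helper12.Lr

open Finset Module
open Pool.Agent.TH744.LR (Prot)
open Pool.Agent.Helper12.LocAff (Bd)

/-- A protocol for the negation. -/
theorem prot_not {α β : Type} {F : α → β → Bool} {c : ℕ} (h : Prot (fun x y => !F x y) c) :
    Prot F c := by
  obtain ⟨ow, a, b, out, h⟩ := h
  refine ⟨ow, a, b, fun t => !out t, fun x y => ?_⟩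
  show (!out _) = F x y
  rw [h, Bool.not_not]

variable {X : Type} [AddCommGroup X] [Module (ZMod 2) X] [Fintype X]

theorem rank_not (f : X → Bool) :
    (Matrix.of fun x y : X => if (!f (x + y)) = true then (1 : ℝ) else 0).rank ≤
      (Matrix.of fun x y : X => if f (x + y) then (1 : ℝ) else 0).rank + 1 := by
  classical
  have e : (Matrix.of fun x y : X => if (!f (x + y)) = true then (1 : ℝ) else 0) =
      (-1 : Matrix X X ℝ) * (Matrix.of fun x y : X => if f (x + y) then (1 : ℝ) else 0) +
        Matrix.vecMulVec (fun _ => (1 : ℝ)) (fun _ => 1) := by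
    rw [neg_mul, one_mul]
    ext x y
    rw [Matrix.add_apply, Matrix.neg_apply, Matrix.vecMulVec_apply, Matrix.of_apply,
      Matrix.of_apply]
    rcases f (x + y) with _ | _ <;> simp
  rw [e]
  have h1 := TH744.LR.rank_add_le
    ((-1 : Matrix X X ℝ) * (Matrix.of fun x y : X => if f (x + y) then (1 : ℝ) else 0))
    (Matrix.vecMulVec (fun _ => (1 : ℝ)) (fun _ => 1))
  have h2 := Matrix.rank_mul_le_right (-1 : Matrix X X ℝ)
    (Matrix.of fun x y : X => if f (x + y) then (1 : ℝ) else 0)
  have h3 := Matrix.rank_vecMulVec_le (fun _ : X => (1 : ℝ)) (fun _ : X => (1 : ℝ))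
  omega

theorem log_bound {r : ℕ} {L : ℝ} (hL : L = Real.logb 2 (r : ℝ)) :
    0 ≤ L ∧ (r : ℝ) ≤ 2 ^ L := by
  rcases Nat.eq_zero_or_pos r with h | h
  · subst h
    rw [hL]
    norm_num
  · have h1 : (1 : ℝ) ≤ r := by exact_mod_cast h
    refine ⟨by rw [hL]; exact Real.logb_nonneg (by norm_num) h1, ?_⟩
    rw [hL, Real.rpow_logb (by norm_num) (by norm_num) (by linarith)]

/-- The bound, also for negations. -/
theorem final'' {f : X → Bool} {k M : ℕ} (hM : 1 ≤ M) (F : Fin M → X → Prop)
    (hF : ∀ i, Bd 2 k (F i)) (hf : (∀ x, f x = true ↔ ∃ i, F i x) ∨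
      (∀ x, f x = false ↔ ∃ i, F i x)) {L : ℝ} (hL0 : 0 ≤ L)
    (hr : ((Matrix.of fun x y : X => if f (x + y) then (1 : ℝ) else 0).rank : ℝ) ≤ 2 ^ L) :
    ∃ c : ℕ, Prot (fun x y : X => f (x + y)) c ∧
      (c : ℝ) ≤ 2 ^ k * (k * (k + 1)) * (L + 2) * (L + Real.logb 2 M + 5) + 4 := by
  have hlogM : 0 ≤ Real.logb 2 M := Real.logb_nonneg (by norm_num) (by exact_mod_cast hM)
  rcases hf with hf | hf
  · obtain ⟨c, hc, hb⟩ := final hM F hF hf hL0 hr
    refine ⟨c, hc, hb.trans ?_⟩
    gcongr <;> linarith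
  · have hr' : ((Matrix.of fun x y : X =>
        if (!f (x + y)) = true then (1 : ℝ) else 0).rank : ℝ) ≤ 2 ^ (L + 1) := by
      have h1 : ((Matrix.of fun x y : X =>
        if (!f (x + y)) = true then (1 : ℝ) else 0).rank : ℝ) ≤
          (Matrix.of fun x y : X => if f (x + y) then (1 : ℝ) else 0).rank + 1 := by
        exact_mod_cast rank_not f
      have h2 : (1 : ℝ) ≤ 2 ^ L := Real.one_le_rpow (by norm_num) hL0
      rw [Real.rpow_add (by norm_num), Real.rpow_one]
      linarith
    obtain ⟨c, hc, hb⟩ := final (f := fun x => !f x) hM F hF (fun x => by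
      rw [← hf]
      cases f x <;> simp) (by linarith) hr'
    refine ⟨c, prot_not hc, hb.trans (le_of_eq ?_)⟩
    ring

theorem final' {f : X → Bool} {k M : ℕ} (hM : 1 ≤ M) (F : Fin M → X → Prop)
    (hF : ∀ i, Bd 2 k (F i)) (hf : (∀ x, f x = true ↔ ∃ i, F i x) ∨
      (∀ x, f x = false ↔ ∃ i, F i x)) {L : ℝ} (hL : L =
    Real.logb 2 ((Matrix.of fun x y : X => if f (x + y) then (1 : ℝ) else 0).rank : ℝ)) :
    ∃ c : ℕ, Prot (fun x y : X => f (x + y)) c ∧
      (c : ℝ) ≤ 2 ^ k * (k * (k + 1)) * (L + 2) * (L + Real.logb 2 M + 5) + 4 := by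
  obtain ⟨hL0, hr⟩ := log_bound hL
  exact final'' hM F hF hf hL0 hr

/-- Protocols colour graphs. -/
theorem chromatic {V : Type} (G : SimpleGraph V) (F : V → V → Bool) {c : ℕ} (h : Prot F c)
    (hG : ∀ x y, G.Adj x y ↔ F x y = true) : G.Colorable (2 ^ c) := by
  classical
  obtain ⟨ow, a, b, out, h⟩ := h
  have key : ∀ x y : V, (TH744.LR.pstep ow a b x x)^[c] [] = (TH744.LR.pstep ow a b y y)^[c] [] →
      ∀ n ≤ c, (TH744.LR.pstep ow a b x y)^[n] [] = (TH744.LR.pstep ow a b x x)^[n] [] ∧
        (TH744.LR.pstep ow a b x x)^[n] [] = (TH744.LR.pstep ow a b y y)^[n] [] := by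
    intro x y hxy
    have hpre : ∀ (z : V) (n m : ℕ), ∃ s, (TH744.LR.pstep ow a b z z)^[n + m] [] =
        (TH744.LR.pstep ow a b z z)^[n] [] ++ s := by
      intro z n m
      induction m with
      | zero => exact ⟨[], by simp⟩
      | succ m ih =>
        obtain ⟨s, hs⟩ := ih
        rw [← add_assoc, Function.iterate_succ_apply', hs]
        exact ⟨_, List.append_assoc _ _ _⟩
    have heq : ∀ n ≤ c, (TH744.LR.pstep ow a b x x)^[n] [] =
        (TH744.LR.pstep ow a b y y)^[n] [] := by
      intro n hn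
      obtain ⟨m, rfl⟩ := Nat.exists_eq_add_of_le hn
      obtain ⟨s, hs⟩ := hpre x n m
      obtain ⟨s', hs'⟩ := hpre y n m
      rw [hs, hs'] at hxy
      have hl := TH744.LR.pstep_len ow a b x x n
      have hl' := TH744.LR.pstep_len ow a b y y n
      exact (List.append_inj hxy (hl.trans hl'.symm)).1
    intro n
    induction n with
    | zero => exact fun _ => ⟨rfl, rfl⟩
    | succ n ih =>
      intro hn
      obtain ⟨h1, h2⟩ := ih (by omega)
      have h3 := heq (n + 1) hn
      refine ⟨?_, h3⟩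
      rw [Function.iterate_succ_apply', Function.iterate_succ_apply', ← h2] at h3
      rw [Function.iterate_succ_apply', Function.iterate_succ_apply', h1]
      set t := (TH744.LR.pstep ow a b x x)^[n] [] with ht
      simp only [TH744.LR.pstep] at h3 ⊢
      by_cases ho : ow t = true
      · rw [if_pos ho, if_pos ho]
      · rw [if_neg ho, if_neg ho] at h3 ⊢
        exact h3.symm
  let col : V → (Fin c → Bool) := fun x i => ((TH744.LR.pstep ow a b x x)^[c] []).getD i true
  have hcol : ∀ x y, col x = col y →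
      (TH744.LR.pstep ow a b x x)^[c] [] = (TH744.LR.pstep ow a b y y)^[c] [] := by
    intro x y hxy
    have hl := TH744.LR.pstep_len ow a b x x c
    have hl' := TH744.LR.pstep_len ow a b y y c
    refine List.ext_getElem (hl.trans hl'.symm) fun i hi hi' => ?_
    have h1 := congrFun hxy ⟨i, by rw [hl] at hi; exact hi⟩
    simp only [col] at h1
    rwa [List.getD_eq_getElem _ _ hi, List.getD_eq_getElem _ _ hi'] at h1
  have hC : G.Coloring (Fin c → Bool) := SimpleGraph.Coloring.mk col (by
    intro x y hxy hne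
    have h1 := (key x y (hcol x y hne) c le_rfl).1
    have h2 : F x y = F x x := by
      rw [← h x y, ← h x x, h1]
    rw [hG] at hxy
    rw [hxy] at h2
    exact G.loopless.irrefl x ((hG x x).2 h2.symm))
  have h4 := hC.colorable
  rwa [Fintype.card_fun, Fintype.card_bool, Fintype.card_fin] at h4

end Pool.Agent.Helper12.Lr
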