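import Pool.Agent.Helper12.LrTree

/-!
# XOR functions given by formulas of depth three with parities
-/

set_option autoImplicit false

namespace Pool.Agent.Helper12.Lr

open Finset Module
open Pool.Agent.TH744.LR (Prot)
open Pool.Agent.Helper12.LocAff (Bd dense)

theorem base_ineq (q : ℕ) (hq : 1 ≤ q) : (q - 1) ^ q * 2 ≤ q ^ q := by
  rcases Nat.lt_or_ge q 2 with h | h
  · have : q = 1 := by omega
    subst this
    norm_num
  · have h1 : (0 : ℝ) < (q : ℝ) - 1 := by
      have : (2 : ℝ) ≤ q := by exact_mod_cast h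
      linarith
    have h2 := one_add_mul_le_pow (a := 1 / ((q : ℝ) - 1)) (by
      have : 0 < 1 / ((q : ℝ) - 1) := by positivity
      linarith) q
    have h3 : (2 : ℝ) ≤ 1 + q * (1 / ((q : ℝ) - 1)) := by
      have : (1 : ℝ) ≤ q * (1 / ((q : ℝ) - 1)) := by
        rw [mul_one_div, le_div_iff₀ h1]
        linarith
      linarith
    have h4 : (2 : ℝ) * ((q : ℝ) - 1) ^ q ≤ (q : ℝ) ^ q := by
      have h5 : (1 + 1 / ((q : ℝ) - 1)) ^ q = (q : ℝ) ^ q / ((q : ℝ) - 1) ^ q := by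
        rw [← div_pow]
        congr 1
        field_simp
        ring
      rw [h5] at h2
      have h6 := h3.trans h2
      rwa [le_div_iff₀ (by positivity)] at h6
    have h5 : (((q - 1) ^ q * 2 : ℕ) : ℝ) ≤ ((q ^ q : ℕ) : ℝ) := by
      push_cast [Nat.cast_sub hq]
      linarith
    exact_mod_cast h5

theorem pow_ineq (q ℓ : ℕ) (hq : 1 ≤ q) : (q - 1) ^ (q * ℓ) * 2 ^ ℓ ≤ q ^ (q * ℓ) := by
  rw [pow_mul, pow_mul, ← mul_pow]
  exact Nat.pow_le_pow_left (base_ineq q hq) ℓ

variable {X : Type} [AddCommGroup X] [Module (ZMod 2) X] [Fintype X]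

theorem class_H {f : X → Bool} {k M R ℓ : ℕ} (F : Fin M → X → Prop)
    (hF : ∀ i, Bd 2 k (F i)) (hf : ∀ x, f x = true ↔ ∃ i, F i x) (hℓ : R * M < 2 ^ ℓ)
    (U : Submodule (ZMod 2) X) [Fintype U] (c : X) (hr : (mat f U c).rank ≤ R)
    (hv : ∃ v ∈ U, f (c + v) = true) :
    ∃ (U' : Submodule (ZMod 2) X) (c' : X), U' ≤ U ∧ c' - c ∈ U ∧
        finrank (ZMod 2) U ≤ finrank (ZMod 2) U' + 2 ^ k * ℓ * (k * (k + 1) / 2) ∧
        ∀ w ∈ U', f (c' + w) = true := by
  classical
  obtain ⟨v0, hv0U, hv0⟩ := hv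
  obtain ⟨d, hd⟩ : ∃ d, d = (univ.filter fun v : U => f (c + v) = true).card := ⟨_, rfl⟩
  have h1 : Fintype.card U ≤ (mat f U c).rank * d := by
    refine rank_dense (mat f U c) d (fun x => ?_) (fun y => ?_)
    · rw [hd]
      refine card_le_card_of_injOn (fun y => x + y) ?_ ?_
      · intro y hy
        have h2 := (mem_filter.1 (mem_coe.1 hy)).2
        rw [mem_coe, mem_filter]
        refine ⟨mem_univ _, ?_⟩
        have h3 : (if f (c + x + y) then (1 : ℝ) else 0) ≠ 0 := h2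
        have h4 : f (c + x + y) = true := by
          by_contra hne
          rw [if_neg hne] at h3
          exact h3 rfl
        rw [← h4]
        congr 1
        push_cast
        abel
      · intro y _ y' _ h
        exact add_left_cancel h
    · refine ⟨⟨v0 - y, U.sub_mem hv0U y.2⟩, ?_⟩
      show (if f (c + (v0 - y) + y) then (1 : ℝ) else 0) ≠ 0
      have e : c + (v0 - (y : X)) + y = c + v0 := by abel
      rw [e, if_pos hv0]
      exact one_ne_zero
  have hpos : 0 < Fintype.card U := Fintype.card_pos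
  -- a dense conjunction
  obtain ⟨i, hi⟩ : ∃ i : Fin M, d ≤ M * (univ.filter fun v : U => F i (c + v)).card := by
    by_contra hcon
    push Not at hcon
    have h2 : d ≤ ∑ i : Fin M, (univ.filter fun v : U => F i (c + v)).card := by
      rw [hd]
      refine (card_le_card (t := univ.biUnion fun i => univ.filter fun v : U => F i (c + v))
        fun v hv => ?_).trans card_biUnion_le
      obtain ⟨i, hi⟩ := (hf _).1 (mem_filter.1 hv).2
      exact mem_biUnion.2 ⟨i, mem_univ _, mem_filter.2 ⟨mem_univ _, hi⟩⟩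
    have hd0 : 0 < d := by
      by_contra h0
      have : d = 0 := by omega
      rw [this, mul_zero] at h1
      omega
    have hM : 0 < M := by
      by_contra h0
      have : M = 0 := by omega
      subst this
      simp at h2
      omega
    have h3 : ∑ i : Fin M, M * (univ.filter fun v : U => F i (c + v)).card < ∑ _i : Fin M, d :=
      sum_lt_sum_of_nonempty ⟨⟨0, hM⟩, mem_univ _⟩ fun i _ => hcon i
    rw [← mul_sum, sum_const, card_univ, Fintype.card_fin, smul_eq_mul] at h3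
    have h4 := lt_of_mul_lt_mul_left h3 (Nat.zero_le M)
    omega
  obtain ⟨N, hN⟩ : ∃ N, N = (univ.filter fun v : U => F i (c + v)).card := ⟨_, rfl⟩
  rw [← hN] at hi
  have h5 : Fintype.card U ≤ R * M * N := by
    calc Fintype.card U ≤ (mat f U c).rank * d := h1
      _ ≤ R * (M * N) := Nat.mul_le_mul hr hi
      _ = R * M * N := by ring
  have hN0 : 0 < N := by
    by_contra h0
    have : N = 0 := by omega
    rw [this, mul_zero] at h5
    omega
  have hBd : Bd 2 k (fun v : U => F i (c + v)) := by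
    obtain ⟨Φ, hΦ, hFΦ⟩ := hF i
    refine ⟨(fun φ (v : U) => φ (c + v)) '' Φ, ?_, ?_⟩
    · rintro _ ⟨φ, hφ, rfl⟩
      obtain ⟨l, hl⟩ := hΦ φ hφ
      refine ⟨fun j => (l j).comp U.subtype, fun z z' h => hl _ _ fun j => ?_⟩
      have := h j
      simp only [LinearMap.comp_apply, Submodule.subtype_apply] at this
      rw [map_add, map_add, this]
    · intro v
      show F i (c + v) ↔ _
      rw [hFΦ, Set.forall_mem_image]
  have hden := dense k (2 ^ k * ℓ) U (fun v : U => F i (c + v)) hBd (by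
    rw [← hN]
    have h6 : 1 ≤ 2 ^ k := Nat.one_le_two_pow
    have h7 := pow_ineq (2 ^ k) ℓ h6
    have h8 : 0 < (2 ^ k) ^ (2 ^ k * ℓ) := by positivity
    rcases Nat.eq_zero_or_pos ((2 ^ k - 1) ^ (2 ^ k * ℓ)) with h9 | h9
    · rw [h9, zero_mul]
      exact Nat.mul_pos hN0 h8
    · calc (2 ^ k - 1) ^ (2 ^ k * ℓ) * Fintype.card U
          ≤ (2 ^ k - 1) ^ (2 ^ k * ℓ) * (R * M * N) := Nat.mul_le_mul_left _ h5
        _ < (2 ^ k - 1) ^ (2 ^ k * ℓ) * (2 ^ ℓ * N) :=
            Nat.mul_lt_mul_of_pos_left (Nat.mul_lt_mul_of_pos_right hℓ hN0) h9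
        _ = N * ((2 ^ k - 1) ^ (2 ^ k * ℓ) * 2 ^ ℓ) := by ring
        _ ≤ N * (2 ^ k) ^ (2 ^ k * ℓ) := Nat.mul_le_mul_left _ h7)
  obtain ⟨y, W, hW, hWF⟩ := hden
  refine ⟨W.map U.subtype, c + y, Submodule.map_subtype_le U W, ?_, ?_, ?_⟩
  · rw [add_sub_cancel_left]
    exact y.2
  · have e : finrank (ZMod 2) (W.map U.subtype) = finrank (ZMod 2) W :=
      (LinearEquiv.finrank_eq (Submodule.equivMapOfInjective U.subtype
        U.injective_subtype W)).symm
    rw [e]
    exact hW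
  · rintro _ ⟨w, hw, rfl⟩
    rw [hf]
    refine ⟨i, ?_⟩
    have := hWF w hw
    push_cast at this
    rwa [← add_assoc] at this

/-- The protocol. -/
theorem main {f : X → Bool} {k M τ ℓ : ℕ} (F : Fin M → X → Prop)
    (hF : ∀ i, Bd 2 k (F i)) (hf : ∀ x, f x = true ↔ ∃ i, F i x) (hℓ : (2 ^ τ + 2) * M < 2 ^ ℓ)
    (hr : (Matrix.of fun x y : X => if f (x + y) then (1 : ℝ) else 0).rank ≤ 2 ^ τ + 2) :
    Prot (fun x y : X => f (x + y)) (τ * (2 * (2 ^ k * ℓ * (k * (k + 1) / 2))) + 4) := by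
  classical
  have : Fintype (⊤ : Submodule (ZMod 2) X) := Fintype.ofFinite _
  have h1 := tree (f := f) (R := 2 ^ τ + 2) (D := 2 ^ k * ℓ * (k * (k + 1) / 2))
    (fun U _ c hr hv => class_H F hF hf hℓ U c hr hv) τ le_rfl ⊤ 0 (by
      refine le_trans ?_ hr
      have h2 := Matrix.rank_submatrix_le
        (Matrix.of fun x y : X => if f (x + y) then (1 : ℝ) else 0)
        (fun u : (⊤ : Submodule (ZMod 2) X) => (u : X))
        (fun u : (⊤ : Submodule (ZMod 2) X) => (u : X))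
      have e : mat f ⊤ 0 = (Matrix.of fun x y : X => if f (x + y) then (1 : ℝ) else 0).submatrix
          (fun u : (⊤ : Submodule (ZMod 2) X) => (u : X))
          (fun u : (⊤ : Submodule (ZMod 2) X) => (u : X)) := by
        ext u v
        simp [mat]
      rw [e]
      exact h2)
  have h2 := TH744.LR.Prot.lift h1 (fun x : X => (⟨x, trivial⟩ : (⊤ : Submodule (ZMod 2) X)))
    (fun x : X => ⟨x, trivial⟩)
  have e : (fun x y : X => f (0 + x + y)) = fun x y => f (x + y) := by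
    funext x y
    rw [zero_add]
  rw [← e]
  exact h2

/-- The numerical bound. -/
theorem final {f : X → Bool} {k M : ℕ} (hM : 1 ≤ M) (F : Fin M → X → Prop)
    (hF : ∀ i, Bd 2 k (F i)) (hf : ∀ x, f x = true ↔ ∃ i, F i x) {L : ℝ} (hL : 0 ≤ L)
    (hr : ((Matrix.of fun x y : X => if f (x + y) then (1 : ℝ) else 0).rank : ℝ) ≤ 2 ^ L) :
    ∃ c : ℕ, Prot (fun x y : X => f (x + y)) c ∧
      (c : ℝ) ≤ 2 ^ k * (k * (k + 1)) * (L + 1) * (L + Real.logb 2 M + 4) + 4 := by
  obtain ⟨τ, hτ⟩ : ∃ τ, τ = ⌈L⌉₊ := ⟨_, rfl⟩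
  obtain ⟨ℓ, hℓ⟩ : ∃ ℓ, ℓ = Nat.log 2 ((2 ^ τ + 2) * M) + 1 := ⟨_, rfl⟩
  have hτL : L ≤ τ := by rw [hτ]; exact Nat.le_ceil L
  have hτL' : (τ : ℝ) ≤ L + 1 := by rw [hτ]; exact (Nat.ceil_lt_add_one hL).le
  refine ⟨_, main (τ := τ) (ℓ := ℓ) F hF hf ?_ ?_, ?_⟩
  · rw [hℓ]
    exact Nat.lt_pow_succ_log_self (by norm_num) _
  · have h1 : ((Matrix.of fun x y : X => if f (x + y) then (1 : ℝ) else 0).rank : ℝ) ≤
        ((2 ^ τ + 2 : ℕ) : ℝ) := by
      refine hr.trans ?_
      push_cast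
      have : (2 : ℝ) ^ L ≤ 2 ^ τ := by
        rw [← Real.rpow_natCast]
        exact Real.rpow_le_rpow_of_exponent_le (by norm_num) hτL
      linarith
    exact_mod_cast h1
  · have hM0 : (0 : ℝ) < M := by exact_mod_cast hM
    have hlogM : 0 ≤ Real.logb 2 M := Real.logb_nonneg (by norm_num) (by exact_mod_cast hM)
    have hℓ' : (ℓ : ℝ) ≤ L + Real.logb 2 M + 4 := by
      rw [hℓ]
      push_cast
      have h1 : ((Nat.log 2 ((2 ^ τ + 2) * M) : ℕ) : ℝ) ≤
          Real.logb 2 (((2 ^ τ + 2) * M : ℕ) : ℝ) := Real.natLog_le_logb _ 2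
      have h2 : Real.logb 2 (((2 ^ τ + 2) * M : ℕ) : ℝ) ≤ L + 3 + Real.logb 2 M := by
        push_cast
        rw [Real.logb_mul (by positivity) hM0.ne']
        have h3 : Real.logb 2 ((2 : ℝ) ^ τ + 2) ≤ L + 3 := by
          rw [Real.logb_le_iff_le_rpow (by norm_num) (by positivity)]
          have h4 : (2 : ℝ) ^ τ ≤ 2 ^ (L + 1) := by
            rw [← Real.rpow_natCast]
            exact Real.rpow_le_rpow_of_exponent_le (by norm_num) hτL'
          have h5 : (1 : ℝ) ≤ 2 ^ L := Real.one_le_rpow (by norm_num) hL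
          rw [Real.rpow_add (by norm_num), Real.rpow_one] at h4
          rw [Real.rpow_add (by norm_num)]
          norm_num
          linarith
        linarith
      linarith
    have hev : 2 * (k * (k + 1) / 2) = k * (k + 1) :=
      Nat.two_mul_div_two_of_even (Nat.even_mul_succ_self k)
    have e : τ * (2 * (2 ^ k * ℓ * (k * (k + 1) / 2))) + 4 =
        2 ^ k * (2 * (k * (k + 1) / 2)) * τ * ℓ + 4 := by ring
    rw [e, hev]
    push_cast
    have h6 : (0 : ℝ) ≤ 2 ^ k * (k * (k + 1)) := by positivity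
    have h7 : (τ : ℝ) * ℓ ≤ (L + 1) * (L + Real.logb 2 M + 4) :=
      mul_le_mul hτL' hℓ' (by positivity) (by linarith)
    calc 2 ^ k * ((k : ℝ) * (k + 1)) * τ * ℓ + 4 = 2 ^ k * (k * (k + 1)) * (τ * ℓ) + 4 := by ring
      _ ≤ 2 ^ k * (k * (k + 1)) * ((L + 1) * (L + Real.logb 2 M + 4)) + 4 := by
          have := mul_le_mul_of_nonneg_left h7 h6
          linarith
      _ = _ := by ring

end Pool.Agent.Helper12.Lr
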