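import Pool.Agent.TH744.LR.Rank
import Pool.Agent.TH744.LR.Prot

/-!
# Ranks of matrices with constant blocks, and protocols for matrices of small rank
-/

set_option autoImplicit false

namespace Pool.Agent.Helper12.Lr

open Finset Module

/-- A matrix with the blocks `t J, B; B, t J` has rank at least `2 rank B - 2`. -/
theorem block_rank {α β : Type} [Fintype α] [Fintype β] (A : Matrix α α ℝ) (B : Matrix β β ℝ)
    (t : ℝ) (i j : β ⊕ β → α) (h11 : ∀ u v, A (i (Sum.inl u)) (j (Sum.inl v)) = t)
    (h12 : ∀ u v, A (i (Sum.inl u)) (j (Sum.inr v)) = B u v)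
    (h21 : ∀ u v, A (i (Sum.inr u)) (j (Sum.inl v)) = B u v)
    (h22 : ∀ u v, A (i (Sum.inr u)) (j (Sum.inr v)) = t) :
    2 * B.rank ≤ A.rank + 2 := by
  classical
  let S : Matrix (β ⊕ β) (β ⊕ β) ℝ := Matrix.fromBlocks 0 B B 0
  have hS : S = A.submatrix i j +
      (Matrix.vecMulVec (Sum.elim (fun _ => (1 : ℝ)) (fun _ => 0))
        (Sum.elim (fun _ => -t) (fun _ => 0)) +
      Matrix.vecMulVec (Sum.elim (fun _ => (0 : ℝ)) (fun _ => 1))
        (Sum.elim (fun _ => 0) (fun _ => -t))) := by
    ext p q
    rcases p with u | u <;> rcases q with v | v <;>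
      simp [S, Matrix.vecMulVec_apply, h11, h12, h21, h22]
  have h1 : S.rank ≤ A.rank + 2 := by
    rw [hS]
    have e1 := TH744.LR.rank_add_le (A.submatrix i j)
      (Matrix.vecMulVec (Sum.elim (fun _ : β => (1 : ℝ)) (fun _ : β => 0))
        (Sum.elim (fun _ : β => -t) (fun _ : β => 0)) +
      Matrix.vecMulVec (Sum.elim (fun _ : β => (0 : ℝ)) (fun _ : β => 1))
        (Sum.elim (fun _ : β => 0) (fun _ : β => -t)))
    have e2 := TH744.LR.rank_add_le
      (Matrix.vecMulVec (Sum.elim (fun _ : β => (1 : ℝ)) (fun _ : β => 0))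
        (Sum.elim (fun _ : β => -t) (fun _ : β => 0)))
      (Matrix.vecMulVec (Sum.elim (fun _ : β => (0 : ℝ)) (fun _ : β => 1))
        (Sum.elim (fun _ : β => 0) (fun _ : β => -t)))
    have e3 := Matrix.rank_submatrix_le A i j
    have e4 := Matrix.rank_vecMulVec_le (Sum.elim (fun _ : β => (1 : ℝ)) (fun _ : β => 0))
        (Sum.elim (fun _ : β => -t) (fun _ : β => 0))
    have e5 := Matrix.rank_vecMulVec_le (Sum.elim (fun _ : β => (0 : ℝ)) (fun _ : β => 1))
        (Sum.elim (fun _ : β => 0) (fun _ : β => -t))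
    omega
  obtain ⟨r, xs, hr, hxs⟩ := TH744.LR.exists_rows B
  have hli : LinearIndependent ℝ (S.submatrix (Sum.map xs xs) id).row := by
    rw [Fintype.linearIndependent_iff] at hxs ⊢
    intro l hl
    have key : ∀ q, ∑ p, l p * S (Sum.map xs xs p) q = 0 := by
      intro q
      have := congrFun hl q
      rw [Finset.sum_apply] at this
      simpa using this
    have h2 : ∀ a, l (Sum.inr a) = 0 := by
      refine hxs (fun a => l (Sum.inr a)) ?_
      funext y
      have := key (Sum.inl y)
      rw [Fintype.sum_sum_type] at this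
      rw [Finset.sum_apply]
      simpa [S] using this
    have h3 : ∀ a, l (Sum.inl a) = 0 := by
      refine hxs (fun a => l (Sum.inl a)) ?_
      funext y
      have := key (Sum.inr y)
      rw [Fintype.sum_sum_type] at this
      rw [Finset.sum_apply]
      simpa [S] using this
    rintro (a | a)
    · exact h3 a
    · exact h2 a
  have h4 := hli.rank_matrix
  have h5 := Matrix.rank_submatrix_le S (Sum.map xs xs) id
  rw [h4, Fintype.card_sum, Fintype.card_fin] at h5
  omega

/-- The supports of few rows cover all columns. -/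
theorem rank_dense {α β : Type} [Fintype α] [Fintype β] (A : Matrix α β ℝ) (d : ℕ)
    (hrow : ∀ x, (univ.filter fun y => A x y ≠ 0).card ≤ d) (hcol : ∀ y, ∃ x, A x y ≠ 0) :
    Fintype.card β ≤ A.rank * d := by
  classical
  obtain ⟨f, hf, hspan, -⟩ := Submodule.exists_fun_fin_finrank_span_eq ℝ (Set.range A.row)
  choose xs hxs using hf
  have hcov : (univ : Finset β) ⊆ univ.biUnion fun a => univ.filter fun y => A (xs a) y ≠ 0 := by
    intro y _
    by_contra hcon
    have h0 : ∀ a, f a y = 0 := by
      intro a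
      by_contra h
      apply hcon
      rw [mem_biUnion]
      refine ⟨a, mem_univ _, mem_filter.2 ⟨mem_univ _, ?_⟩⟩
      rw [← hxs a] at h
      exact h
    let K : Submodule ℝ (β → ℝ) := LinearMap.ker (LinearMap.proj y)
    have h1 : Submodule.span ℝ (Set.range f) ≤ K := by
      rw [Submodule.span_le]
      rintro _ ⟨a, rfl⟩
      exact h0 a
    obtain ⟨x, hx⟩ := hcol y
    have h2 : A.row x ∈ Submodule.span ℝ (Set.range A.row) := Submodule.subset_span ⟨x, rfl⟩
    rw [← hspan] at h2
    exact hx (h1 h2)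
  calc Fintype.card β = (univ : Finset β).card := rfl
    _ ≤ _ := card_le_card hcov
    _ ≤ ∑ a, (univ.filter fun y => A (xs a) y ≠ 0).card := card_biUnion_le
    _ ≤ ∑ _a : Fin (finrank ℝ (Submodule.span ℝ (Set.range A.row))), d :=
        sum_le_sum fun a _ => hrow _
    _ = A.rank * d := by
        rw [sum_const, card_univ, Fintype.card_fin, smul_eq_mul, ← Matrix.rank_eq_finrank_span_row]

/-- Matrices of small rank have short protocols. -/
theorem small_rank {α β : Type} [Fintype α] [Fintype β] (F : α → β → Bool) (ρ : ℕ)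
    (h : (Matrix.of fun x y => if F x y then (1 : ℝ) else 0).rank ≤ ρ) :
    TH744.LR.Prot F (ρ + 1) := by
  classical
  set A : Matrix α β ℝ := Matrix.of fun x y => if F x y then (1 : ℝ) else 0 with hA
  obtain ⟨f, hf, hspan, -⟩ := Submodule.exists_fun_fin_finrank_span_eq ℝ (Set.range A.col)
  choose ys hys using hf
  have hr : finrank ℝ (Submodule.span ℝ (Set.range A.col)) ≤ ρ := by
    rwa [← Matrix.rank_eq_finrank_span_cols]
  have key : ∀ x x', (∀ a, F x (ys a) = F x' (ys a)) → ∀ y, F x y = F x' y := by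
    intro x x' hxx y
    let K : Submodule ℝ (α → ℝ) :=
      LinearMap.ker (LinearMap.proj (R := ℝ) (φ := fun _ : α => ℝ) x - LinearMap.proj x')
    have h1 : Submodule.span ℝ (Set.range f) ≤ K := by
      rw [Submodule.span_le]
      rintro _ ⟨a, rfl⟩
      show _ = (0 : ℝ)
      rw [← hys a]
      simp [hA, Matrix.col, hxx a]
    have h2 : A.col y ∈ Submodule.span ℝ (Set.range A.col) := Submodule.subset_span ⟨y, rfl⟩
    rw [← hspan] at h2
    have h3 : A x y - A x' y = 0 := h1 h2
    simp only [hA, Matrix.of_apply] at h3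
    rcases hb : F x y with _ | _ <;> rcases hb' : F x' y with _ | _ <;> simp [hb, hb'] at h3 ⊢
  have hP := TH744.LR.Prot.code (Y := β) (finrank ℝ (Submodule.span ℝ (Set.range A.col)))
    (fun w y => if h : ∃ x, (fun a => F x (ys a)) = w then F h.choose y else false)
    (fun x a => F x (ys a))
  have e : (fun (x : α) (y : β) => if h : ∃ x', (fun a => F x' (ys a)) = (fun a => F x (ys a)) then
      F h.choose y else false) = F := by
    funext x y
    have hex : ∃ x', (fun a => F x' (ys a)) = (fun a => F x (ys a)) := ⟨x, rfl⟩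
    rw [dif_pos hex]
    exact key _ _ (fun a => congrFun hex.choose_spec a) y
  rw [e] at hP
  exact hP.mono (by omega)

end Pool.Agent.Helper12.Lr
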