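import Pool.Agent.Helper12.LrRank
import Pool.Agent.Helper12.LocAff

/-!
# Protocols which announce cosets, and the recursion
-/

set_option autoImplicit false

namespace Pool.Agent.Helper12.Lr

open Finset Module
open Pool.Agent.TH744.LR (Prot)

/-- Alice announces `R` bits. -/
theorem announce {α β : Type} (R : ℕ) {b : ℕ} : ∀ (e : α → Fin R → Bool)
    (F : (Fin R → Bool) → α → β → Bool), (∀ w, Prot (F w) b) →
    Prot (fun x y => F (e x) x y) (R + b) := by
  induction R with
  | zero =>
    intro e F h
    have : (fun (x : α) (y : β) => F (e x) x y) = F (fun i => i.elim0) := by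
      funext x y
      congr 1
      funext i
      exact i.elim0
    rw [this, zero_add]
    exact h _
  | succ R ih =>
    intro e F h
    have h1 := TH744.LR.Prot.bind (TH744.LR.Prot.alice (Y := β) (fun x : α => e x 0))
      (F := fun v x y => F (Fin.cons v (fun i => e x i.succ)) x y) (b := R + b)
      (fun v => ih (fun x i => e x i.succ) (fun w x y => F (Fin.cons v w) x y) (fun w => h _))
    have e1 : (fun (x : α) (y : β) => F (Fin.cons (e x 0) (fun i => e x i.succ)) x y) =
        fun x y => F (e x) x y := by
      funext x y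
      congr 1
      funext i
      refine Fin.cases ?_ (fun j => ?_) i <;> simp
    rw [e1] at h1
    rwa [show 1 + (R + b) = R + 1 + b by ring] at h1

/-- Bob announces `R` bits. -/
theorem announceB {α β : Type} (R : ℕ) {b : ℕ} (e : β → Fin R → Bool)
    (F : (Fin R → Bool) → α → β → Bool) (h : ∀ w, Prot (F w) b) :
    Prot (fun x y => F (e y) x y) (R + b) :=
  (announce R e (fun w y x => F w x y) (fun w => (h w).swap)).swap

variable {X : Type} [AddCommGroup X] [Module (ZMod 2) X] [Fintype X]

/-- the matrix of `f (c + u + v)` on a subspace -/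
noncomputable def mat (f : X → Bool) (U : Submodule (ZMod 2) X) (c : X) : Matrix U U ℝ :=
  Matrix.of fun u v => if f (c + u + v) then (1 : ℝ) else 0

/-- `f (c + x + y)` on a subspace has a protocol with `N` bits. -/
def P (f : X → Bool) (U : Submodule (ZMod 2) X) (c : X) (N : ℕ) : Prop :=
  Prot (fun x y : U => f (c + x + y)) N

theorem restrict {f : X → Bool} {U U' : Submodule (ZMod 2) X} {c : X} {D N : ℕ}
    (hU : U' ≤ U) (hD : finrank (ZMod 2) U ≤ finrank (ZMod 2) U' + D)
    (h : ∀ b, b - c ∈ U → P f U' b N) : P f U c (D + (D + N)) := by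
  classical
  have : Fintype U := Fintype.ofFinite U
  -- the encoding of the cosets
  obtain ⟨e, he⟩ : ∃ e : U → Fin D → Bool, ∀ x x', e x = e x' → (x : X) - x' ∈ U' := by
    let K : Submodule (ZMod 2) U := U'.comap U.subtype
    have hK : finrank (ZMod 2) K = finrank (ZMod 2) U' :=
      (Submodule.comapSubtypeEquivOfLe hU).finrank_eq
    have hq := Submodule.finrank_quotient_add_finrank K
    have : Fintype (U ⧸ K) := Fintype.ofFinite _
    have hcard : Fintype.card (U ⧸ K) ≤ Fintype.card (Fin D → Bool) := by
      rw [← Nat.card_eq_fintype_card, Module.natCard_eq_pow_finrank (K := ZMod 2) (V := U ⧸ K),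
        Nat.card_zmod, Fintype.card_fun, Fintype.card_bool, Fintype.card_fin]
      exact Nat.pow_le_pow_right (by norm_num) (by omega)
    obtain ⟨g⟩ := Function.Embedding.nonempty_of_card_le hcard
    refine ⟨fun x => g (K.mkQ x), fun x x' hx => ?_⟩
    have h1 : K.mkQ x = K.mkQ x' := g.injective hx
    have h2 := (Submodule.Quotient.eq K).1 h1
    exact h2
  let rep : (Fin D → Bool) → U := fun w => if hw : ∃ x, e x = w then hw.choose else 0
  have hrep : ∀ x : U, (x : X) - rep (e x) ∈ U' := by
    intro x
    have hw : ∃ x', e x' = e x := ⟨x, rfl⟩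
    have h1 : rep (e x) = hw.choose := dif_pos hw
    rw [h1]
    exact he _ _ hw.choose_spec.symm
  let p : (Fin D → Bool) → U → U' := fun w x =>
    if hx : (x : X) - rep w ∈ U' then ⟨(x : X) - rep w, hx⟩ else 0
  have hp : ∀ x : U, (p (e x) x : X) = (x : X) - rep (e x) := by
    intro x
    show ((if hx : (x : X) - rep (e x) ∈ U' then (⟨(x : X) - rep (e x), hx⟩ : U') else 0 : U') : X)
      = _
    rw [dif_pos (hrep x)]
  have h1 : ∀ w v, Prot (fun x y : U => (fun a b : U' => f ((c + rep w + rep v) + a + b))
      (p w x) (p v y)) N := by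
    intro w v
    refine TH744.LR.Prot.lift (F := fun a b : U' => f ((c + rep w + rep v) + a + b)) ?_ (p w) (p v)
    apply h
    have e1 : c + (rep w : X) + rep v - c = rep w + rep v := by abel
    rw [e1]
    exact U.add_mem (rep w).2 (rep v).2
  have h2 := announce (α := U) (β := U) D e
    (fun w x y => (fun a b : U' => f ((c + rep w + rep (e y)) + a + b)) (p w x) (p (e y) y))
    (fun w => announceB (α := U) (β := U) D e
      (fun v x y => (fun a b : U' => f ((c + rep w + rep v) + a + b)) (p w x) (p v y)) (h1 w))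
  have e2 : (fun x y : U => f ((c + rep (e x) + rep (e y)) + p (e x) x + p (e y) y)) =
      fun x y : U => f (c + x + y) := by
    funext x y
    congr 1
    rw [hp, hp]
    abel
  rw [P, ← e2]
  exact h2

theorem half {f : X → Bool} {U U' : Submodule (ZMod 2) X} {c c' b : X} {v : Bool}
    [Fintype U] [Fintype U']
    (hU : U' ≤ U) (hc : c' - c ∈ U) (hb : b - c ∈ U) (hf : ∀ w ∈ U', f (c' + w) = v) :
    2 * (mat f U' b).rank ≤ (mat f U c).rank + 2 := by
  have hg : b - c' ∈ U := by
    have : b - c' = (b - c) - (c' - c) := by abel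
    rw [this]
    exact U.sub_mem hb hc
  have h2 : ∀ g : X, g + g = 0 := fun g => by
    have : (2 : ZMod 2) • g = g + g := two_smul _ g
    rw [← this, show (2 : ZMod 2) = 0 from rfl, zero_smul]
  refine block_rank (mat f U c) (mat f U' b) (if v then 1 else 0)
    (Sum.elim (fun u => ⟨u, hU u.2⟩) (fun u => ⟨u + (b - c'), U.add_mem (hU u.2) hg⟩))
    (Sum.elim (fun u => ⟨u + (c' - c), U.add_mem (hU u.2) hc⟩)
      (fun u => ⟨u + (c' - c) + (b - c'), U.add_mem (U.add_mem (hU u.2) hc) hg⟩)) ?_ ?_ ?_ ?_
  · intro u w
    show (if f (c + u + (w + (c' - c))) then (1 : ℝ) else 0) = _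
    have e : c + (u : X) + (w + (c' - c)) = c' + (u + w) := by abel
    rw [e, hf _ (U'.add_mem u.2 w.2)]
  · intro u w
    show (if f (c + u + (w + (c' - c) + (b - c'))) then (1 : ℝ) else 0) =
      if f (b + u + w) then (1 : ℝ) else 0
    have e : c + (u : X) + (w + (c' - c) + (b - c')) = b + u + w := by abel
    rw [e]
  · intro u w
    show (if f (c + (u + (b - c')) + (w + (c' - c))) then (1 : ℝ) else 0) =
      if f (b + u + w) then (1 : ℝ) else 0
    have e : c + ((u : X) + (b - c')) + (w + (c' - c)) = b + u + w := by abel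
    rw [e]
  · intro u w
    show (if f (c + (u + (b - c')) + (w + (c' - c) + (b - c'))) then (1 : ℝ) else 0) = _
    have e : c + ((u : X) + (b - c')) + (w + (c' - c) + (b - c')) =
        c' + (u + w) + ((b - c') + (b - c')) := by abel
    rw [e, h2, add_zero, hf _ (U'.add_mem u.2 w.2)]

/-- The recursion. -/
theorem tree {f : X → Bool} {D R : ℕ}
    (H : ∀ (U : Submodule (ZMod 2) X) [Fintype U] (c : X), (mat f U c).rank ≤ R →
      (∃ v ∈ U, f (c + v) = true) → ∃ (U' : Submodule (ZMod 2) X) (c' : X), U' ≤ U ∧ c' - c ∈ U ∧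
        finrank (ZMod 2) U ≤ finrank (ZMod 2) U' + D ∧ ∀ w ∈ U', f (c' + w) = true) :
    ∀ t : ℕ, 2 ^ t + 2 ≤ R → ∀ (U : Submodule (ZMod 2) X) [Fintype U] (c : X),
      (mat f U c).rank ≤ 2 ^ t + 2 → P f U c (t * (2 * D) + 4) := by
  intro t
  induction t with
  | zero =>
    intro _ U _ c h
    have h1 := small_rank (fun x y : U => f (c + x + y)) 3 (by simpa [mat] using h)
    rw [zero_mul, zero_add]
    exact h1
  | succ t ih =>
    intro hR U _ c h
    by_cases hv : ∃ v ∈ U, f (c + v) = true
    · obtain ⟨U', c', hU, hc, hD, hf⟩ := H U c (h.trans hR) hv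
      have : Fintype U' := Fintype.ofFinite U'
      have h1 := restrict (f := f) (c := c) (N := t * (2 * D) + 4) hU hD (by
        intro b hb
        refine ih (by rw [pow_succ] at hR; omega) U' b ?_
        have h2 := half (b := b) hU hc hb hf
        rw [pow_succ] at h
        omega)
      have e : (t + 1) * (2 * D) + 4 = D + (D + (t * (2 * D) + 4)) := by ring
      rw [e]
      exact h1
    · push Not at hv
      have e : (fun x y : U => f (c + x + y)) = fun _ _ => false := by
        funext x y
        have := hv (x + y) (U.add_mem x.2 y.2)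
        rw [← add_assoc] at this
        simpa using this
      rw [P, e]
      exact (TH744.LR.Prot.const false).mono (by omega)

end Pool.Agent.Helper12.Lr
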