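import Pool.Agent.Helper12.NearStep

/-!
# The exceptional set is not small for the gauges `(log (1 / r)) ^ (-s)`, `s < 2`
-/

set_option autoImplicit false

namespace Pool.Agent.Helper12.NearGame

open Real Filter Set Topology
open scoped ENNReal

/-- `E` is a null set for the gauge `(log (1 / r)) ^ (-s)`: it has coverings by countably many
intervals of radii `r i < 1` with arbitrarily small `∑ (log (1 / r i)) ^ (-s)`. -/
def LogNull (s : ℝ) (E : Set ℝ) : Prop :=
  ∀ ε : ℝ, 0 < ε → ∃ (ι : Type) (_ : Countable ι) (c r : ι → ℝ), (∀ i, 0 < r i ∧ r i < 1) ∧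
    E ⊆ ⋃ i, Ioo (c i - r i) (c i + r i) ∧
    ∑' i, ENNReal.ofReal ((log (1 / r i)) ^ (-s)) ≤ ENNReal.ofReal ε

/-- the pairs with `|a ^ n - b ^ m| ≤ x` -/
def PP (a b x : ℝ) : Set (ℕ × ℕ) := {p | |a ^ p.1 - b ^ p.2| ≤ x}

theorem r_le {s r : ℝ} (hs : 0 < s) (hs2 : s ≤ 2) (hr : 0 < r) (hr1 : r < 1) :
    r ≤ 2304 * (log (1 / r)) ^ (-s) := by
  set L := log (1 / r) with hL
  have hL0 : 0 < L := log_pos (by rw [lt_div_iff₀ hr]; linarith)
  have hrL : r = exp (-L) := by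
    rw [hL, one_div, log_inv, neg_neg, exp_log hr]
  have h1 : L ^ s ≤ 2304 * exp L := by
    rcases le_total 48 L with h | h
    · refine (rpow_le_exp_half h hs2).trans ?_
      have : exp (L / 2) ≤ exp L := exp_le_exp.2 (by linarith)
      have := exp_pos L
      linarith
    · have h2 : L ^ s ≤ (48 : ℝ) ^ s := rpow_le_rpow hL0.le h hs.le
      have h3 : (48 : ℝ) ^ s ≤ (48 : ℝ) ^ (2 : ℝ) := rpow_le_rpow_of_exponent_le (by norm_num) hs2
      rw [rpow_two] at h3
      have h4 : 1 ≤ exp L := one_le_exp hL0.le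
      nlinarith
  rw [rpow_neg hL0.le, ← div_eq_mul_inv, le_div_iff₀ (rpow_pos_of_pos hL0 _), hrL, exp_neg,
    inv_mul_le_iff₀ (exp_pos _)]
  linarith

/-- an interval without powers of `b` -/
theorem exists_free {b u v : ℝ} (hb : 1 < b) (hu : 1 ≤ u) (huv : u < v) :
    ∃ p q : ℝ, u < p ∧ p < q ∧ q < v ∧ ∀ k : ℕ, b ^ k < p ∨ q < b ^ k := by
  obtain ⟨k₀, hk₀⟩ := pow_unbounded_of_one_lt u hb
  classical
  have hex : ∃ k : ℕ, u < b ^ k := ⟨k₀, hk₀⟩
  set k := Nat.find hex with hk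
  have h1 : u < b ^ k := Nat.find_spec hex
  set w := min v (b ^ k) with hw
  have hw1 : u < w := lt_min huv h1
  refine ⟨u + (w - u) / 3, u + 2 * (w - u) / 3, by linarith, by linarith, ?_, fun j => ?_⟩
  · have : w ≤ v := min_le_left _ _
    linarith
  · rcases lt_or_ge j k with hj | hj
    · left
      have := Nat.find_min hex hj
      push Not at this
      linarith
    · right
      have h2 : b ^ k ≤ b ^ j := pow_le_pow_right₀ hb.le hj
      have : w ≤ b ^ k := min_le_right _ _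
      linarith

theorem near_of_close {b v a : ℝ} (hb : 1 < b) {x : Σ _ : ℕ, ℕ} (hx : 1 ≤ x.1)
    (ha : 0 ≤ a) (hav : a ≤ v) (hv : 1 ≤ v) (hXv : X b x ≤ v)
    (h : |a - X b x| ≤ exp (-(log v + 2) * x.1)) :
    |a ^ x.1 - b ^ x.2| ≤ 1 / (x.1 + 1) := by
  have hb0 : 0 < b := by linarith
  obtain ⟨n, m⟩ := x
  simp only at hx h ⊢
  have hn0 : (0 : ℝ) < n := by exact_mod_cast hx
  have hXn : X b ⟨n, m⟩ ^ n = b ^ m := by
    simp only [X]
    rw [← rpow_natCast, ← rpow_mul hb0.le, div_mul_cancel₀ _ hn0.ne', rpow_natCast]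
  have hX0 : 0 ≤ X b ⟨n, m⟩ := rpow_nonneg hb0.le _
  have h1 := abs_pow_sub_pow_le a (X b ⟨n, m⟩) n
  rw [hXn] at h1
  have h2 : max |a| |X b ⟨n, m⟩| ^ (n - 1) ≤ v ^ n := by
    rw [abs_of_nonneg ha, abs_of_nonneg hX0]
    calc max a (X b ⟨n, m⟩) ^ (n - 1) ≤ v ^ (n - 1) :=
          pow_le_pow_left₀ (le_max_of_le_left ha) (max_le hav hXv) _
      _ ≤ v ^ n := pow_le_pow_right₀ hv (Nat.sub_le _ _)
  have hv0 : 0 < v := by linarith
  have h3 : exp (-(log v + 2) * n) * v ^ n = exp (-2 * n) := by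
    have : v ^ n = exp (log v * n) := by
      rw [mul_comm, exp_nat_mul, exp_log hv0]
    rw [this, ← exp_add]; congr 1; ring
  have h4 : |a ^ n - b ^ m| ≤ n * exp (-2 * n) := by
    calc |a ^ n - b ^ m| ≤ |a - X b ⟨n, m⟩| * n * max |a| |X b ⟨n, m⟩| ^ (n - 1) := h1
      _ ≤ exp (-(log v + 2) * n) * n * v ^ n := by gcongr
      _ = n * (exp (-(log v + 2) * n) * v ^ n) := by ring
      _ = _ := by rw [h3]
  refine h4.trans ?_
  have h5 : (n : ℝ) + 1 ≤ exp n := add_one_le_exp _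
  have h6 : exp (-2 * (n : ℝ)) = (exp n)⁻¹ * (exp n)⁻¹ := by
    rw [← exp_neg, ← exp_add]; congr 1; ring
  rw [h6, le_div_iff₀ (by positivity)]
  have h7 : 0 < exp (n : ℝ) := exp_pos _
  have h8 : n * ((exp (n : ℝ))⁻¹ * (exp (n : ℝ))⁻¹) * (n + 1) =
      (n / exp n) * ((n + 1) / exp n) := by field_simp
  rw [h8]
  have h9 : (n : ℝ) / exp n ≤ 1 := by rw [div_le_one h7]; linarith
  have h10 : ((n : ℝ) + 1) / exp n ≤ 1 := by rw [div_le_one h7]; linarith
  have h11 : 0 ≤ (n : ℝ) / exp n := by positivity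
  have h12 : 0 ≤ ((n : ℝ) + 1) / exp n := by positivity
  nlinarith

theorem not_null {b s u v : ℝ} (hb : 1 < b) (hs : 0 < s) (hs2 : s < 2) (hu : 1 ≤ u)
    (huv : u < v) : ¬ LogNull s {a | u < a ∧ a < v ∧ ∀ x : ℝ, 0 < x → (PP a b x).Infinite} := by
  intro hnull
  obtain ⟨p₀, q₀, hp₀, hpq₀, hq₀, hint₀⟩ := exists_free hb hu huv
  have hv : 0 < v := by linarith
  have hv1 : 1 ≤ v := by linarith
  set S : ℝ := (q₀ - p₀) / (64 * v) / 2304 with hSdef
  have hS0 : 0 < S := by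
    have : 0 < q₀ - p₀ := by linarith
    positivity
  obtain ⟨ι, -, c, r, hr, hcov, hsum⟩ := hnull S hS0
  have hsum' : ∑' i, W r s i ≤ ENNReal.ofReal S := hsum
  set Lam : ℝ := log v + 2 with hLam
  have hLam0 : 0 < Lam := by have := log_nonneg hv1; linarith
  have hlen₀ : Len c r p₀ q₀ ≤ ENNReal.ofReal ((q₀ - p₀) / (64 * v)) := by
    classical
    calc Len c r p₀ q₀ ≤ ∑' i, ENNReal.ofReal 2304 * W r s i := by
          rw [Len]
          refine ENNReal.tsum_le_tsum fun i => ?_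
          split_ifs
          · rw [W, ← ENNReal.ofReal_mul (by norm_num)]
            exact ENNReal.ofReal_le_ofReal (r_le hs hs2.le (hr i).1 (hr i).2)
          · exact bot_le
      _ = ENNReal.ofReal 2304 * ∑' i, W r s i := ENNReal.tsum_mul_left
      _ ≤ ENNReal.ofReal 2304 * ENNReal.ofReal S := mul_le_mul' le_rfl hsum'
      _ = _ := by
          rw [← ENNReal.ofReal_mul (by norm_num), hSdef]
          congr 1
          ring
  -- the states of the game
  let St := {I : ℝ × ℝ // 1 ≤ I.1 ∧ I.1 < I.2 ∧ I.2 ≤ v ∧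
    Len c r I.1 I.2 ≤ ENNReal.ofReal ((I.2 - I.1) / (64 * v)) ∧
    ∀ k : ℕ, b ^ k < I.1 ∨ I.2 < b ^ k}
  have hnext : ∀ (k : ℕ) (I : St), ∃ J : St, I.1.1 < J.1.1 ∧ J.1.2 < I.1.2 ∧
      ∃ x : Σ _ : ℕ, ℕ, k + 1 ≤ x.1 ∧ exp (-Lam * x.1) ≤ 1 / (k + 1 + 1) ∧
        J.1.1 = X b x - exp (-Lam * x.1) ∧ J.1.2 = X b x + exp (-Lam * x.1) := by
    rintro k ⟨⟨p, q⟩, h1, h2, h3, h4, h5⟩
    simp only at h1 h2 h3 h4 h5
    obtain ⟨x, hx1, hx2, hx3, hx4, hx5⟩ := step hb hs hs2 hLam0 hS0 hr hsum' h1 h2 h3 h4 h5 (k + 1)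
    have he := exp_pos (-Lam * x.1)
    refine ⟨⟨(X b x - exp (-Lam * x.1), X b x + exp (-Lam * x.1)), by simp only; linarith,
      by simp only; linarith, by simp only; linarith, ?_, fun j => ?_⟩, hx3, hx4, x, hx1, ?_,
      rfl, rfl⟩
    · simp only
      refine hx5.trans (le_of_eq ?_)
      congr 1
      ring
    · simp only
      rcases h5 j with h | h
      · left; linarith
      · right; linarith
    · push_cast at hx2
      exact hx2
  choose nx hnx1 hnx2 hnx3 using hnext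
  let f : ℕ → St := fun k => Nat.rec ⟨(p₀, q₀), by simp only; linarith, hpq₀, hq₀.le, hlen₀, hint₀⟩
    (fun k I => nx k I) k
  have hf : ∀ k, f (k + 1) = nx k (f k) := fun k => rfl
  have hmono : Monotone (fun k => (f k).1.1) := monotone_nat_of_le_succ fun k => by
    simp only [hf]; exact (hnx1 k (f k)).le
  have hanti : Antitone (fun k => (f k).1.2) := antitone_nat_of_succ_le fun k => by
    simp only [hf]; exact (hnx2 k (f k)).le
  have hle : (fun k => (f k).1.1) ≤ (fun k => (f k).1.2) := fun k => (f k).2.2.1.le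
  have hmem := Monotone.ciSup_mem_iInter_Icc_of_antitone hmono hanti hle
  set a : ℝ := ⨆ k, (f k).1.1 with ha
  rw [mem_iInter] at hmem
  have ha0 : p₀ ≤ a ∧ a ≤ q₀ := hmem 0
  have hinf : ∀ x : ℝ, 0 < x → (PP a b x).Infinite := by
    intro x₀ hx₀ hfin
    obtain ⟨B, hB⟩ := (hfin.image Prod.fst).bddAbove
    obtain ⟨K, hK⟩ := exists_nat_gt (1 / x₀)
    set k := max B K with hk
    obtain ⟨x, hx1, hx2, hx3, hx4⟩ := hnx3 k (f k)
    rw [← hf] at hx3 hx4
    have hm := hmem (k + 1)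
    simp only [mem_Icc] at hm
    rw [hx3, hx4] at hm
    have hm0 := hmem k
    simp only [mem_Icc] at hm0
    have hXv : X b x ≤ v := by
      have h1 := hnx2 k (f k)
      rw [← hf, hx4] at h1
      have h2 := (f k).2.2.2.1
      have := exp_pos (-Lam * x.1)
      linarith
    have hclose : |a - X b x| ≤ exp (-(log v + 2) * x.1) := by
      rw [abs_le]
      constructor <;> linarith [hm.1, hm.2]
    have h1 := near_of_close hb (by omega) (by linarith) (by linarith) hv1 hXv hclose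
    have h2 : (1 : ℝ) / (x.1 + 1) ≤ x₀ := by
      rw [div_le_iff₀ (by positivity)]
      have h3 : (K : ℝ) ≤ x.1 := by
        have : K ≤ x.1 := le_trans (le_max_right B K) (by omega)
        exact_mod_cast this
      rw [div_lt_iff₀ hx₀] at hK
      nlinarith
    have h3 : (x.1, x.2) ∈ PP a b x₀ := h1.trans h2
    have h4 := hB (mem_image_of_mem Prod.fst h3)
    simp only at h4
    have h5 : B ≤ k := le_max_left _ _
    omega
  have haG : a ∈ {a | u < a ∧ a < v ∧ ∀ x : ℝ, 0 < x → (PP a b x).Infinite} :=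
    ⟨by linarith, by linarith, hinf⟩
  obtain ⟨i, hi⟩ := mem_iUnion.1 (hcov haG)
  have hri := (hr i).1
  obtain ⟨K, hK⟩ := exists_nat_gt (1 / r i)
  obtain ⟨x, hx1, hx2, hx3, hx4⟩ := hnx3 K (f K)
  rw [← hf] at hx3 hx4
  have hm := hmem (K + 1)
  simp only [mem_Icc] at hm
  classical
  have h1 : ENNReal.ofReal (r i) ≤ Len c r (f (K + 1)).1.1 (f (K + 1)).1.2 := by
    have := ENNReal.le_tsum (f := fun i =>
      if Hits c r (f (K + 1)).1.1 (f (K + 1)).1.2 i then ENNReal.ofReal (r i) else 0) i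
    have hh : Hits c r (f (K + 1)).1.1 (f (K + 1)).1.2 i :=
      ⟨lt_of_lt_of_le hi.1 hm.2, lt_of_le_of_lt hm.1 hi.2⟩
    simp only [hh, if_true] at this
    exact this
  have h2 := h1.trans (f (K + 1)).2.2.2.2.1
  have h3 : 0 ≤ ((f (K + 1)).1.2 - (f (K + 1)).1.1) / (64 * v) := by
    have := (f (K + 1)).2.2.1
    have h' : 0 ≤ (f (K + 1)).1.2 - (f (K + 1)).1.1 := by linarith
    positivity
  have h4 := (ENNReal.ofReal_le_ofReal_iff h3).1 h2
  rw [hx3, hx4] at h4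
  have h5 : X b x + exp (-Lam * x.1) - (X b x - exp (-Lam * x.1)) = 2 * exp (-Lam * x.1) := by ring
  rw [h5, le_div_iff₀ (by positivity)] at h4
  rw [div_lt_iff₀ hri] at hK
  have h6 : (1 : ℝ) / (K + 1 + 1) * (K + 1 + 1) = 1 := by field_simp
  have h7 : exp (-Lam * x.1) * (K + 1 + 1) ≤ 1 := by
    calc exp (-Lam * x.1) * (K + 1 + 1) ≤ 1 / (K + 1 + 1) * (K + 1 + 1) :=
          mul_le_mul_of_nonneg_right hx2 (by positivity)
      _ = 1 := h6
  have h8 : r i * 64 ≤ 2 * exp (-Lam * x.1) := by nlinarith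
  nlinarith [exp_pos (-Lam * x.1)]

end Pool.Agent.Helper12.NearGame
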