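import Mathlib

/-!
# Near-coincidences `|a ^ n - b ^ m|`: a covering game

For a countable family of intervals `(c i - r i, c i + r i)` with `∑ (log (1 / r i)) ^ (-s) < ∞`,
`s < 2`, one finds points `a` outside of it with infinitely many `|a ^ n - b ^ m| ≤ ε`.
-/

set_option autoImplicit false

namespace Pool.Agent.Helper12.NearGame

open Real Filter Set Topology
open scoped ENNReal

/-- the interval `i` may meet `[p, q]` -/
def Hits {ι : Type*} (c r : ι → ℝ) (p q : ℝ) (i : ι) : Prop := c i - r i < q ∧ p < c i + r i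

/-- distinct fractions with prime denominators at most `4 N` are far apart -/
theorem frac_sep {N n n' m m' : ℕ} (hn : n.Prime) (hn' : n'.Prime) (h1 : n ≤ 4 * N)
    (h2 : n' ≤ 4 * N) (hne : (m : ℝ) / n ≠ (m' : ℝ) / n') :
    1 / (16 * (N : ℝ) ^ 2) ≤ |(m : ℝ) / n - (m' : ℝ) / n'| := by
  have p1 : (0 : ℝ) < n := by exact_mod_cast hn.pos
  have p2 : (0 : ℝ) < n' := by exact_mod_cast hn'.pos
  have hN : (0 : ℝ) < N := by
    have : 0 < N := by
      have := hn.pos
      omega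
    exact_mod_cast this
  have e : (m : ℝ) / n - (m' : ℝ) / n' = (((m : ℤ) * n' - m' * n : ℤ) : ℝ) / (n * n') := by
    push_cast
    field_simp
  rw [e, abs_div, abs_of_pos (mul_pos p1 p2)]
  have hz : ((m : ℤ) * n' - m' * n : ℤ) ≠ 0 := by
    intro h0
    apply hne
    have : (m : ℝ) / n - (m' : ℝ) / n' = 0 := by rw [e, h0]; simp
    linarith
  have h3 : (1 : ℝ) ≤ |(((m : ℤ) * n' - m' * n : ℤ) : ℝ)| := by
    rw [← Int.cast_abs]
    exact_mod_cast Int.one_le_abs hz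
  have h4 : (n : ℝ) * n' ≤ 16 * (N : ℝ) ^ 2 := by
    have a1 : (n : ℝ) ≤ 4 * N := by exact_mod_cast h1
    have a2 : (n' : ℝ) ≤ 4 * N := by exact_mod_cast h2
    nlinarith
  rw [div_le_div_iff₀ (by positivity) (mul_pos p1 p2)]
  nlinarith [mul_pos p1 p2]

/-- `b ^ t` expands distances by `log b` at least -/
theorem rpow_expand {b : ℝ} (hb : 1 < b) {t t' : ℝ} (h0 : 0 ≤ t) (h : t ≤ t') :
    log b * (t' - t) ≤ b ^ t' - b ^ t := by
  have hb0 : 0 < b := by linarith
  have h1 : b ^ t' = b ^ t * b ^ (t' - t) := by rw [← rpow_add hb0]; congr 1; ring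
  have h2 : 1 + (t' - t) * log b ≤ b ^ (t' - t) := by
    rw [rpow_def_of_pos hb0]
    have := Real.add_one_le_exp (log b * (t' - t))
    linarith [mul_comm (log b) (t' - t)]
  have h3 : 1 ≤ b ^ t := one_le_rpow hb.le h0
  have h4 : 0 < log b := log_pos hb
  have h5 : 0 ≤ (t' - t) * log b := mul_nonneg (by linarith) h4.le
  rw [h1]
  nlinarith

theorem rpow_expand_abs {b : ℝ} (hb : 1 < b) {t t' : ℝ} (h0 : 0 ≤ t) (h0' : 0 ≤ t') :
    log b * |t - t'| ≤ |b ^ t - b ^ t'| := by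
  rcases le_total t t' with h | h
  · have h1 := rpow_expand hb h0 h
    rw [abs_sub_comm t, abs_sub_comm (b ^ t), abs_of_nonneg (by linarith : 0 ≤ t' - t)]
    exact h1.trans (le_abs_self _)
  · have h1 := rpow_expand hb h0' h
    rw [abs_of_nonneg (by linarith : 0 ≤ t - t')]
    exact h1.trans (le_abs_self _)

/-- upper bound for the difference of logarithms -/
theorem log_diff {b p q v : ℝ} (hb : 1 < b) (hp : 1 ≤ p) (hpq : p ≤ q) (hq : q ≤ v) :
    (q - p) / (v * log b) ≤ log q / log b - log p / log b := by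
  have h4 : 0 < log b := log_pos hb
  have hv : 0 < v := by linarith
  have h1 : (q - p) / v ≤ log q - log p := by
    rw [← log_div (by linarith) (by linarith)]
    have hp0 : 0 < p := by linarith
    have hq1 : 0 < q := by linarith
    have h2 := Real.one_sub_inv_le_log_of_pos (x := q / p) (by positivity)
    have h3 : (q - p) / v ≤ 1 - (q / p)⁻¹ := by
      rw [inv_div]
      have hq0 : 0 < q := by linarith
      rw [div_le_iff₀ hv]
      have : (1 - p / q) * v = (q - p) * (v / q) := by field_simp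
      rw [this]
      have h5 : 1 ≤ v / q := by rw [le_div_iff₀ hq0]; linarith
      nlinarith [mul_nonneg (sub_nonneg.2 hpq) (sub_nonneg.2 h5)]
    exact h3.trans h2
  rw [← sub_div, div_mul_eq_div_div]
  exact div_le_div_of_nonneg_right h1 h4.le

/-- the number of elements of a finite set of natural numbers of diameter at most `D` -/
theorem card_le_of_diam {A : Finset ℕ} {D : ℝ} (hD : 0 ≤ D)
    (h : ∀ x ∈ A, ∀ y ∈ A, x ≤ y → (y : ℝ) - x ≤ D) : (A.card : ℝ) ≤ D + 1 := by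
  rcases A.eq_empty_or_nonempty with h0 | h0
  · rw [h0]; simp; linarith
  · have h1 : A ⊆ Finset.Icc (A.min' h0) (A.max' h0) := fun x hx =>
      Finset.mem_Icc.2 ⟨A.min'_le x hx, A.le_max' x hx⟩
    have h2 := Finset.card_le_card h1
    rw [Nat.card_Icc] at h2
    have h3 := h _ (A.min'_mem h0) _ (A.max'_mem h0) (A.min'_le _ (A.max'_mem h0))
    have h4 : A.min' h0 ≤ A.max' h0 := A.min'_le _ (A.max'_mem h0)
    have h5 : (A.card : ℝ) ≤ ((A.max' h0 + 1 - A.min' h0 : ℕ) : ℝ) := by exact_mod_cast h2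
    rw [Nat.cast_sub (by omega)] at h5
    push_cast at h5
    linarith

/-- many primes between `N` and `4 N` -/
theorem many_primes : ∀ᶠ N : ℕ in atTop,
    (N : ℝ) ≤ log (4 * N) * ((((Finset.Ioc N (4 * N)).filter Nat.Prime).card : ℕ) : ℝ) := by
  have hlim : ∀ᶠ N : ℕ in atTop, log (4 * (N : ℝ) + 1) + 2 * √(4 * (N : ℝ)) * log (4 * (N : ℝ)) ≤
      (1 / 4) * N := by
    have h1 : (fun x : ℝ => log x) =o[atTop] (fun x : ℝ => x ^ (1 / 4 : ℝ)) :=
      isLittleO_log_rpow_atTop (by norm_num)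
    have h2 := (h1.bound (c := 1 / 100) (by norm_num))
    have h3 : ∀ᶠ x : ℝ in atTop, log x ≤ (1 / 100) * x ^ (1 / 4 : ℝ) := by
      filter_upwards [h2, eventually_ge_atTop 1] with x hx hx1
      rw [norm_eq_abs, norm_eq_abs, abs_of_nonneg (log_nonneg hx1),
        abs_of_nonneg (by positivity)] at hx
      exact hx
    have h4 : Tendsto (fun N : ℕ => 4 * (N : ℝ)) atTop atTop :=
      tendsto_natCast_atTop_atTop.const_mul_atTop (by norm_num)
    have h5 : Tendsto (fun N : ℕ => 4 * (N : ℝ) + 1) atTop atTop :=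
      tendsto_atTop_add_const_right _ _ h4
    filter_upwards [h4.eventually h3, h5.eventually h3, eventually_ge_atTop 1] with N e1 e2 e3
    have hN : (1 : ℝ) ≤ N := by exact_mod_cast e3
    set y : ℝ := 4 * (N : ℝ) with hy
    have hy1 : 1 ≤ y := by linarith
    have f1 : y ^ (1 / 4 : ℝ) ≤ √y := by
      rw [sqrt_eq_rpow]
      exact rpow_le_rpow_of_exponent_le hy1 (by norm_num)
    have f2 : (y + 1) ^ (1 / 4 : ℝ) ≤ y + 1 := by
      calc (y + 1) ^ (1 / 4 : ℝ) ≤ (y + 1) ^ (1 : ℝ) :=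
            rpow_le_rpow_of_exponent_le (by linarith) (by norm_num)
        _ = y + 1 := rpow_one _
    have f3 : √y * √y = y := mul_self_sqrt (by linarith)
    have f4 : 0 ≤ √y := sqrt_nonneg _
    have f5 : 2 * √y * log y ≤ 2 * √y * ((1 / 100) * √y) :=
      mul_le_mul_of_nonneg_left (e1.trans (by linarith)) (by positivity)
    nlinarith
  filter_upwards [hlim, eventually_ge_atTop 1] with N h1 h2
  have hN : (1 : ℝ) ≤ N := by exact_mod_cast h2
  have t1 := Chebyshev.theta_ge (4 * N)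
  have t2 := Chebyshev.theta_le_log4_mul_x (x := (N : ℝ)) (by positivity)
  have t3 : Chebyshev.theta ((4 * N : ℕ) : ℝ) - Chebyshev.theta (N : ℝ) ≤
      log (4 * N) * ((((Finset.Ioc N (4 * N)).filter Nat.Prime).card : ℕ) : ℝ) := by
    unfold Chebyshev.theta
    rw [Nat.floor_natCast, Nat.floor_natCast]
    have e : (Finset.Ioc 0 (4 * N)).filter Nat.Prime =
        ((Finset.Ioc 0 N).filter Nat.Prime) ∪ ((Finset.Ioc N (4 * N)).filter Nat.Prime) := by
      rw [← Finset.filter_union, Finset.Ioc_union_Ioc_eq_Ioc (Nat.zero_le _) (by omega)]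
    have hd : Disjoint ((Finset.Ioc 0 N).filter Nat.Prime)
        ((Finset.Ioc N (4 * N)).filter Nat.Prime) := by
      apply Finset.disjoint_filter_filter
      rw [Finset.disjoint_left]
      intro x hx hx'
      rw [Finset.mem_Ioc] at hx hx'
      omega
    rw [e, Finset.sum_union hd, add_sub_cancel_left]
    have := Finset.sum_le_card_nsmul ((Finset.Ioc N (4 * N)).filter Nat.Prime)
      (fun p => log (p : ℝ)) (log (4 * N)) (fun p hp => by
        rw [Finset.mem_filter, Finset.mem_Ioc] at hp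
        apply log_le_log (by exact_mod_cast hp.2.pos)
        exact_mod_cast hp.1.2)
    rw [nsmul_eq_mul] at this
    exact this.trans (le_of_eq (mul_comm _ _))
  push_cast at t1
  have hl4 : log 4 = 2 * log 2 := by
    rw [show (4 : ℝ) = 2 ^ 2 by norm_num, log_pow]; norm_num
  rw [hl4] at t2
  have hl2 : (0.69 : ℝ) < log 2 := by linarith [log_two_gt_d9]
  push_cast at t3
  nlinarith

/-- the primes of `(N, 4 N]` -/
def Pr (N : ℕ) : Finset ℕ := (Finset.Ioc N (4 * N)).filter Nat.Prime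

/-- the pairs `(n, m)`, `n` a prime of `(N, 4 N]`, with `m / n` in `[t₁, t₂]` -/
noncomputable def Fam (N : ℕ) (t₁ t₂ : ℝ) : Finset (Σ _ : ℕ, ℕ) :=
  (Pr N).sigma fun n => Finset.Icc ⌈n * t₁⌉₊ ⌊n * t₂⌋₊

theorem mem_Pr {N n : ℕ} : n ∈ Pr N ↔ (N < n ∧ n ≤ 4 * N) ∧ n.Prime := by
  rw [Pr, Finset.mem_filter, Finset.mem_Ioc]

theorem fam_card {N : ℕ} {t₁ t₂ : ℝ} (h1 : 0 ≤ t₁) (h2 : t₁ ≤ t₂) :
    ((Pr N).card : ℝ) * (N * (t₂ - t₁) - 1) ≤ ((Fam N t₁ t₂).card : ℝ) := by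
  rw [Fam, Finset.card_sigma, ← nsmul_eq_mul, Nat.cast_sum]
  refine Finset.card_nsmul_le_sum _ _ _ fun n hn => ?_
  have hn' := (mem_Pr.1 hn).1.1
  have hn2 : (N : ℝ) ≤ n := by exact_mod_cast hn'.le
  have e1 : n * t₂ < ⌊n * t₂⌋₊ + 1 := Nat.lt_floor_add_one _
  have e2 : (⌈n * t₁⌉₊ : ℝ) < n * t₁ + 1 := Nat.ceil_lt_add_one (by positivity)
  have e3 : (⌊n * t₂⌋₊ : ℝ) + 1 - ⌈n * t₁⌉₊ ≤
      ((Finset.Icc ⌈n * t₁⌉₊ ⌊n * t₂⌋₊).card : ℝ) := by
    rw [Nat.card_Icc]
    have := Nat.sub_le_iff_le_add.1 (le_refl (⌊n * t₂⌋₊ + 1 - ⌈n * t₁⌉₊))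
    have h3 : ((⌊n * t₂⌋₊ + 1 : ℕ) : ℝ) ≤
        ((⌊n * t₂⌋₊ + 1 - ⌈n * t₁⌉₊ : ℕ) : ℝ) + (⌈n * t₁⌉₊ : ℝ) := by exact_mod_cast this
    push_cast at h3
    linarith
  have e4 : (N : ℝ) * (t₂ - t₁) ≤ n * (t₂ - t₁) :=
    mul_le_mul_of_nonneg_right hn2 (by linarith)
  nlinarith

/-- the point `b ^ (m / n)` -/
noncomputable def X (b : ℝ) (x : Σ _ : ℕ, ℕ) : ℝ := b ^ ((x.2 : ℝ) / x.1)

/-- few members of the family are near a given interval -/
theorem bad_card {b : ℝ} (hb : 1 < b) {N : ℕ} {t₁ t₂ c r ρ : ℝ} (hr : 0 ≤ r) (hρ : 0 ≤ ρ)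
    (A : Finset (Σ _ : ℕ, ℕ)) (hA : A ⊆ Fam N t₁ t₂)
    (hA2 : ∀ x ∈ A, c - r < X b x + ρ ∧ X b x - ρ < c + r) :
    (A.card : ℝ) ≤ (Pr N).card * (8 * N * (r + ρ) / log b + 1) := by
  classical
  have hlb : 0 < log b := log_pos hb
  have h1 : A ⊆ (Pr N).sigma fun n => (A.filter fun x => x.1 = n).image (fun x => x.2) := by
    intro x hx
    rw [Finset.mem_sigma]
    refine ⟨(Finset.mem_sigma.1 (hA hx)).1, Finset.mem_image.2 ⟨x, ?_, rfl⟩⟩
    exact Finset.mem_filter.2 ⟨hx, rfl⟩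
  have h2 := Finset.card_le_card h1
  rw [Finset.card_sigma] at h2
  have h3 : (A.card : ℝ) ≤
      ∑ n ∈ Pr N, ((((A.filter fun x => x.1 = n).image (fun x => x.2)).card : ℕ) : ℝ) := by
    exact_mod_cast h2
  refine h3.trans ?_
  rw [← nsmul_eq_mul]
  refine Finset.sum_le_card_nsmul _ _ _ fun n hn => ?_
  obtain ⟨⟨hn1, hn2⟩, hn3⟩ := mem_Pr.1 hn
  have hn0 : (0 : ℝ) < n := by exact_mod_cast hn3.pos
  refine card_le_of_diam (by positivity) fun x hx y hy hxy => ?_
  obtain ⟨⟨n1, x'⟩, hx1, hx2⟩ := Finset.mem_image.1 hx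
  obtain ⟨⟨n2, y'⟩, hy1, hy2⟩ := Finset.mem_image.1 hy
  obtain ⟨hx3, hx4⟩ := Finset.mem_filter.1 hx1
  obtain ⟨hy3, hy4⟩ := Finset.mem_filter.1 hy1
  simp only at hx2 hx4 hy2 hy4
  subst hx2 hx4 hy2
  subst hy4
  have k1 := hA2 _ hx3
  have k2 := hA2 _ hy3
  have k3 : X b ⟨n2, y'⟩ - X b ⟨n2, x'⟩ ≤ 2 * (r + ρ) := by linarith [k1.1, k2.2]
  have k4 := rpow_expand hb (t := (x' : ℝ) / n2) (t' := (y' : ℝ) / n2) (by positivity)
    (div_le_div_of_nonneg_right (by exact_mod_cast hxy) hn0.le)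
  simp only [X] at k3
  have k5 : log b * ((y' : ℝ) / n2 - (x' : ℝ) / n2) ≤ 2 * (r + ρ) := k4.trans k3
  have k6 : (y' : ℝ) - x' ≤ 2 * n2 * (r + ρ) / log b := by
    rw [le_div_iff₀ hlb]
    have e : (y' : ℝ) - x' = n2 * ((y' : ℝ) / n2 - (x' : ℝ) / n2) := by field_simp
    rw [e]
    nlinarith
  refine k6.trans ?_
  apply div_le_div_of_nonneg_right _ hlb.le
  have k7 : (n2 : ℝ) ≤ 4 * N := by exact_mod_cast hn2
  nlinarith [add_nonneg hr hρ]

/-- the members of the family are separated -/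
theorem sep {b : ℝ} (hb : 1 < b) {N : ℕ} {t₁ t₂ : ℝ}
    (hk : ∀ x ∈ Fam N t₁ t₂, ∀ k : ℕ, X b x ≠ b ^ k) {x y : Σ _ : ℕ, ℕ}
    (hx : x ∈ Fam N t₁ t₂) (hy : y ∈ Fam N t₁ t₂) (hne : x ≠ y) :
    log b / (16 * (N : ℝ) ^ 2) ≤ |X b x - X b y| := by
  have hlb : 0 < log b := log_pos hb
  have hb0 : 0 < b := by linarith
  obtain ⟨n, m⟩ := x
  obtain ⟨n', m'⟩ := y
  obtain ⟨⟨hn1, hn2⟩, hn3⟩ := mem_Pr.1 (Finset.mem_sigma.1 hx).1
  obtain ⟨⟨hm1, hm2⟩, hm3⟩ := mem_Pr.1 (Finset.mem_sigma.1 hy).1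
  simp only at hn1 hn2 hn3 hm1 hm2 hm3
  have q1 : (0 : ℝ) < n := by exact_mod_cast hn3.pos
  have q2 : (0 : ℝ) < n' := by exact_mod_cast hm3.pos
  have hfr : (m : ℝ) / n ≠ (m' : ℝ) / n' := by
    intro h
    rw [div_eq_div_iff q1.ne' q2.ne'] at h
    have h' : m * n' = m' * n := by exact_mod_cast h
    rcases eq_or_ne n n' with h0 | h0
    · subst h0
      have := Nat.eq_of_mul_eq_mul_right hn3.pos h'
      exact hne (by rw [this])
    · have hcop : Nat.Coprime n n' := (Nat.coprime_primes hn3 hm3).2 h0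
      have hdvd : n ∣ m := hcop.dvd_of_dvd_mul_right ⟨m', by rw [h', mul_comm]⟩
      obtain ⟨k, rfl⟩ := hdvd
      apply hk _ hx k
      simp only [X]
      rw [← rpow_natCast]
      congr 1
      push_cast
      field_simp
  have h1 := frac_sep hn3 hm3 hn2 hm2 hfr
  have h2 := rpow_expand_abs hb (t := (m : ℝ) / n) (t' := (m' : ℝ) / n') (by positivity)
    (by positivity)
  calc log b / (16 * (N : ℝ) ^ 2) = log b * (1 / (16 * (N : ℝ) ^ 2)) := by ring
    _ ≤ log b * |(m : ℝ) / n - (m' : ℝ) / n'| := mul_le_mul_of_nonneg_left h1 hlb.le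
    _ ≤ _ := h2

/-- `L ^ s ≤ exp (L / 2)` for `L ≥ 48`, `s ≤ 2` -/
theorem rpow_le_exp_half {L s : ℝ} (hL : 48 ≤ L) (hs : s ≤ 2) : L ^ s ≤ exp (L / 2) := by
  have h1 : L ^ s ≤ L ^ (2 : ℝ) := rpow_le_rpow_of_exponent_le (by linarith) hs
  rw [rpow_two] at h1
  refine h1.trans ?_
  -- `exp (L/2) = exp (L/8)^4 ≥ ...`
  have h2 : (L / 8 + 1) ≤ exp (L / 8) := add_one_le_exp _
  have h3 : exp (L / 2) = exp (L / 8) ^ 4 := by rw [← exp_nat_mul]; congr 1; push_cast; ring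
  have h4 : (L / 8 + 1) ^ 4 ≤ exp (L / 8) ^ 4 := pow_le_pow_left₀ (by linarith) h2 4
  rw [h3]
  refine le_trans ?_ h4
  have h5 : L ≤ (L / 8 + 1) ^ 2 := by nlinarith
  calc L ^ 2 ≤ ((L / 8 + 1) ^ 2) ^ 2 := pow_le_pow_left₀ (by linarith) h5 2
    _ = _ := by ring

/-- intervals of small weight are very short -/
theorem point_bound {s s' N r : ℝ} (hs : 0 < s) (hs2 : s ≤ 2) (hN0 : 0 < N)
    (E6 : 48 ≤ N ^ (s' / s)) (hr : 0 < r) (hr1 : r < 1)
    (hg : (log (1 / r)) ^ (-s) ≤ N ^ (-s')) :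
    r ≤ exp (-N ^ (s' / s) / 2) * (log (1 / r)) ^ (-s) := by
  set L := log (1 / r) with hL
  have hL0 : 0 < L := log_pos (by rw [lt_div_iff₀ hr]; linarith)
  have hrL : r = exp (-L) := by
    rw [hL, one_div, log_inv, neg_neg, exp_log hr]
  have hLL : N ^ (s' / s) ≤ L := by
    by_contra hcon
    push Not at hcon
    have h1 : (N ^ (s' / s)) ^ (-s) < L ^ (-s) := rpow_lt_rpow_of_neg hL0 hcon (by linarith)
    rw [← rpow_mul hN0.le] at h1
    have e : s' / s * -s = -s' := by field_simp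
    rw [e] at h1
    linarith
  have h3 : L ^ s ≤ exp (L / 2) := rpow_le_exp_half (E6.trans hLL) hs2
  have h4 : exp (-L / 2) ≤ exp (-N ^ (s' / s) / 2) := by
    apply exp_le_exp.2; linarith
  have h5 : exp (-L) = exp (-L / 2) * exp (-L / 2) := by rw [← exp_add]; congr 1; ring
  have h6 : exp (-L / 2) ≤ L ^ (-s) := by
    rw [rpow_neg hL0.le, neg_div, exp_neg]
    exact inv_anti₀ (rpow_pos_of_pos hL0 _) h3
  rw [hrL, h5]
  exact mul_le_mul h4 h6 (exp_pos _).le (exp_pos _).le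

/-- the weights of the intervals -/
noncomputable def W {ι : Type} (r : ι → ℝ) (s : ℝ) (i : ι) : ℝ≥0∞ :=
  ENNReal.ofReal ((log (1 / r i)) ^ (-s))

open Classical in
/-- the total length of the intervals near `[p, q]` -/
noncomputable def Len {ι : Type} (c r : ι → ℝ) (p q : ℝ) : ℝ≥0∞ :=
  ∑' i, if Hits c r p q i then ENNReal.ofReal (r i) else 0

set_option maxHeartbeats 1600000 in
open Classical in
/-- One step of the game, at a scale `N` which satisfies some inequalities. -/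
theorem core {b v s s' p q S Lam : ℝ} (hb : 1 < b) (hs : 0 < s) (hs2 : s ≤ 2)
    (hp : 1 ≤ p) (hpq : p < q) (hqv : q ≤ v) (hLam : 0 < Lam) (hS0 : 0 < S)
    {ι : Type} {c r : ι → ℝ} (hr : ∀ i, 0 < r i ∧ r i < 1)
    (hS : ∑' i, W r s i ≤ ENNReal.ofReal S)
    (hP : Len c r p q ≤ ENNReal.ofReal ((q - p) / (64 * v)))
    (hint : ∀ k : ℕ, b ^ k < p ∨ q < b ^ k) {N : ℕ} (hN : 1 ≤ N)
    (E1 : exp (-Lam * N) ≤ (q - p) / 8)
    (E2 : exp (-Lam * N) ≤ log b / (128 * (N : ℝ) ^ 2))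
    (E2' : log b / (128 * (N : ℝ) ^ 2) < 1)
    (E3 : 1 + S * (log (128 * (N : ℝ) ^ 2 / log b)) ^ s *
      (8 * N * exp (-Lam * N) / log b + 1) ≤ N * (q - p) / (16 * v * log b))
    (hPr : 0 < (Pr N).card)
    (E4 : S ≤ ((Pr N).card * (N * (q - p) / (4 * v * log b))) * (N : ℝ) ^ (-s'))
    (E5 : S * exp (-(N : ℝ) ^ (s' / s) / 2) ≤ 2 * exp (-Lam * (4 * N)) / (64 * v))
    (E6 : 48 ≤ (N : ℝ) ^ (s' / s)) :
    ∃ x : Σ _ : ℕ, ℕ, (N < x.1 ∧ x.1 ≤ 4 * N) ∧
      p + (q - p) / 8 ≤ X b x - exp (-Lam * x.1) ∧ X b x + exp (-Lam * x.1) ≤ q - (q - p) / 8 ∧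
      Len c r (X b x - exp (-Lam * x.1)) (X b x + exp (-Lam * x.1)) ≤
        ENNReal.ofReal ((2 * exp (-Lam * x.1)) / (64 * v)) := by
  have hlb : 0 < log b := log_pos hb
  have hb0 : 0 < b := by linarith
  have hv : 0 < v := by linarith
  have hN0 : (0 : ℝ) < N := by exact_mod_cast hN
  set D := q - p with hD
  have hD0 : 0 < D := by linarith
  set t₁ := log (p + D / 4) / log b with ht₁
  set t₂ := log (q - D / 4) / log b with ht₂
  have ht₁0 : 0 ≤ t₁ := div_nonneg (log_nonneg (by linarith)) hlb.le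
  have ht : (D / 2) / (v * log b) ≤ t₂ - t₁ := by
    have := log_diff (b := b) (p := p + D / 4) (q := q - D / 4) (v := v) hb (by linarith)
      (by linarith) (by linarith)
    have e : q - D / 4 - (p + D / 4) = D / 2 := by rw [hD]; ring
    rwa [e] at this
  have ht12 : t₁ ≤ t₂ := by
    have : 0 ≤ (D / 2) / (v * log b) := by positivity
    linarith
  -- positions of the points of the family
  have hX : ∀ x ∈ Fam N t₁ t₂, p + D / 4 ≤ X b x ∧ X b x ≤ q - D / 4 := by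
    rintro ⟨n, m⟩ hx
    obtain ⟨h1, h2⟩ := Finset.mem_sigma.1 hx
    obtain ⟨⟨hn1, hn2⟩, hn3⟩ := mem_Pr.1 h1
    simp only at hn1 hn2 hn3 h2
    have hn0 : (0 : ℝ) < n := by exact_mod_cast hn3.pos
    rw [Finset.mem_Icc] at h2
    have k1 : n * t₁ ≤ m := (Nat.le_ceil _).trans (by exact_mod_cast h2.1)
    have k2 : (m : ℝ) ≤ n * t₂ := by
      have : (0 : ℝ) ≤ n * t₂ := mul_nonneg hn0.le (ht₁0.trans ht12)
      exact (Nat.cast_le.2 h2.2).trans (Nat.floor_le this)
    have k3 : t₁ ≤ (m : ℝ) / n := by rw [le_div_iff₀ hn0]; linarith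
    have k4 : (m : ℝ) / n ≤ t₂ := by rw [div_le_iff₀ hn0]; linarith
    have k5 : b ^ t₁ = p + D / 4 := by
      rw [ht₁, rpow_def_of_pos hb0, mul_div_cancel₀ _ hlb.ne', exp_log (by linarith)]
    have k6 : b ^ t₂ = q - D / 4 := by
      rw [ht₂, rpow_def_of_pos hb0, mul_div_cancel₀ _ hlb.ne', exp_log (by linarith)]
    refine ⟨?_, ?_⟩
    · rw [← k5]; exact rpow_le_rpow_of_exponent_le hb.le k3
    · rw [← k6]; exact rpow_le_rpow_of_exponent_le hb.le k4
  have hXk : ∀ x ∈ Fam N t₁ t₂, ∀ k : ℕ, X b x ≠ b ^ k := by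
    intro x hx k h
    obtain ⟨h1, h2⟩ := hX x hx
    rcases hint k with h3 | h3 <;> rw [h] at h1 h2 <;> linarith
  set ρ := exp (-Lam * N) with hρ
  have hρ0 : 0 < ρ := exp_pos _
  have hρn : ∀ x ∈ Fam N t₁ t₂, exp (-Lam * x.1) ≤ ρ := by
    intro x hx
    have := (mem_Pr.1 (Finset.mem_sigma.1 hx).1).1.1
    rw [hρ]
    apply exp_le_exp.2
    have h2 : (N : ℝ) ≤ x.1 := by exact_mod_cast this.le
    nlinarith
  have hρn' : ∀ x ∈ Fam N t₁ t₂, exp (-Lam * (4 * N)) ≤ exp (-Lam * x.1) := by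
    intro x hx
    have := (mem_Pr.1 (Finset.mem_sigma.1 hx).1).1.2
    apply exp_le_exp.2
    have h2 : (x.1 : ℝ) ≤ 4 * N := by exact_mod_cast this
    nlinarith
  -- the large intervals
  set σ := log b / (128 * (N : ℝ) ^ 2) with hσ
  have hσ0 : 0 < σ := by positivity
  have hL1 : 0 < log (1 / σ) := log_pos (by rw [lt_div_iff₀ hσ0]; linarith)
  set g₀ : ℝ := (log (1 / σ)) ^ (-s) with hg₀
  have hg₀0 : 0 < g₀ := rpow_pos_of_pos hL1 _
  have hbig : ∀ i, σ ≤ r i → ENNReal.ofReal g₀ ≤ W r s i := by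
    intro i hi
    apply ENNReal.ofReal_le_ofReal
    have h1 : 0 < log (1 / r i) := log_pos (by
      rw [lt_div_iff₀ (hr i).1]; linarith [(hr i).2])
    have h2 : log (1 / r i) ≤ log (1 / σ) :=
      log_le_log (by have := (hr i).1; positivity) (one_div_le_one_div_of_le hσ0 hi)
    exact rpow_le_rpow_of_nonpos h1 h2 (by linarith)
  obtain ⟨hfin, hcard⟩ := ENNReal.finset_card_const_le_le_of_tsum_le ENNReal.ofReal_ne_top hS
    (ENNReal.ofReal_pos.2 hg₀0).ne'
  set Bf : Finset ι := hfin.toFinset.filter (fun i => Hits c r p q i ∧ σ ≤ r i) with hBf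
  have hBfmem : ∀ i, i ∈ Bf ↔ Hits c r p q i ∧ σ ≤ r i := by
    intro i
    rw [hBf, Finset.mem_filter]
    refine ⟨fun h => h.2, fun h => ⟨?_, h⟩⟩
    rw [Set.Finite.mem_toFinset]
    exact hbig i h.2
  have hBcard : (Bf.card : ℝ) ≤ S * (log (1 / σ)) ^ s := by
    have h1 : (Bf.card : ℝ≥0∞) ≤ ENNReal.ofReal S / ENNReal.ofReal g₀ :=
      le_trans (by exact_mod_cast Finset.card_le_card (Finset.filter_subset _ _)) hcard
    rw [← ENNReal.ofReal_div_of_pos hg₀0] at h1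
    have h2 : ENNReal.ofReal (Bf.card : ℝ) ≤ ENNReal.ofReal (S / g₀) := by
      rwa [ENNReal.ofReal_natCast]
    have h3 := (ENNReal.ofReal_le_ofReal_iff (by positivity)).1 h2
    refine h3.trans (le_of_eq ?_)
    rw [hg₀, rpow_neg hL1.le, div_inv_eq_mul]
  have hBlen : ∑ i ∈ Bf, r i ≤ D / (64 * v) := by
    have h1 : ∑ i ∈ Bf, ENNReal.ofReal (r i) ≤ Len c r p q := by
      have : ∑ i ∈ Bf, ENNReal.ofReal (r i) =
          ∑ i ∈ Bf, (if Hits c r p q i then ENNReal.ofReal (r i) else 0) :=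
        Finset.sum_congr rfl fun i hi => by rw [if_pos ((hBfmem i).1 hi).1]
      rw [this]
      exact ENNReal.sum_le_tsum _
    rw [← ENNReal.ofReal_sum_of_nonneg fun i _ => (hr i).1.le] at h1
    exact (ENNReal.ofReal_le_ofReal_iff (by positivity)).1 (h1.trans hP)
  -- the members of the family which are not near the large intervals
  set bad : ι → Finset (Σ _ : ℕ, ℕ) := fun i => (Fam N t₁ t₂).filter fun x =>
    Hits c r (X b x - exp (-Lam * x.1)) (X b x + exp (-Lam * x.1)) i with hbad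
  set F' : Finset (Σ _ : ℕ, ℕ) := Fam N t₁ t₂ \ Bf.biUnion bad with hF'
  set pk : ℝ := ((Pr N).card : ℝ) with hpk
  have hpk0 : 0 < pk := by rw [hpk]; exact_mod_cast hPr
  have hbadcard : ∀ i, ((bad i).card : ℝ) ≤ pk * (8 * N * (r i + ρ) / log b + 1) := by
    intro i
    refine bad_card hb (t₁ := t₁) (t₂ := t₂) (c := c i) (hr i).1.le hρ0.le (bad i)
      (Finset.filter_subset _ _) fun x hx => ?_
    obtain ⟨h1, h2⟩ := Finset.mem_filter.1 hx
    have h3 := hρn x h1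
    exact ⟨by linarith [h2.1], by linarith [h2.2]⟩
  have hbadsum : ((Bf.biUnion bad).card : ℝ) ≤
      pk * (8 * N * (D / (64 * v)) / log b + (Bf.card : ℝ) * (8 * N * ρ / log b + 1)) := by
    have h1 : ((Bf.biUnion bad).card : ℝ) ≤ ∑ i ∈ Bf, ((bad i).card : ℝ) := by
      exact_mod_cast Finset.card_biUnion_le
    refine h1.trans ((Finset.sum_le_sum fun i _ => hbadcard i).trans ?_)
    rw [← Finset.mul_sum]
    apply mul_le_mul_of_nonneg_left _ hpk0.le
    have e : ∑ i ∈ Bf, (8 * N * (r i + ρ) / log b + 1) =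
        8 * N * (∑ i ∈ Bf, r i) / log b + (Bf.card : ℝ) * (8 * N * ρ / log b + 1) := by
      have : ∀ i, 8 * N * (r i + ρ) / log b + 1 =
          (8 * N / log b) * r i + (8 * N * ρ / log b + 1) := fun i => by ring
      rw [Finset.sum_congr rfl fun i _ => this i, Finset.sum_add_distrib, ← Finset.mul_sum,
        Finset.sum_const, nsmul_eq_mul]
      ring
    rw [e]
    gcongr
  have hF'card : pk * (N * D / (4 * v * log b)) ≤ (F'.card : ℝ) := by
    have h1 := fam_card (N := N) ht₁0 ht12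
    have h2 : ((Fam N t₁ t₂).card : ℝ) ≤ (F'.card : ℝ) + ((Bf.biUnion bad).card : ℝ) := by
      have := Finset.le_card_sdiff (Bf.biUnion bad) (Fam N t₁ t₂)
      have h3 : (Fam N t₁ t₂).card ≤ F'.card + (Bf.biUnion bad).card := by rw [hF']; omega
      exact_mod_cast h3
    have h3 : pk * (N * (t₂ - t₁) - 1) - pk * (8 * N * (D / (64 * v)) / log b +
        (Bf.card : ℝ) * (8 * N * ρ / log b + 1)) ≤ (F'.card : ℝ) := by
      linarith
    refine le_trans ?_ h3
    rw [← mul_sub]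
    apply mul_le_mul_of_nonneg_left _ hpk0.le
    have h4 : (Bf.card : ℝ) * (8 * N * ρ / log b + 1) ≤
        S * (log (128 * (N : ℝ) ^ 2 / log b)) ^ s * (8 * N * ρ / log b + 1) := by
      apply mul_le_mul_of_nonneg_right _ (by positivity)
      have e : 1 / σ = 128 * (N : ℝ) ^ 2 / log b := by rw [hσ, one_div_div]
      rw [← e]
      exact hBcard
    have h5 : (N : ℝ) * ((D / 2) / (v * log b)) ≤ N * (t₂ - t₁) :=
      mul_le_mul_of_nonneg_left ht hN0.le
    have e1 : (N : ℝ) * ((D / 2) / (v * log b)) = 2 * (N * D / (4 * v * log b)) := by ring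
    have e2 : 8 * N * (D / (64 * v)) / log b = (1 / 2) * (N * D / (4 * v * log b)) := by ring
    have e3 : N * D / (16 * v * log b) = (1 / 4) * (N * D / (4 * v * log b)) := by ring
    rw [e3] at E3
    rw [e1] at h5
    rw [e2]
    have h6 : 0 < N * D / (4 * v * log b) :=
      div_pos (mul_pos hN0 hD0) (mul_pos (mul_pos four_pos hv) hlb)
    linarith
  have hmain0 : 0 < pk * (N * D / (4 * v * log b)) :=
    mul_pos hpk0 (div_pos (mul_pos hN0 hD0) (mul_pos (mul_pos four_pos hv) hlb))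
  have hFpos : 0 < (F'.card : ℝ) := lt_of_lt_of_le hmain0 hF'card
  have hFne : F'.Nonempty := by
    rw [← Finset.card_pos]; exact_mod_cast hFpos
  -- the weight of the small intervals near the members of the family
  set G : (Σ _ : ℕ, ℕ) → ℝ≥0∞ := fun x => ∑' i,
    if (r i < σ ∧ Hits c r (X b x - exp (-Lam * x.1)) (X b x + exp (-Lam * x.1)) i)
      then W r s i else 0 with hG
  have hGsum : ∑ x ∈ F', G x ≤ ENNReal.ofReal S := by
    rw [hG]
    rw [← (Summable.tsum_finsetSum fun x _ => ENNReal.summable)]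
    refine le_trans (ENNReal.tsum_le_tsum fun i => ?_) hS
    by_cases h0 : ∃ x ∈ F', r i < σ ∧
        Hits c r (X b x - exp (-Lam * x.1)) (X b x + exp (-Lam * x.1)) i
    · obtain ⟨x, hx, h1, h2⟩ := h0
      rw [Finset.sum_eq_single_of_mem x hx]
      · split_ifs
        · exact le_refl _
        · exact bot_le
      · intro y hy hne
        rw [if_neg]
        rintro ⟨-, h3⟩
        have hx' := (Finset.mem_sdiff.1 hx).1
        have hy' := (Finset.mem_sdiff.1 hy).1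
        have h4 := sep hb hXk hy' hx' hne
        have h5 := hρn x hx'
        have h6 := hρn y hy'
        have h7 : |X b y - X b x| < 4 * σ := by
          rw [abs_lt]
          obtain ⟨u1, u2⟩ := h2
          obtain ⟨w1, w2⟩ := h3
          constructor <;> linarith
        have h8 : log b / (16 * (N : ℝ) ^ 2) = 8 * σ := by rw [hσ]; ring
        rw [h8] at h4
        linarith
    · push Not at h0
      rw [Finset.sum_eq_zero]
      · exact bot_le
      · intro x hx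
        rw [if_neg]
        rintro ⟨h1, h2⟩
        exact h0 x hx h1 h2
  obtain ⟨x, hx, hGx⟩ : ∃ x ∈ F', G x ≤ ENNReal.ofReal (S / F'.card) := by
    by_contra hcon
    push Not at hcon
    have h1 := ENNReal.sum_lt_sum_of_nonempty hFne hcon
    rw [Finset.sum_const, nsmul_eq_mul, ← ENNReal.ofReal_natCast,
      ← ENNReal.ofReal_mul (Nat.cast_nonneg _)] at h1
    have h2 : (F'.card : ℝ) * (S / F'.card) = S := mul_div_cancel₀ S hFpos.ne'
    rw [h2] at h1
    exact absurd hGsum (not_le.2 h1)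
  have hxF := (Finset.mem_sdiff.1 hx).1
  have hxb := (Finset.mem_sdiff.1 hx).2
  obtain ⟨hx1, hx2⟩ := hX x hxF
  have hρx := hρn x hxF
  have hτ : S / F'.card ≤ (N : ℝ) ^ (-s') := by
    rw [div_le_iff₀ hFpos]
    refine E4.trans ?_
    rw [mul_comm ((N : ℝ) ^ (-s'))]
    exact mul_le_mul_of_nonneg_right hF'card (by positivity)
  have hsmall : ∀ i, Hits c r (X b x - exp (-Lam * x.1)) (X b x + exp (-Lam * x.1)) i →
      r i < σ := by
    intro i hi
    by_contra hcon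
    push Not at hcon
    apply hxb
    rw [Finset.mem_biUnion]
    refine ⟨i, (hBfmem i).2 ⟨⟨?_, ?_⟩, hcon⟩, Finset.mem_filter.2 ⟨hxF, hi⟩⟩
    · linarith [hi.1]
    · linarith [hi.2]
  refine ⟨x, (mem_Pr.1 (Finset.mem_sigma.1 hxF).1).1, by linarith, by linarith, ?_⟩
  have hstep : Len c r (X b x - exp (-Lam * x.1)) (X b x + exp (-Lam * x.1)) ≤
      ENNReal.ofReal (exp (-(N : ℝ) ^ (s' / s) / 2)) * ENNReal.ofReal S := by
    rw [Len]
    refine le_trans ?_ (mul_le_mul' le_rfl hS)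
    rw [← ENNReal.tsum_mul_left]
    refine ENNReal.tsum_le_tsum fun i => ?_
    split_ifs with hi
    · rw [W, ← ENNReal.ofReal_mul (exp_pos _).le]
      apply ENNReal.ofReal_le_ofReal
      have h1 : W r s i ≤ G x := by
        have := ENNReal.le_tsum (f := fun i =>
          if (r i < σ ∧ Hits c r (X b x - exp (-Lam * x.1)) (X b x + exp (-Lam * x.1)) i)
            then W r s i else 0) i
        simp only [hsmall i hi, hi, and_self, if_true] at this
        exact this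
      have h2 := h1.trans hGx
      rw [W] at h2
      have h0 : 0 ≤ S / F'.card := div_nonneg hS0.le hFpos.le
      exact point_bound hs hs2 hN0 E6 (hr i).1 (hr i).2
        (((ENNReal.ofReal_le_ofReal_iff h0).1 h2).trans hτ)
    · exact bot_le
  refine hstep.trans ?_
  rw [← ENNReal.ofReal_mul (exp_pos _).le]
  apply ENNReal.ofReal_le_ofReal
  have h1 := hρn' x hxF
  calc exp (-(N : ℝ) ^ (s' / s) / 2) * S = S * exp (-(N : ℝ) ^ (s' / s) / 2) := mul_comm _ _
    _ ≤ 2 * exp (-Lam * (4 * N)) / (64 * v) := E5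
    _ ≤ _ := by gcongr

end Pool.Agent.Helper12.NearGame
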