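import Pool.Agent.Helper12.NearFull
import Pool.Agent.H491R3.PE.Near
import Pool.Agent.TH709.NC.Lines

/-!
# The asymptotic number of near-coincidences: metric theory
-/

set_option autoImplicit false

namespace Pool.Agent.Helper12.NearGame

open Real Filter Set Topology
open scoped ENNReal

/-! ### null sets of the gauge -/

theorem LogNull.mono {s : ℝ} {E F : Set ℝ} (hF : LogNull s F) (h : E ⊆ F) : LogNull s E := by
  intro ε hε
  obtain ⟨ι, hι, c, r, h1, h2, h3⟩ := hF ε hε
  exact ⟨ι, hι, c, r, h1, h.trans h2, h3⟩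

theorem LogNull.iUnion {s : ℝ} {E : ℕ → Set ℝ} (h : ∀ k, LogNull s (E k)) :
    LogNull s (⋃ k, E k) := by
  intro ε hε
  have hε' : ∀ k : ℕ, 0 < ε / 2 * (1 / 2) ^ k := fun k => by positivity
  choose ι hι c r h1 h2 h3 using fun k => h k _ (hε' k)
  refine ⟨Σ k, ι k, inferInstance, fun x => c x.1 x.2, fun x => r x.1 x.2,
    fun x => h1 x.1 x.2, ?_, ?_⟩
  · intro a ha
    obtain ⟨k, hk⟩ := mem_iUnion.1 ha
    obtain ⟨i, hi⟩ := mem_iUnion.1 (h2 k hk)
    exact mem_iUnion.2 ⟨⟨k, i⟩, hi⟩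
  · refine le_of_eq_of_le (ENNReal.tsum_sigma' _) ?_
    calc ∑' k, ∑' i, ENNReal.ofReal (log (1 / r k i) ^ (-s))
        ≤ ∑' k : ℕ, ENNReal.ofReal (ε / 2 * (1 / 2) ^ k) := ENNReal.tsum_le_tsum fun k => h3 k
      _ = ENNReal.ofReal (∑' k : ℕ, ε / 2 * (1 / 2) ^ k) := by
          rw [ENNReal.ofReal_tsum_of_nonneg (fun k => (hε' k).le)]
          exact summable_geometric_two.mul_left _
      _ = ENNReal.ofReal ε := by
          rw [tsum_mul_left, tsum_geometric_two]
          congr 1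
          ring

theorem LogNull.union {s : ℝ} {E F : Set ℝ} (hE : LogNull s E) (hF : LogNull s F) :
    LogNull s (E ∪ F) := by
  have h : LogNull s (⋃ k : ℕ, if k = 0 then E else F) :=
    LogNull.iUnion fun k => by split_ifs <;> assumption
  refine h.mono (union_subset ?_ ?_)
  · exact fun x hx => mem_iUnion.2 ⟨0, by simpa using hx⟩
  · exact fun x hx => mem_iUnion.2 ⟨1, by simpa using hx⟩

theorem LogNull.singleton {s : ℝ} (hs : 0 < s) (x : ℝ) : LogNull s {x} := by
  intro ε hε
  set K : ℝ := (1 / ε) ^ (1 / s) with hK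
  have hK0 : 0 < K := by positivity
  refine ⟨Unit, inferInstance, fun _ => x, fun _ => exp (-K), fun _ => ⟨exp_pos _, ?_⟩, ?_, ?_⟩
  · rw [exp_lt_one_iff]; linarith
  · rintro y rfl
    have := exp_pos (-K)
    exact mem_iUnion.2 ⟨(), by linarith, by linarith⟩
  · rw [tsum_fintype]
    simp only [Finset.univ_unique, Finset.sum_singleton]
    apply ENNReal.ofReal_le_ofReal
    rw [one_div, ← exp_neg, neg_neg, log_exp, hK, ← rpow_mul (by positivity)]
    have : 1 / s * -s = -1 := by field_simp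
    rw [this, rpow_neg_one, one_div, inv_inv]

theorem LogNull.countable {s : ℝ} (hs : 0 < s) {E : Set ℝ} (hE : E.Countable) : LogNull s E := by
  rcases E.eq_empty_or_nonempty with h0 | h0
  · rw [h0]; exact (LogNull.singleton hs 0).mono (empty_subset _)
  · obtain ⟨f, hf⟩ := hE.exists_eq_range h0
    rw [hf]
    have : range f = ⋃ k, {f k} := by ext y; simp [eq_comm]
    rw [this]
    exact LogNull.iUnion fun k => LogNull.singleton hs _

/-- sets that are null for one of the gauges have Hausdorff dimension zero -/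
theorem LogNull.dimH {s : ℝ} (hs : 0 < s) {E : Set ℝ} (h : LogNull s E) : dimH E = 0 := by
  -- comparison of the gauges
  have key : ∀ d : ℝ, 0 < d → ∀ r : ℝ, 0 < r → r < 1 →
      r ^ d ≤ (s / d) ^ s * (log (1 / r)) ^ (-s) := by
    intro d hd r hr hr1
    set L := log (1 / r) with hL
    have hL0 : 0 < L := log_pos (by rw [lt_div_iff₀ hr]; linarith)
    have hrL : r = exp (-L) := by rw [hL, one_div, log_inv, neg_neg, exp_log hr]
    have h1 : (d / s) * L ≤ exp ((d / s) * L) := by
      have := add_one_le_exp ((d / s) * L); linarith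
    have h2 : ((d / s) * L) ^ s ≤ exp (d * L) := by
      have h3 := rpow_le_rpow (by positivity) h1 hs.le
      rw [← exp_mul] at h3
      have : d / s * L * s = d * L := by field_simp
      rwa [this] at h3
    rw [mul_rpow (by positivity) hL0.le] at h2
    have h4 : (s / d) ^ s * (d / s) ^ s = 1 := by
      rw [← mul_rpow (by positivity) (by positivity)]
      have : s / d * (d / s) = 1 := by field_simp
      rw [this, one_rpow]
    rw [rpow_neg hL0.le, ← div_eq_mul_inv, le_div_iff₀ (rpow_pos_of_pos hL0 _), hrL, ← exp_mul]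
    have h5 : exp (-L * d) * exp (d * L) = 1 := by rw [← exp_add]; simp; ring
    have h6 : 0 < (s / d) ^ s := by positivity
    have h7 : L ^ s ≤ (s / d) ^ s * exp (d * L) := by
      calc L ^ s = (s / d) ^ s * ((d / s) ^ s * L ^ s) := by rw [← mul_assoc, h4, one_mul]
        _ ≤ _ := mul_le_mul_of_nonneg_left h2 h6.le
    calc exp (-L * d) * L ^ s ≤ exp (-L * d) * ((s / d) ^ s * exp (d * L)) :=
          mul_le_mul_of_nonneg_left h7 (exp_pos _).le
      _ = (s / d) ^ s * (exp (-L * d) * exp (d * L)) := by ring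
      _ = (s / d) ^ s := by rw [h5, mul_one]
  have hμ : ∀ d : ℝ, 0 < d → MeasureTheory.Measure.hausdorffMeasure d E ≠ ∞ := by
    intro d hd
    have hε : ∀ n : ℕ, 0 < 1 / ((n : ℝ) + 1) := fun n => by positivity
    choose ι hι c r h1 h2 h3 using fun n : ℕ => h _ (hε n)
    have hC1 : 0 < (s / 1) ^ s := by positivity
    set C1 : ℝ := (s / 1) ^ s with hC1d
    set C2 : ℝ := 2 ^ d * (s / d) ^ s with hC2d
    have hC2 : 0 < C2 := by positivity
    have hle := MeasureTheory.Measure.hausdorffMeasure_le_liminf_tsum (ι := ι) d E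
      (l := (atTop : Filter ℕ)) (fun n => ENNReal.ofReal (2 * (C1 * (1 / ((n : ℝ) + 1)))))
      (by
        rw [← ENNReal.ofReal_zero]
        apply ENNReal.tendsto_ofReal
        have := (tendsto_one_div_add_atTop_nhds_zero_nat (𝕜 := ℝ)).const_mul C1
        have := this.const_mul 2
        simpa using this)
      (fun n i => Ioo (c n i - r n i) (c n i + r n i))
      (Eventually.of_forall fun n i => by
        rw [Real.ediam_Ioo]
        apply ENNReal.ofReal_le_ofReal
        have k1 := key 1 one_pos (r n i) (h1 n i).1 (h1 n i).2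
        rw [rpow_one] at k1
        have k2 : (log (1 / r n i)) ^ (-s) ≤ 1 / ((n : ℝ) + 1) := by
          have := (ENNReal.le_tsum i).trans (h3 n)
          exact (ENNReal.ofReal_le_ofReal_iff (hε n).le).1 this
        have k3 : r n i ≤ C1 * (1 / ((n : ℝ) + 1)) :=
          k1.trans (mul_le_mul_of_nonneg_left k2 hC1.le)
        linarith)
      (Eventually.of_forall fun n => h2 n)
    have hbound : ∀ n : ℕ, ∑' i, Metric.ediam (Ioo (c n i - r n i) (c n i + r n i)) ^ d ≤
        ENNReal.ofReal (C2 * 1) := by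
      intro n
      calc ∑' i, Metric.ediam (Ioo (c n i - r n i) (c n i + r n i)) ^ d
          ≤ ∑' i, ENNReal.ofReal C2 * ENNReal.ofReal ((log (1 / r n i)) ^ (-s)) := by
            refine ENNReal.tsum_le_tsum fun i => ?_
            rw [Real.ediam_Ioo, ENNReal.ofReal_rpow_of_nonneg (by linarith [(h1 n i).1]) hd.le,
              ← ENNReal.ofReal_mul hC2.le]
            apply ENNReal.ofReal_le_ofReal
            have e : c n i + r n i - (c n i - r n i) = 2 * r n i := by ring
            rw [e, mul_rpow (by norm_num) (h1 n i).1.le, hC2d, mul_assoc]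
            exact mul_le_mul_of_nonneg_left (key d hd (r n i) (h1 n i).1 (h1 n i).2)
              (by positivity)
        _ = ENNReal.ofReal C2 * ∑' i, ENNReal.ofReal ((log (1 / r n i)) ^ (-s)) :=
            ENNReal.tsum_mul_left
        _ ≤ ENNReal.ofReal C2 * ENNReal.ofReal 1 := by
            refine mul_le_mul' le_rfl ((h3 n).trans (ENNReal.ofReal_le_ofReal ?_))
            rw [div_le_one (by positivity)]
            have : (0 : ℝ) ≤ n := by positivity
            linarith
        _ = _ := (ENNReal.ofReal_mul hC2.le).symm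
    refine ne_top_of_le_ne_top (b := ENNReal.ofReal (C2 * 1)) ENNReal.ofReal_ne_top
      (hle.trans ?_)
    refine liminf_le_of_le (by isBoundedDefault) fun b hb => ?_
    obtain ⟨n, hn⟩ := hb.exists
    exact hn.trans (hbound n)
  apply le_antisymm _ bot_le
  apply ENNReal.le_of_forall_pos_le_add
  intro ε hε _
  refine le_trans (dimH_le_of_hausdorffMeasure_ne_top (hμ ε (by exact_mod_cast hε))) ?_
  exact le_add_self

/-! ### the exceptional set is null for `s > 2` -/

/-- the exceptional set -/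
def Exc (b : ℝ) : Set ℝ :=
  {a | 1 < a ∧ ∀ N : ℕ, ∃ n : ℕ, N ≤ n ∧ ∃ m : ℕ, |a ^ n - b ^ m| ≤ n}

theorem pow_diff_lower {a x : ℝ} (ha : 0 ≤ a) (hx : 0 ≤ x) {n : ℕ} (hn : 1 ≤ n) :
    |a - x| * a ^ (n - 1) ≤ |a ^ n - x ^ n| := by
  have h1 := geom_sum₂_mul a x n
  rw [← h1, abs_mul, mul_comm]
  apply mul_le_mul_of_nonneg_right _ (abs_nonneg _)
  refine le_trans ?_ (le_abs_self _)
  have h2 : n - 1 ∈ Finset.range n := Finset.mem_range.2 (by omega)
  have h3 := Finset.single_le_sum (f := fun i => a ^ i * x ^ (n - 1 - i))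
    (fun i _ => by positivity) h2
  simpa using h3

theorem exc_null {b s : ℝ} (hb : 1 < b) (hs : 2 < s) : LogNull s (Exc b) := by
  have hlb : 0 < log b := log_pos hb
  have hb0 : 0 < b := by linarith
  have hsub : Exc b ⊆ ⋃ k : ℕ, {a | 1 + 1 / ((k : ℝ) + 1) ≤ a ∧ a ≤ k + 1 ∧ a ∈ Exc b} := by
    intro a ha
    obtain ⟨k₁, hk₁⟩ := exists_nat_gt (1 / (a - 1))
    obtain ⟨k₂, hk₂⟩ := exists_nat_gt a
    have ha1 : 0 < a - 1 := by linarith [ha.1]
    refine mem_iUnion.2 ⟨max k₁ k₂, ?_, ?_, ha⟩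
    · have h1 : (k₁ : ℝ) ≤ ((max k₁ k₂ : ℕ) : ℝ) := by exact_mod_cast le_max_left _ _
      have h2 : 1 / (((max k₁ k₂ : ℕ) : ℝ) + 1) ≤ a - 1 := by
        rw [div_le_iff₀ (by positivity)]
        rw [div_lt_iff₀ ha1] at hk₁
        nlinarith
      linarith
    · have h1 : (k₂ : ℝ) ≤ ((max k₁ k₂ : ℕ) : ℝ) := by exact_mod_cast le_max_right _ _
      linarith
  refine LogNull.mono (LogNull.iUnion fun k => ?_) hsub
  set A : ℝ := 1 + 1 / ((k : ℝ) + 1) with hA
  have hA1 : 1 < A := by rw [hA]; have : 0 < 1 / ((k : ℝ) + 1) := by positivity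
                         linarith
  set K : ℝ := (k : ℝ) + 1 with hK
  have hK1 : 1 ≤ K := by rw [hK]; have : (0 : ℝ) ≤ k := by positivity
                         linarith
  have hlA : 0 < log A := log_pos hA1
  set c : ℝ := log A / 2 with hc
  have hc0 : 0 < c := by positivity
  set M₀ : ℕ := ⌈log (2 * K) / log b⌉₊ with hM₀
  -- the series
  set h : ℕ → ℝ≥0∞ := fun n => ENNReal.ofReal (((M₀ * n + 1 : ℕ) : ℝ) * (c * n) ^ (-s)) with hh
  have hsum : ∑' n, h n ≠ ∞ := by
    have h1 : Summable fun n : ℕ => ((M₀ + 1 : ℝ) * c ^ (-s)) * (n : ℝ) ^ (1 - s) :=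
      (Real.summable_nat_rpow.2 (by linarith)).mul_left _
    have h2 : ∀ n, h n ≤ ENNReal.ofReal (((M₀ + 1 : ℝ) * c ^ (-s)) * (n : ℝ) ^ (1 - s)) := by
      intro n
      apply ENNReal.ofReal_le_ofReal
      rcases Nat.eq_zero_or_pos n with h0 | h0
      · subst h0
        simp only [Nat.cast_zero, mul_zero]
        rw [zero_rpow (by linarith : -s ≠ 0)]
        simp only [mul_zero]
        positivity
      · have hn1 : (1 : ℝ) ≤ n := by exact_mod_cast h0
        have hn0 : (0 : ℝ) < n := by linarith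
        rw [mul_rpow hc0.le hn0.le, show (1 : ℝ) - s = 1 + -s by ring, rpow_add hn0, rpow_one]
        have h3 : ((M₀ * n + 1 : ℕ) : ℝ) ≤ (M₀ + 1) * n := by push_cast; nlinarith
        calc ((M₀ * n + 1 : ℕ) : ℝ) * (c ^ (-s) * (n : ℝ) ^ (-s))
            ≤ ((M₀ + 1) * n) * (c ^ (-s) * (n : ℝ) ^ (-s)) := by
              apply mul_le_mul_of_nonneg_right h3 (by positivity)
          _ = _ := by ring
    refine ne_top_of_le_ne_top ?_ (ENNReal.tsum_le_tsum h2)
    rw [← ENNReal.ofReal_tsum_of_nonneg (fun n => by positivity) h1]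
    exact ENNReal.ofReal_ne_top
  intro ε hε
  have htail := ENNReal.tendsto_sum_nat_add h hsum
  have e1 : ∀ᶠ N : ℕ in atTop, ∑' n, h (n + N) ≤ ENNReal.ofReal ε :=
    htail.eventually (ge_mem_nhds (ENNReal.ofReal_pos.2 hε))
  have e2 : ∀ᶠ N : ℕ in atTop, A * ((N : ℝ) ^ (1 : ℝ) * exp (-c * N)) < 1 := by
    filter_upwards [ev_exp 1 hc0 (ε := 1 / (2 * A)) (by positivity)] with N hN
    calc A * ((N : ℝ) ^ (1 : ℝ) * exp (-c * N)) ≤ A * (1 / (2 * A)) :=
          mul_le_mul_of_nonneg_left hN (by linarith)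
      _ = 1 / 2 := by field_simp
      _ < 1 := by norm_num
  obtain ⟨N₀, hN₀⟩ := (e1.and (e2.and (eventually_ge_atTop 1))).exists_forall_of_atTop
  set N := N₀ with hNdef
  refine ⟨Σ n : ℕ, Fin (M₀ * (n + N) + 1), inferInstance,
    fun x => b ^ (((x.2 : ℕ) : ℝ) / ((x.1 + N : ℕ) : ℝ)), fun x => exp (-c * ((x.1 + N : ℕ) : ℝ)),
    ?_, ?_, ?_⟩
  · rintro ⟨n, j⟩
    refine ⟨exp_pos _, ?_⟩
    rw [exp_lt_one_iff]
    have h1 : 1 ≤ n + N := by have := (hN₀ N le_rfl).2.2; omega
    have h2 : (1 : ℝ) ≤ ((n + N : ℕ) : ℝ) := by exact_mod_cast h1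
    simp only
    nlinarith
  · rintro a ⟨ha1, ha2, -, ha3⟩
    obtain ⟨n, hn, m, hm⟩ := ha3 N
    obtain ⟨-, g2, g3⟩ := hN₀ n hn
    have ha0 : 1 < a := lt_of_lt_of_le hA1 ha1
    have hn1 : (1 : ℝ) ≤ n := by exact_mod_cast g3
    have hn0 : (0 : ℝ) < n := by linarith
    -- the bound for `m`
    have hm1 : b ^ m ≤ (2 * K) ^ n := by
      have h1 : b ^ m ≤ a ^ n + n := by have := (abs_le.1 hm).1; linarith
      have h2 : a ^ n ≤ K ^ n := pow_le_pow_left₀ (by linarith) ha2 n
      have h3 : (1 : ℝ) ≤ K ^ n := one_le_pow₀ hK1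
      have h4 : (n : ℝ) + 1 ≤ 2 ^ n := by
        have : n + 1 ≤ 2 ^ n := Nat.lt_two_pow_self
        exact_mod_cast this
      rw [mul_pow]
      nlinarith
    have hm2 : (m : ℝ) ≤ M₀ * n := by
      have h1 := log_le_log (by positivity) hm1
      rw [log_pow, log_pow] at h1
      have h2 : log (2 * K) ≤ M₀ * log b := by
        have := Nat.le_ceil (log (2 * K) / log b)
        rwa [div_le_iff₀ hlb] at this
      have h3 : (m : ℝ) * log b ≤ (M₀ * n) * log b := by nlinarith
      exact le_of_mul_le_mul_right h3 hlb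
    have hm3 : m < M₀ * n + 1 := by
      have : m ≤ M₀ * n := by exact_mod_cast hm2
      omega
    have hnN : n - N + N = n := Nat.sub_add_cancel hn
    have hm4 : m < M₀ * (n - N + N) + 1 := by rw [hnN]; exact hm3
    refine mem_iUnion.2 ⟨⟨n - N, ⟨m, hm4⟩⟩, ?_⟩
    simp only [hnN]
    set x : ℝ := b ^ ((m : ℝ) / n) with hx
    have hxn : x ^ n = b ^ m := by
      rw [hx, ← rpow_natCast, ← rpow_mul hb0.le, div_mul_cancel₀ _ hn0.ne', rpow_natCast]
    have hx0 : 0 ≤ x := rpow_nonneg hb0.le _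
    have h1 := pow_diff_lower (a := a) (x := x) (by linarith) hx0 (by exact_mod_cast hn1)
    rw [hxn] at h1
    have h2 := h1.trans hm
    have h3 : A ^ n ≤ a ^ (n - 1) * A := by
      have h4 : A ^ (n - 1) ≤ a ^ (n - 1) := pow_le_pow_left₀ (by linarith) ha1 _
      calc A ^ n = A ^ (n - 1) * A := by
            rw [← pow_succ]; congr 1
            have : 1 ≤ n := by exact_mod_cast hn1
            omega
        _ ≤ a ^ (n - 1) * A := mul_le_mul_of_nonneg_right h4 (by linarith)
    have h5 : A ^ n = exp (c * n) * exp (c * n) := by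
      rw [← exp_add, hc, ← add_mul]
      have : log A / 2 + log A / 2 = log A := by ring
      rw [this, mul_comm, exp_nat_mul, exp_log (by linarith)]
    have h6 : |a - x| < exp (-c * n) := by
      rw [rpow_one] at g2
      have hE : 0 < exp (c * n) := exp_pos _
      have h7 : exp (-c * n) = (exp (c * n))⁻¹ := by rw [← exp_neg]; congr 1; ring
      rw [h7] at g2 ⊢
      have h8 : A * n < exp (c * n) := by
        have : A * (n * (exp (c * n))⁻¹) * exp (c * n) < 1 * exp (c * n) :=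
          mul_lt_mul_of_pos_right g2 hE
        have e : A * (n * (exp (c * n))⁻¹) * exp (c * n) = A * n := by field_simp
        rw [e] at this
        linarith
      have h9 : |a - x| * (exp (c * n) * exp (c * n)) ≤ A * n := by
        rw [← h5]
        calc |a - x| * A ^ n ≤ |a - x| * (a ^ (n - 1) * A) :=
              mul_le_mul_of_nonneg_left h3 (abs_nonneg _)
          _ = (|a - x| * a ^ (n - 1)) * A := by ring
          _ ≤ n * A := mul_le_mul_of_nonneg_right h2 (by linarith)
          _ = A * n := mul_comm _ _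
      rw [← one_div, lt_div_iff₀ hE]
      by_contra hcon
      push Not at hcon
      nlinarith
    rw [abs_lt] at h6
    constructor <;> linarith [h6.1, h6.2]
  · refine le_of_eq_of_le (ENNReal.tsum_sigma' _) ?_
    refine le_trans (ENNReal.tsum_le_tsum fun n => ?_) (hN₀ N le_rfl).1
    rw [tsum_fintype, hh]
    simp only
    rw [Finset.sum_const, Finset.card_univ, Fintype.card_fin, nsmul_eq_mul, one_div, ← exp_neg, log_exp, ← ENNReal.ofReal_natCast,
      ← ENNReal.ofReal_mul (Nat.cast_nonneg _)]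
    apply ENNReal.ofReal_le_ofReal
    apply le_of_eq
    congr 2
    ring

/-! ### the asymptotic off the exceptional set -/

open Pool.Agent.H491R3.PE Pool.Agent.TH709.NC

theorem fin_of_bdd {a b : ℝ} (ha : 1 < a) (hb : 1 < b) (x : ℝ) (B : ℕ) {T : Set (ℕ × ℕ)}
    (h : ∀ p ∈ T, p.1 ≤ B ∧ |a ^ p.1 - b ^ p.2| ≤ x) : T.Finite := by
  refine (box_count ha hb (x := max 2 (a ^ B + |x|)) (le_max_left _ _)).1.subset ?_
  intro p hp
  obtain ⟨h1, h2⟩ := h p hp
  have h3 : a ^ p.1 ≤ a ^ B := pow_le_pow_right₀ ha.le h1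
  have h4 := (abs_le.1 h2).1
  have h5 := le_abs_self x
  have h6 := abs_nonneg x
  exact ⟨(show a ^ p.1 ≤ a ^ B + |x| by linarith).trans (le_max_right _ _),
    (show b ^ p.2 ≤ a ^ B + |x| by linarith).trans (le_max_right _ _)⟩

theorem tow_large (h : ℕ) : h + 1 ≤ tow h := by
  induction h with
  | zero => simp [tow]
  | succ h ih =>
    have h1 : tow (h + 1) = 2 ^ tow h := rfl
    have h2 : tow h + 1 ≤ 2 ^ tow h := Nat.lt_two_pow_self
    omega

theorem off_exc {a b : ℝ} (ha : 1 < a) (hb : 1 < b) (hE : a ∉ Exc b) :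
    ∃ C : ℝ, ∀ x : ℝ, 2 ≤ x → (PP a b x).Finite ∧
      |((PP a b x).ncard : ℝ) - log x ^ 2 / (log a * log b)| ≤ C * log x := by
  obtain ⟨N₀, hN₀⟩ : ∃ N₀ : ℕ, ∀ n ≥ N₀, ∀ m : ℕ, (n : ℝ) < |a ^ n - b ^ m| := by
    by_contra hcon
    push Not at hcon
    exact hE ⟨ha, fun N => by
      obtain ⟨n, h1, m, h2⟩ := hcon N
      exact ⟨n, h1, m, h2⟩⟩
  have hbd : ∀ x : ℝ, ∀ p : ℕ × ℕ, |a ^ p.1 - b ^ p.2| ≤ x → p.1 ≤ max N₀ ⌈x⌉₊ := by
    intro x p hp
    by_contra hcon
    push Not at hcon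
    have h1 := hN₀ p.1 ((le_max_left _ _).trans hcon.le) p.2
    have h2 : x ≤ p.1 := (Nat.le_ceil x).trans (by
      exact_mod_cast (le_max_right N₀ ⌈x⌉₊).trans hcon.le)
    linarith
  have hfin : ∀ x : ℝ, (NS a b x).Finite := fun x =>
    fin_of_bdd ha hb x (max N₀ ⌈x⌉₊) fun p hp => ⟨hbd x p hp, hp⟩
  have hirr : Irrational (log a / log b) := by
    by_contra hcon
    exact infinite_of_rational ha hb hcon (x := 0) le_rfl (hfin 0)
  have hSX : ∀ x, (SX a b x).Finite := fun x => (hfin x).subset fun p hp => hp.2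
  obtain ⟨C₁, hC₁⟩ := countS ha hb hirr hSX
  obtain ⟨C₂, hC₂⟩ := thin ha hb
  -- the number of near misses
  have hcnt : ∀ x : ℝ, 2 ≤ x → ((SX a b x).ncard : ℝ) ≤ 2 * log x + (N₀ + C₂ + 4) := by
    intro x hx
    have hx0 : 0 < x := by linarith
    have hl0 : 0 < log x := log_pos (by linarith)
    set h : ℕ := ⌈2 * log x⌉₊ + N₀ + 1 with hh
    have htow : max N₀ ⌈x⌉₊ ≤ tow (h + 1) := by
      have h1 : tow (h + 1) = 2 ^ tow h := rfl
      have h2 : h + 1 ≤ tow h := tow_large h
      have h3 : 2 ^ (h + 1) ≤ tow (h + 1) := by rw [h1]; exact Nat.pow_le_pow_right (by norm_num) h2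
      refine le_trans (max_le ?_ ?_) h3
      · have : h + 1 ≤ 2 ^ (h + 1) := Nat.lt_two_pow_self.le
        omega
      · rw [Nat.ceil_le]
        have h4 : x ≤ (2 : ℝ) ^ (h + 1) := by
          have h5 : exp (log x) ≤ exp ((h + 1 : ℕ) * log 2) := by
            apply exp_le_exp.2
            have h6 : 2 * log x ≤ h := by
              have := Nat.le_ceil (2 * log x)
              rw [hh]; push_cast; linarith
            have h7 : (0.69 : ℝ) < log 2 := by linarith [log_two_gt_d9]
            push_cast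
            nlinarith
          rw [exp_log hx0, exp_nat_mul, exp_log (by norm_num)] at h5
          exact h5
        exact_mod_cast h4
    have hsub : SX a b x ⊆ {l | l ∈ LL a b ∧ l.1 ≤ tow (h + 1)} ∪ {(0, 1)} := by
      intro p hp
      rcases Nat.eq_zero_or_pos p.1 with h0 | h0
      · right
        have h1 := hp.1.1
        rw [h0, Nat.coprime_zero_left] at h1
        exact Prod.ext h0 h1
      · left
        exact ⟨⟨h0, hp.1.1, hp.1.2⟩, (hbd x p hp.2).trans htow⟩
    have hfin1 := LL_fin ha hb (tow (h + 1))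
    have h1 := Set.ncard_le_ncard hsub (hfin1.union (Set.finite_singleton _))
    have h2 := Set.ncard_union_le {l | l ∈ LL a b ∧ l.1 ≤ tow (h + 1)} {((0, 1) : ℕ × ℕ)}
    rw [Set.ncard_singleton] at h2
    have h3 := hC₂ (h + 1)
    have h4 : (SX a b x).ncard ≤ h + 1 + C₂ + 1 := by omega
    have h5 : ((SX a b x).ncard : ℝ) ≤ h + 1 + C₂ + 1 := by exact_mod_cast h4
    have h6 : (⌈2 * log x⌉₊ : ℝ) < 2 * log x + 1 := Nat.ceil_lt_add_one (by positivity)
    have h7 : (h : ℝ) = ⌈2 * log x⌉₊ + N₀ + 1 := by rw [hh]; push_cast; ring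
    rw [h7] at h5
    linarith
  refine ⟨C₁ + 2 + (N₀ + C₂ + 4) / log 2, fun x hx => ?_⟩
  obtain ⟨h1, h2⟩ := hC₁ x hx
  have h3 := hcnt x hx
  have hl2 : 0 < log 2 := log_pos (by norm_num)
  have hlx : log 2 ≤ log x := log_le_log (by norm_num) hx
  have h4 : ((N₀ : ℝ) + C₂ + 4) ≤ (N₀ + C₂ + 4) / log 2 * log x := by
    rw [div_mul_eq_mul_div, le_div_iff₀ hl2]
    apply mul_le_mul_of_nonneg_left hlx (by positivity)
  have h5 : (0 : ℝ) ≤ ((SX a b x).ncard : ℝ) := by positivity
  refine ⟨h1, ?_⟩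
  change |((NS a b x).ncard : ℝ) - log x ^ 2 / (log a * log b)| ≤ _
  rw [abs_le] at h2 ⊢
  constructor
  · nlinarith [h2.1, h2.2]
  · nlinarith [h2.1, h2.2]

/-! ### generic numbers -/

theorem generic {b : ℝ} (hb : 1 < b) :
    ∀ᶠ a in residual ℝ, 1 < a → ∀ x : ℝ, 0 < x → (PP a b x).Infinite := by
  have hb0 : 0 < b := by linarith
  set U : ℕ → Set ℝ := fun N =>
    Iio 1 ∪ ⋃ n : ℕ, ⋃ m : ℕ, {a : ℝ | |a ^ (n + N) - b ^ m| < 1 / ((N : ℝ) + 1)} with hU
  have hopen : ∀ N, IsOpen (U N) := fun N => by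
    refine isOpen_Iio.union (isOpen_iUnion fun n => isOpen_iUnion fun m => ?_)
    exact isOpen_lt (by fun_prop) continuous_const
  have hdense : ∀ N, Dense (U N) := by
    intro N
    rw [Metric.dense_iff]
    intro a ε hε
    rcases lt_or_ge a 1 with h | h
    · exact ⟨a, Metric.mem_ball_self hε, Or.inl h⟩
    · -- a rational between `log a / log b` and `log (a + ε) / log b`
      have hlb : 0 < log b := log_pos hb
      have h1 : log a / log b < log (a + ε) / log b :=
        div_lt_div_of_pos_right (log_lt_log (by linarith) (by linarith)) hlb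
      obtain ⟨q, hq1, hq2⟩ := exists_rat_btwn h1
      have hq0 : 0 ≤ q := by
        have : (0 : ℝ) < q := lt_of_le_of_lt (div_nonneg (log_nonneg h) hlb.le) hq1
        exact_mod_cast this.le
      refine ⟨b ^ (q : ℝ), ?_, Or.inr ?_⟩
      · rw [Metric.mem_ball, dist_eq, abs_lt]
        rw [div_lt_iff₀ hlb] at hq1
        rw [lt_div_iff₀ hlb] at hq2
        have e : b ^ (q : ℝ) = exp (q * log b) := by rw [rpow_def_of_pos hb0, mul_comm]
        have k1 : a < b ^ (q : ℝ) := by
          rw [e, ← log_lt_iff_lt_exp (by linarith)]; exact hq1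
        have k2 : b ^ (q : ℝ) < a + ε := by
          rw [e, ← lt_log_iff_exp_lt (by linarith)]; exact hq2
        constructor <;> linarith
      · refine mem_iUnion.2 ⟨q.den * (N + 1) - N, mem_iUnion.2 ⟨q.num.toNat * (N + 1), ?_⟩⟩
        have hden : 1 ≤ q.den := q.den_pos
        have hle : N ≤ q.den * (N + 1) := by nlinarith
        have e1 : q.den * (N + 1) - N + N = q.den * (N + 1) := Nat.sub_add_cancel hle
        have e2 : (b ^ (q : ℝ)) ^ (q.den * (N + 1)) = b ^ (q.num.toNat * (N + 1)) := by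
          rw [← rpow_natCast, ← rpow_mul hb0.le, ← rpow_natCast]
          congr 1
          push_cast
          have h1 : ((q.num.toNat : ℤ)) = q.num := Int.toNat_of_nonneg (Rat.num_nonneg.2 hq0)
          have h2 : (q : ℝ) = (q.num : ℝ) / (q.den : ℝ) := Rat.cast_def q
          have h3 : (q.num : ℝ) = (q.num.toNat : ℝ) := by exact_mod_cast h1.symm
          rw [h2, h3]
          have : (q.den : ℝ) ≠ 0 := by exact_mod_cast q.den_pos.ne'
          field_simp
        change |(b ^ (q : ℝ)) ^ (q.den * (N + 1) - N + N) - b ^ (q.num.toNat * (N + 1))| <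
          1 / ((N : ℝ) + 1)
        rw [e1, e2, sub_self, abs_zero]
        positivity
  have hres : ∀ᶠ a in residual ℝ, ∀ N, a ∈ U N := by
    rw [eventually_countable_forall]
    exact fun N => residual_of_dense_open (hopen N) (hdense N)
  filter_upwards [hres] with a ha ha1 x hx hfin
  obtain ⟨B, hB⟩ := (hfin.image Prod.fst).bddAbove
  obtain ⟨K, hK⟩ := exists_nat_gt (1 / x)
  rcases ha (max (B + 1) K) with h | h
  · exact absurd h (not_lt.2 ha1.le)
  · obtain ⟨n, hn⟩ := mem_iUnion.1 h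
    obtain ⟨m, hm⟩ := mem_iUnion.1 hn
    have h1 : (n + max (B + 1) K, m) ∈ PP a b x := by
      have hm' : |a ^ (n + max (B + 1) K) - b ^ m| < 1 / (((max (B + 1) K : ℕ) : ℝ) + 1) := hm
      refine le_trans hm'.le ?_
      rw [div_le_iff₀ (by positivity)]
      rw [div_lt_iff₀ hx] at hK
      have : (K : ℝ) ≤ ((max (B + 1) K : ℕ) : ℝ) := by exact_mod_cast le_max_right _ _
      nlinarith
    have h2 := hB (mem_image_of_mem Prod.fst h1)
    simp only at h2
    have h3 : B + 1 ≤ max (B + 1) K := le_max_left _ _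
    omega

end Pool.Agent.Helper12.NearGame
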