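import Pool.Agent.Helper12.NearGame

/-!
# The covering game: existence of the next interval
-/

set_option autoImplicit false

namespace Pool.Agent.Helper12.NearGame

open Real Filter Set Topology
open scoped ENNReal

theorem ev_exp (k : ℝ) {Lam : ℝ} (hLam : 0 < Lam) {ε : ℝ} (hε : 0 < ε) :
    ∀ᶠ N : ℕ in atTop, (N : ℝ) ^ k * exp (-Lam * N) ≤ ε := by
  have h1 := (tendsto_rpow_mul_exp_neg_mul_atTop_nhds_zero k Lam hLam).comp
    (tendsto_natCast_atTop_atTop (R := ℝ))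
  exact h1.eventually (ge_mem_nhds hε)

theorem ev_large {β : ℝ} (hβ : 0 < β) (K : ℝ) : ∀ᶠ N : ℕ in atTop, K ≤ (N : ℝ) ^ β :=
  ((tendsto_rpow_atTop hβ).comp (tendsto_natCast_atTop_atTop (R := ℝ))).eventually
    (eventually_ge_atTop K)

theorem ev_E3 {b S C : ℝ} (hb : 1 < b) (hS : 0 < S) (hC : 0 < C) {s : ℝ} (hs2 : s ≤ 2)
    {Lam : ℝ} (hLam : 0 < Lam) :
    ∀ᶠ N : ℕ in atTop, 1 + S * (log (128 * (N : ℝ) ^ 2 / log b)) ^ s *
      (8 * N * exp (-Lam * N) / log b + 1) ≤ N * C := by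
  have hlb : 0 < log b := log_pos hb
  have h1 := ev_exp 1 hLam (ε := log b / 8) (by positivity)
  -- `log y ≥ 1`
  have h2 : ∀ᶠ N : ℕ in atTop, exp 1 ≤ 128 * (N : ℝ) ^ 2 / log b := by
    filter_upwards [ev_large (β := 2) (by norm_num) (exp 1 * log b / 128)] with N hN
    rw [rpow_two] at hN
    rw [le_div_iff₀ hlb]
    linarith
  set K : ℝ := 128 * S * (128 / log b) ^ (1 / 4 : ℝ) with hK
  have hK0 : 0 < K := by positivity
  have h3 := ev_large (β := 1 / 2) (by norm_num) ((K + 1) / C)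
  filter_upwards [h1, h2, h3, eventually_ge_atTop 1] with N e1 e2 e3 e4
  have hN1 : (1 : ℝ) ≤ N := by exact_mod_cast e4
  have hN0 : (0 : ℝ) < N := by linarith
  set y : ℝ := 128 * (N : ℝ) ^ 2 / log b with hy
  have hy0 : 0 < y := by positivity
  have hl1 : 1 ≤ log y := by
    rw [le_log_iff_exp_le hy0]; exact e2
  have f1 : (log y) ^ s ≤ (log y) ^ (2 : ℝ) := rpow_le_rpow_of_exponent_le hl1 hs2
  rw [rpow_two] at f1
  have f2 : log y ≤ 8 * y ^ (1 / 8 : ℝ) := by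
    have := log_le_rpow_div hy0.le (ε := 1 / 8) (by norm_num)
    linarith
  have f3 : (log y) ^ 2 ≤ 64 * y ^ (1 / 4 : ℝ) := by
    have h5 : (log y) ^ 2 ≤ (8 * y ^ (1 / 8 : ℝ)) ^ 2 := pow_le_pow_left₀ (by linarith) f2 2
    have h6 : (y ^ (1 / 8 : ℝ)) ^ 2 = y ^ (1 / 4 : ℝ) := by
      rw [← rpow_natCast, ← rpow_mul hy0.le]; norm_num
    rw [mul_pow, h6] at h5
    linarith
  have f4 : y ^ (1 / 4 : ℝ) = (128 / log b) ^ (1 / 4 : ℝ) * (N : ℝ) ^ (1 / 2 : ℝ) := by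
    rw [hy, show 128 * (N : ℝ) ^ 2 / log b = 128 / log b * (N : ℝ) ^ 2 by ring,
      mul_rpow (by positivity) (by positivity), ← rpow_natCast (N : ℝ) 2, ← rpow_mul hN0.le]
    norm_num
  have f5 : 8 * N * exp (-Lam * N) / log b + 1 ≤ 2 := by
    rw [rpow_one] at e1
    have : 8 * N * exp (-Lam * N) / log b ≤ 1 := by
      rw [div_le_one hlb]; linarith
    linarith
  have f6 : 0 ≤ (log y) ^ s := rpow_nonneg (by linarith) _
  have f7 : S * (log y) ^ s * (8 * N * exp (-Lam * N) / log b + 1) ≤ K * (N : ℝ) ^ (1 / 2 : ℝ) := by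
    calc S * (log y) ^ s * (8 * N * exp (-Lam * N) / log b + 1) ≤ S * (log y) ^ s * 2 := by
          apply mul_le_mul_of_nonneg_left f5 (by positivity)
      _ ≤ S * (64 * y ^ (1 / 4 : ℝ)) * 2 := by
          have := f1.trans f3
          gcongr
      _ = _ := by rw [f4, hK]; ring
  have f8 : (N : ℝ) ^ (1 / 2 : ℝ) * (N : ℝ) ^ (1 / 2 : ℝ) = N := by
    rw [← rpow_add hN0]; norm_num
  have f9 : 1 ≤ (N : ℝ) ^ (1 / 2 : ℝ) := one_le_rpow hN1 (by norm_num)
  rw [div_le_iff₀ hC] at e3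
  have f10 : (K + 1) * (N : ℝ) ^ (1 / 2 : ℝ) ≤
      ((N : ℝ) ^ (1 / 2 : ℝ) * C) * (N : ℝ) ^ (1 / 2 : ℝ) :=
    mul_le_mul_of_nonneg_right e3 (by linarith)
  have f11 : ((N : ℝ) ^ (1 / 2 : ℝ) * C) * (N : ℝ) ^ (1 / 2 : ℝ) = N * C := by
    rw [mul_right_comm, f8]
  rw [f11] at f10
  linarith

theorem ev_E4 {S C s' : ℝ} (hS : 0 < S) (hC : 0 < C) (hs' : s' < 2) :
    ∀ᶠ N : ℕ in atTop, 0 < (Pr N).card ∧
      S ≤ ((Pr N).card * (N * C)) * (N : ℝ) ^ (-s') := by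
  have h0 : (fun x : ℝ => log x) =o[atTop] (fun x : ℝ => x ^ (2 - s')) :=
    isLittleO_log_rpow_atTop (by linarith)
  have hK : 0 < C / (2 * S) := by positivity
  have h1 : ∀ᶠ x : ℝ in atTop, log x ≤ (C / (2 * S)) * x ^ (2 - s') := by
    filter_upwards [h0.bound hK, eventually_ge_atTop 1] with x hx hx1
    rw [norm_eq_abs, norm_eq_abs, abs_of_nonneg (log_nonneg hx1),
      abs_of_nonneg (by positivity)] at hx
    exact hx
  have h2 := (tendsto_natCast_atTop_atTop (R := ℝ)).eventually h1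
  have h3 := ev_large (β := 2 - s') (by linarith) (2 * S * log 4 / C)
  filter_upwards [h2, h3, many_primes, eventually_ge_atTop 1] with N e1 e2 e3 e4
  have hN1 : (1 : ℝ) ≤ N := by exact_mod_cast e4
  have hN0 : (0 : ℝ) < N := by linarith
  have hlog : log (4 * (N : ℝ)) = log 4 + log N := log_mul (by norm_num) hN0.ne'
  have hl0 : 0 < log (4 * (N : ℝ)) := log_pos (by linarith)
  change (N : ℝ) ≤ log (4 * N) * (((Pr N).card : ℕ) : ℝ) at e3
  have hc : 0 < (Pr N).card := by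
    rcases Nat.eq_zero_or_pos (Pr N).card with h | h
    · rw [h] at e3; simp at e3; linarith
    · exact h
  refine ⟨hc, ?_⟩
  have f1 : S * log (4 * N) ≤ C * (N : ℝ) ^ (2 - s') := by
    rw [hlog]
    have g1 : S * log 4 ≤ (C / 2) * (N : ℝ) ^ (2 - s') := by
      rw [div_le_iff₀ hC] at e2
      linarith
    have g2 : S * log N ≤ (C / 2) * (N : ℝ) ^ (2 - s') := by
      calc S * log N ≤ S * ((C / (2 * S)) * (N : ℝ) ^ (2 - s')) :=
            mul_le_mul_of_nonneg_left e1 hS.le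
        _ = _ := by field_simp
    linarith
  have f2 : (N : ℝ) ^ (2 - s') = N * N * (N : ℝ) ^ (-s') := by
    rw [show (2 : ℝ) - s' = 1 + 1 + -s' by ring, rpow_add hN0, rpow_add hN0, rpow_one]
  rw [f2] at f1
  have f3 : S * log (4 * N) ≤ log (4 * N) * (((Pr N).card : ℝ) * (N * C) * (N : ℝ) ^ (-s')) := by
    refine f1.trans ?_
    have g0 : 0 ≤ C * N * (N : ℝ) ^ (-s') := by positivity
    nlinarith
  rw [mul_comm S] at f3
  exact le_of_mul_le_mul_left f3 hl0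

theorem ev_E5 {S v Lam β : ℝ} (hS : 0 < S) (hv : 0 < v) (hβ : 1 < β) :
    ∀ᶠ N : ℕ in atTop, S * exp (-(N : ℝ) ^ β / 2) ≤ 2 * exp (-Lam * (4 * N)) / (64 * v) := by
  have h1 := ev_large (β := β - 1) (by linarith) (8 * Lam + 2)
  have h2 := ev_large (β := 1) (by norm_num) (log (32 * v * S))
  filter_upwards [h1, h2, eventually_ge_atTop 1] with N e1 e2 e3
  have hN1 : (1 : ℝ) ≤ N := by exact_mod_cast e3
  have hN0 : (0 : ℝ) < N := by linarith
  rw [rpow_one] at e2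
  have f1 : (N : ℝ) ^ β = N ^ (β - 1) * N := by
    rw [← rpow_add_one hN0.ne']; congr 1; ring
  have f2 : (8 * Lam + 2) * N ≤ (N : ℝ) ^ β := by
    rw [f1]; exact mul_le_mul_of_nonneg_right e1 hN0.le
  have f3 : log (32 * v * S) + -(N : ℝ) ^ β / 2 ≤ -Lam * (4 * N) := by linarith
  have f4 := exp_le_exp.2 f3
  rw [exp_add, exp_log (by positivity)] at f4
  rw [le_div_iff₀ (by positivity)]
  linarith

open Classical in
theorem step {b v s S Lam : ℝ} (hb : 1 < b) (hs : 0 < s) (hs2 : s < 2) (hLam : 0 < Lam)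
    (hS0 : 0 < S) {ι : Type} {c r : ι → ℝ} (hr : ∀ i, 0 < r i ∧ r i < 1)
    (hS : ∑' i, W r s i ≤ ENNReal.ofReal S) {p q : ℝ} (hp : 1 ≤ p) (hpq : p < q) (hqv : q ≤ v)
    (hP : Len c r p q ≤ ENNReal.ofReal ((q - p) / (64 * v)))
    (hint : ∀ k : ℕ, b ^ k < p ∨ q < b ^ k) (M : ℕ) :
    ∃ x : Σ _ : ℕ, ℕ, M ≤ x.1 ∧ exp (-Lam * x.1) ≤ 1 / (M + 1) ∧
      p < X b x - exp (-Lam * x.1) ∧ X b x + exp (-Lam * x.1) < q ∧
      Len c r (X b x - exp (-Lam * x.1)) (X b x + exp (-Lam * x.1)) ≤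
        ENNReal.ofReal ((2 * exp (-Lam * x.1)) / (64 * v)) := by
  have hlb : 0 < log b := log_pos hb
  have hv : 0 < v := by linarith
  have hD : 0 < q - p := by linarith
  set s' : ℝ := (s + 2) / 2 with hs'
  have hs'2 : s' < 2 := by rw [hs']; linarith
  have hβ : 1 < s' / s := by rw [lt_div_iff₀ hs, hs']; linarith
  have a1 := ev_exp 0 hLam (ε := (q - p) / 8) (by positivity)
  have a2 := ev_exp 2 hLam (ε := log b / 128) (by positivity)
  have a3 := ev_large (β := 2) (by norm_num) (log b / 128 + 1)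
  have a4 := ev_E3 (C := (q - p) / (16 * v * log b)) hb hS0 (by positivity) hs2.le hLam
  have a5 := ev_E4 (C := (q - p) / (4 * v * log b)) hS0 (by positivity) hs'2
  have a6 := ev_E5 (Lam := Lam) hS0 hv hβ
  have a7 := ev_large (β := s' / s) (by linarith) 48
  have a8 := ev_exp 0 hLam (ε := 1 / ((M : ℝ) + 1)) (by positivity)
  obtain ⟨N, e1, e2, e3, e4, e5, e6, e7, e8, e9, e10⟩ := (a1.and (a2.and (a3.and (a4.and (a5.and
    (a6.and (a7.and (a8.and ((eventually_ge_atTop 1).and (eventually_ge_atTop M)))))))))).exists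
  have hN1 : (1 : ℝ) ≤ N := by exact_mod_cast e9
  have hN0 : (0 : ℝ) < N := by linarith
  rw [rpow_zero, one_mul] at e1 e8
  rw [rpow_two] at e2 e3
  have E2 : exp (-Lam * N) ≤ log b / (128 * (N : ℝ) ^ 2) := by
    rw [le_div_iff₀ (by positivity)]; linarith
  have E2' : log b / (128 * (N : ℝ) ^ 2) < 1 := by
    rw [div_lt_one (by positivity)]; linarith
  obtain ⟨x, ⟨hx1, hx2⟩, hx3, hx4, hx5⟩ := core (s' := s') hb hs hs2.le hp hpq hqv hLam hS0 hr hS
    hP hint e9 e1 E2 E2' (e4.trans (le_of_eq (by ring))) e5.1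
    (e5.2.trans (le_of_eq (by ring))) e6 e7
  refine ⟨x, by omega, ?_, by linarith, by linarith, hx5⟩
  refine le_trans (exp_le_exp.2 ?_) e8
  have : (N : ℝ) ≤ x.1 := by exact_mod_cast hx1.le
  nlinarith

end Pool.Agent.Helper12.NearGame
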